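import Pool.Agent.Helper88.GL.Classes

set_option autoImplicit false

namespace Pool.Agent.Helper88.GL

open Encodable Pool.Agent.Helper227 Pool.Agent.H548R2.Post MeasureTheory
open scoped ENNReal
open Nat.Partrec (Code)

theorem exists_WE_of_ui {p : (ℕ → Bool) → ℕ → Prop} (hp : UI p) :
    ∃ e : ℕ, ∀ X, WE X e = {m | p X m} := by
  obtain ⟨E, hE, mE, eE⟩ := hp
  obtain ⟨c, hc⟩ := Nat.Partrec.Code.exists_code.1 hE.re
  refine ⟨encode c, fun X => ?_⟩
  ext m
  simp only [WE, Set.mem_ofPred_eq, Denumerable.ofNat_encode]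
  rw [eE]
  refine exists_congr fun k => ?_
  rw [hc]
  simp [Part.assert, pre]

theorem chr_eq {A : ℕ → Bool} : chr {m | A m = true} = A := by
  funext m
  simp [chr]

/-- The operator joining a c.e. set to the oracle. -/
theorem exists_join_index {A : ℕ → Bool} (hA : S1 fun n : ℕ => A n = true) :
    ∃ v : ℕ, ∀ X, chr (WE X v) = join X A := by
  have hm : Primrec fun m : ℕ => m % 2 := Primrec.nat_mod.comp Primrec.id (Primrec.const 2)
  have hd : Primrec fun m : ℕ => m / 2 := Primrec.nat_div.comp Primrec.id (Primrec.const 2)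
  have h1 : UI fun X (m : ℕ) => (m % 2 = 0 ∧ X (m / 2) = true) ∨
      (¬ m % 2 = 0 ∧ A (m / 2) = true) := by
    refine UI.or (UI.and (UI.of_prim ?_) ?_) (UI.and (UI.of_prim ?_) (UI.of_s1 (hA.comp hd)))
    · exact Primrec.eq.comp hm (Primrec.const 0)
    · exact UI.query.comp (f := fun m : ℕ => (m / 2, true)) (Primrec.pair hd (Primrec.const true))
    · exact (Primrec.eq.comp hm (Primrec.const 0)).not
  obtain ⟨v, hv⟩ := exists_WE_of_ui h1
  refine ⟨v, fun X => ?_⟩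
  rw [hv X, ← chr_eq (A := join X A)]
  congr 1
  ext m
  simp only [Set.mem_ofPred_eq, join]
  by_cases h : m % 2 = 0
  · simp [h]
  · simp [h]

theorem Sg3.or {P Q : (ℕ → Bool) → ℕ → Prop} (hP : Sg3 P) (hQ : Sg3 Q) :
    Sg3 fun X v => P X v ∨ Q X v := by
  obtain ⟨E, hE, eE⟩ := hP
  obtain ⟨F, hF, eF⟩ := hQ
  have hm : PrimrecPred fun x : (ℕ × ℕ × ℕ) × List Bool => x.1.1 % 2 = 0 :=
    Primrec.eq.comp (Primrec.nat_mod.comp (Primrec.fst.comp Primrec.fst) (Primrec.const 2))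
      (Primrec.const 0)
  have hc : Primrec fun x : (ℕ × ℕ × ℕ) × List Bool => ((x.1.1 / 2, x.1.2.1, x.1.2.2), x.2) :=
    Primrec.pair (Primrec.pair (Primrec.nat_div.comp (Primrec.fst.comp Primrec.fst)
      (Primrec.const 2)) (Primrec.pair (Primrec.fst.comp (Primrec.snd.comp Primrec.fst))
        (Primrec.snd.comp (Primrec.snd.comp Primrec.fst)))) Primrec.snd
  refine ⟨fun x => (x.1.1 % 2 = 0 ∧ E ((x.1.1 / 2, x.1.2.1, x.1.2.2), x.2)) ∨
    (¬ x.1.1 % 2 = 0 ∧ F ((x.1.1 / 2, x.1.2.1, x.1.2.2), x.2)), ?_, fun X v => ?_⟩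
  · exact (S1.or (S1.and (S1.of_prim hm) ((S1.of_re hE).comp hc))
      (S1.and (S1.of_prim hm.not) ((S1.of_re hF).comp hc))).re
  · refine (or_congr (eE X v) (eF X v)).trans ?_
    constructor
    · rintro (⟨k, hk⟩ | ⟨k, hk⟩)
      · refine ⟨2 * k, fun a => (hk a).imp fun s hs => Or.inl ⟨?_, ?_⟩⟩
        · show 2 * k % 2 = 0
          omega
        have : 2 * k / 2 = k := by omega
        simp only [this]
        exact hs
      · refine ⟨2 * k + 1, fun a => (hk a).imp fun s hs => Or.inr ⟨?_, ?_⟩⟩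
        · show ¬ (2 * k + 1) % 2 = 0
          omega
        have : (2 * k + 1) / 2 = k := by omega
        simp only [this]
        exact hs
    · rintro ⟨k, hk⟩
      by_cases h : k % 2 = 0
      · refine Or.inl ⟨k / 2, fun a => (hk a).imp fun s hs => ?_⟩
        rcases hs with hs | hs
        · exact hs.2
        · exact absurd h hs.1
      · refine Or.inr ⟨k / 2, fun a => (hk a).imp fun s hs => ?_⟩
        rcases hs with hs | hs
        · exact absurd hs.1 h
        · exact hs.2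

theorem join_mono {X Y A B : ℕ → Bool} (h : TLe X Y) (h' : TLe A B) :
    TLe (join X A) (join Y B) := by
  refine join_le (TLe.tr h ?_) (TLe.tr h' (le_join_right Y B))
  have hf : Computable fun n : ℕ => 2 * n :=
    (Primrec.nat_mul.comp (Primrec.const 2) Primrec.id).to_comp
  exact tLe_of_computable hf fun n => (join_ev Y B n).symm

theorem le_join_left (X Y : ℕ → Bool) : TLe X (join X Y) := by
  have hf : Computable fun n : ℕ => 2 * n :=
    (Primrec.nat_mul.comp (Primrec.const 2) Primrec.id).to_comp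
  exact tLe_of_computable hf fun n => (join_ev X Y n).symm

/-- (i) everywhere, and (ii) almost everywhere and at all the finite jumps of the empty set. -/
theorem almost_everywhere : ∃ e : ℕ, (∀ X, Btw e X) ∧
    (∀ᵐ X ∂lam, ∀ Y, TEq X Y → TEq (chr (WE X e)) (chr (WE Y e))) ∧
    ∀ n X Y, TEq X (zj n) → TEq X Y → TEq (chr (WE X e)) (chr (WE Y e)) := by
  obtain ⟨e₀, h0, -⟩ := Pool.Agent.H548R2.Post.main (fun _ _ => false) (Computable.const false)
  set A := chr (WE zr e₀) with hA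
  set D := chr (WE A e₀) with hD
  have hAce : S1 fun n : ℕ => A n = true := by
    refine s1_of_si_zr (((si_WE zr).comp (f := fun n : ℕ => (e₀, n))
      ((Primrec.const e₀).pair Primrec.id)).of_eq fun n => ?_)
    simp [hA, chr]
  obtain ⟨a1, a2, a3, a4, a5⟩ := h0 zr
  obtain ⟨b1, b2, b3, b4, b5⟩ := h0 A
  rw [← hA] at a1 a2 a3 a4 a5
  rw [← hD] at b1 b2 b3 b4 b5
  have hDlow : TLe (jump D) (jump zr) := TLe.tr b5 a5
  obtain ⟨T1, hT1, hT1', hT1m⟩ := exists_classes (C := zr) (D := A) a2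
    (TLe.tr (TLe.jump (join_le (zr_le A) (TuringReducible.refl _))) a5)
  obtain ⟨T2, hT2, hT2', hT2m⟩ := exists_classes (C := A) (D := D) b2
    (TLe.tr (TLe.jump (join_le b1 (TuringReducible.refl _))) hDlow)
  obtain ⟨v, hv⟩ := exists_join_index hAce
  -- the relation
  have hP1 : Sg3 fun X w => ∃ k : ℕ, (T1 X k.unpair.1 ∧ T2 X k.unpair.2) ∧ w = v := by
    refine sg3_of_pi2 (T := fun X (x : ℕ × ℕ) => (T1 X x.1.unpair.1 ∧ T2 X x.1.unpair.2) ∧
      x.2 = v) (PI2.and (PI2.and ?_ ?_) (PI2.of_ui (UI.of_prim ?_)))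
    · exact hT1.comp (f := fun x : ℕ × ℕ => x.1.unpair.1)
        (Primrec.fst.comp (Primrec.unpair.comp Primrec.fst))
    · exact hT2.comp (f := fun x : ℕ × ℕ => x.1.unpair.2)
        (Primrec.snd.comp (Primrec.unpair.comp Primrec.fst))
    · exact Primrec.eq.comp Primrec.snd (Primrec.const v)
  have hP2 : Sg3 fun X w => ∃ n : ℕ, IsT n X ∧ w = e₀ :=
    sg3_of_pi2 (T := fun X (x : ℕ × ℕ) => IsT x.1 X ∧ x.2 = e₀)
      (PI2.and pi2_IsT (PI2.of_ui (UI.of_prim (Primrec.eq.comp Primrec.snd (Primrec.const e₀)))))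
  -- condition (i) on the first part
  have hB1 : ∀ X k l, T1 X k → T2 X l → Btw v X := by
    intro X k l hk hl
    have h1 := hT1' X k hk
    have h2 := hT2' X l hl
    refine ⟨?_, ?_, chr_WE_le_jump X v, ?_⟩
    · rw [hv X]
      exact le_join_left X A
    · rw [hv X]
      intro h3
      exact h1 (TLe.tr (le_join_right X A) (TLe.tr h3 (le_join_left X zr)))
    · rw [hv X]
      intro h3
      refine h2 (TLe.tr (TLe.tr (tLe_jump D) hDlow) (TLe.tr (TLe.jump (zr_le X)) h3))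
  have hzj0 : zj 0 = zr := rfl
  have hT0 : ∀ X, IsT 0 X → X = zr := by
    intro X hX
    refine hX.unique ⟨fun _ => rfl, fun i hi => absurd hi (Nat.not_lt_zero i), fun _ _ _ => rfl⟩
  -- the two parts are coherent
  have hmix : ∀ X Y k l n, T1 X k → T2 X l → IsT n Y → TEq X Y →
      TEq (chr (WE X v)) (chr (WE Y e₀)) := by
    intro X Y k l n hk hl hY hXY
    rcases Nat.eq_zero_or_pos n with rfl | hn
    · rw [hT0 Y hY, ← hA, hv X]
      refine ⟨join_le (TLe.tr hXY.1 ?_) (TuringReducible.refl _), le_join_right X A⟩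
      rw [hT0 Y hY]
      exact zr_le A
    · exfalso
      refine hT1' X k hk ?_
      have h1 : TLe A (zj 1) := by
        rw [zj_succ]
        exact TLe.tr (tLe_jump A) a5
      exact TLe.tr h1 (TLe.tr (zj_mono hn) (TLe.tr hY.teq.2 (TLe.tr hXY.2 (le_join_left X zr))))
  obtain ⟨e, g1, g2, -⟩ := gluing (hP1.or hP2) (by
      rintro X w (⟨k, ⟨hk, hl⟩, rfl⟩ | ⟨n, hn, rfl⟩)
      · exact hB1 X _ _ hk hl
      · exact ⟨(h0 X).1, (h0 X).2.1, (h0 X).2.2.1, (h0 X).2.2.2.1⟩)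
    (by
      rintro X w Y w' (⟨k, ⟨hk, hl⟩, rfl⟩ | ⟨n, hn, rfl⟩) (⟨k', ⟨hk', hl'⟩, rfl⟩ | ⟨n', hn', rfl⟩)
        hXY
      · rw [hv X, hv Y]
        exact ⟨join_mono hXY.1 (TuringReducible.refl _), join_mono hXY.2 (TuringReducible.refl _)⟩
      · exact hmix X Y _ _ _ hk hl hn' hXY
      · exact (hmix Y X _ _ _ hk' hl' hn hXY.symm).symm
      · obtain rfl := hn.inj hn' hXY
        rw [hn.unique hn']
        exact TEq.refl _)
  have key : ∀ X w, ((∃ k : ℕ, (T1 X k.unpair.1 ∧ T2 X k.unpair.2) ∧ w = v) ∨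
      (∃ n : ℕ, IsT n X ∧ w = e₀)) → ∀ Y Z, TEq X Y → TEq Y Z →
        TEq (chr (WE Y e)) (chr (WE Z e)) := fun X w hX Y Z hXY hYZ =>
    (g2 X w Y hX hXY).tr (g2 X w Z hX (hXY.tr hYZ)).symm
  refine ⟨e, g1, ?_, fun n X Y hX hXY => ?_⟩
  · have hn1 : ∀ (T : (ℕ → Bool) → ℕ → Prop), (∀ k, lam {X | ¬ T X k} ≤ (1 / 2) ^ k) →
        ∀ᵐ X ∂lam, ∃ k, T X k := by
      intro T hT
      rw [ae_iff]
      have h1 : ∀ k, lam {X | ¬ ∃ k, T X k} ≤ (1 / 2) ^ k := fun k =>
        (measure_mono fun X hX => not_exists.1 hX k).trans (hT k)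
      have h2 : Filter.Tendsto (fun k : ℕ => (1 / 2 : ℝ≥0∞) ^ k) Filter.atTop (nhds 0) :=
        ENNReal.tendsto_pow_atTop_nhds_zero_of_lt_one (by norm_num)
      exact le_antisymm (ge_of_tendsto' h2 h1) zero_le
    filter_upwards [hn1 T1 hT1m, hn1 T2 hT2m] with X ⟨k, hk⟩ ⟨l, hl⟩ Y hXY
    exact key X v (Or.inl ⟨Nat.pair k l, ⟨by simpa using hk, by simpa using hl⟩, rfl⟩) X Y
      (TEq.refl X) hXY
  · obtain ⟨Z, hZ⟩ := exists_IsT n
    exact key Z e₀ (Or.inr ⟨n, hZ, rfl⟩) X Y (hZ.teq.tr hX.symm) hXY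

end Pool.Agent.Helper88.GL
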