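import Pool.Agent.Helper88.GL.Inj

set_option autoImplicit false

namespace Pool.Agent.Helper88.GL

open Encodable Pool.Agent.Helper227 Pool.Agent.H548R2.Post Filter
open Nat.Partrec (Code)

variable {ev : ℕ → List Bool → Prop} {F : ℕ → ℕ → List Bool → Prop}

theorem pp_En (hev : PrimrecPred fun x : ℕ × List Bool => ev x.1 x.2)
    (hF : PrimrecPred fun x : (ℕ × ℕ) × List Bool => F x.1.1 x.1.2 x.2) :
    PrimrecPred fun x : (ℕ × ℕ) × List Bool => ∃ t < x.2.length + 1,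
      hlt x.2.length x.1.1 x.1.1 (pJ x.2 (tb ev F x.2 x.2.length) t) = true := by
  refine PP.ex_lt (f := fun x : (ℕ × ℕ) × List Bool => x.2.length + 1)
    (p := fun (x : (ℕ × ℕ) × List Bool) (t : ℕ) =>
      hlt x.2.length x.1.1 x.1.1 (pJ x.2 (tb ev F x.2 x.2.length) t) = true) ?_
    (Primrec.succ.comp (Primrec.list_length.comp Primrec.snd))
  have h1 : Primrec fun y : ((ℕ × ℕ) × List Bool) × ℕ => y.1.2 := Primrec.snd.comp Primrec.fst
  have h2 : Primrec fun y : ((ℕ × ℕ) × List Bool) × ℕ => tb ev F y.1.2 y.1.2.length :=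
    (primrec_tb hev hF).comp (Primrec.pair h1 (Primrec.list_length.comp h1))
  exact pp_hl.comp (f := fun y : ((ℕ × ℕ) × List Bool) × ℕ =>
    (((y.1.2, tb ev F y.1.2 y.1.2.length), y.1.1.1), y.2))
    (Primrec.pair (Primrec.pair (Primrec.pair h1 h2)
      (Primrec.fst.comp (Primrec.fst.comp Primrec.fst))) Primrec.snd)

theorem key_En (X : ℕ → Bool) (e s : ℕ) :
    (∃ t < (pre X s).length + 1, hlt (pre X s).length e e
      (pJ (pre X s) (tb ev F (pre X s) (pre X s).length) t) = true) ↔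
      En s e e (jn X (As ev F X s)) := by
  rw [length_pre, tb_pre le_rfl]
  unfold En
  constructor
  · rintro ⟨t, ht, h⟩
    exact ⟨t, by omega, by rwa [pJ_pre (s := s) _ (by omega)] at h⟩
  · rintro ⟨t, ht, h⟩
    exact ⟨t, by omega, by rwa [pJ_pre (s := s) _ (by omega)]⟩

theorem si_En' (hev : PrimrecPred fun x : ℕ × List Bool => ev x.1 x.2)
    (hF : PrimrecPred fun x : (ℕ × ℕ) × List Bool => F x.1.1 x.1.2 x.2) (X : ℕ → Bool) :
    (SI X fun x : ℕ × ℕ => En x.2 x.1 x.1 (jn X (As ev F X x.2))) ∧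
      SI X fun x : ℕ × ℕ => ¬ En x.2 x.1 x.1 (jn X (As ev F X x.2)) := by
  constructor
  · exact (t42_gen (X := X) (S1.of_prim (pp_En hev hF))).of_eq fun x => key_En X x.1 x.2
  · exact (t42_gen (X := X) (S1.of_prim (PrimrecPred.not (pp_En hev hF)))).of_eq
      fun x => not_congr (key_En X x.1 x.2)

/-- If all guesses are false, the set is low over the oracle. -/
theorem caseA_low (hev : PrimrecPred fun x : ℕ × List Bool => ev x.1 x.2)
    (hF : PrimrecPred fun x : (ℕ × ℕ) × List Bool => F x.1.1 x.1.2 x.2) (X : ℕ → Bool)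
    (h : ∀ m, ¬ Tr ev X m ∧ (Vm F X m).Finite) : TLe (jump (WZ ev F X)) (jump X) := by
  have h0 := si_En' hev hF X
  refine tLe_jump_of_limit (p := fun e s => En s e e (jn X (As ev F X s))) h0.1 h0.2
    (fun e he => jump_true he) fun e he => jump_false ?_ he
  obtain ⟨s0, h1⟩ := eventually_atTop.1 (ev_resp (N := e + 1) fun m _ => h m)
  exact ⟨s0, fun s hs => h1 s hs e (Nat.lt_succ_self e)⟩

/-- If all guesses are false, every odd column is finite. -/
theorem caseA_col (X : ℕ → Bool) (h : ∀ m, ¬ Tr ev X m ∧ (Vm F X m).Finite) (n : ℕ) :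
    ∃ b, ∀ z, z.unpair.1 = 2 * n + 1 → (∃ s, z ∈ As ev F X s) → z < b := by
  have a1 : ∀ᶠ s in atTop, ∀ m ∈ {m : ℕ | m < 2 * n + 1}, ¬ ev m (pre X s) :=
    (eventually_all_finite (Set.finite_lt_nat _)).2 fun m _ => ev_not_of_not_Tr (h m).1
  obtain ⟨s0, h0⟩ := eventually_atTop.1 (a1.and (ev_not_Act (ev := ev) (F := F) (X := X)
    (2 * n + 1)))
  refine ⟨s0, fun z hz hs => ?_⟩
  obtain ⟨s, hs⟩ := hs
  by_contra hb
  -- the element enters at a stage `≥ s0`
  have h1 : ∀ s, z ∉ As ev F X s := by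
    intro s
    induction s with
    | zero => simp [As]
    | succ s ih =>
      intro h2
      rcases mem_As_succ.1 h2 with h3 | ⟨hzs, hg⟩
      · exact ih h3
      have h4 := h0 s (by omega)
      rcases hg with ⟨g1, g2, g3⟩ | ⟨m, hm, hm2, g2, g3⟩ | ⟨g1, g2, g3, g4⟩
      · omega
      · exact h4.1 m (by simp only [Set.mem_ofPred_eq]; omega) g2
      · rw [hz] at g1 g2 g3 g4
        exact h4.2 ⟨z, hzs, hz, g1, g2, g3, g4⟩
  exact h1 s hs

theorem infinite_col (p b : ℕ) : ∃ z ≥ b, z.unpair.1 = p :=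
  ⟨Nat.pair p b, Nat.right_le_pair p b, by simp⟩

/-- If all guesses are false, the set is not computable in the oracle. -/
theorem caseA_not_le (X : ℕ → Bool) (h : ∀ m, ¬ Tr ev X m ∧ (Vm F X m).Finite) :
    ¬ TLe (WZ ev F X) X := by
  intro hle
  have h1 : SI X fun x : ℕ × Bool => WZ ev F X x.1 = x.2 := tLe_iff_SI.1 hle
  have hp : Primrec fun z : ℕ => (2 * z + 1, false) :=
    Primrec.pair (Primrec.succ.comp (Primrec.nat_mul.comp (Primrec.const 2) Primrec.id))
      (Primrec.const false)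
  have h2 : SI X fun z : ℕ => WZ ev F X (2 * z + 1) = false :=
    h1.comp (f := fun z : ℕ => (2 * z + 1, false)) hp
  have h3 : CEIn X {z | WZ ev F X (2 * z + 1) = false} := SI.iff_ceIn.2 h2
  obtain ⟨n, hn⟩ := ceIn_iff_exists_WE.1 h3
  have hn' : ∀ z, z ∈ WE X n ↔ ¬ ∃ s, z ∈ As ev F X s := by
    intro z
    rw [← hn, ← WZ_odd]
    simp
  obtain ⟨b1, hb1⟩ := caseA_col X h n
  obtain ⟨s0, b2, hb2⟩ := ev_bdd (N := 2 * n + 1) fun m _ => h m
  obtain ⟨z, hz, hzc⟩ := infinite_col (2 * n + 1) (max b1 b2)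
  have h4 : ¬ ∃ s, z ∈ As ev F X s := fun h5 => by
    have := hb1 z hzc h5
    omega
  obtain ⟨s1, hs1⟩ := (mem_WE_iff X n z).1 ((hn' z).2 h4)
  set s := max s0 (max s1 (z + 1)) with hs
  refine h4 ⟨s + 1, mem_As_succ.2 (Or.inr ⟨by omega, Or.inr (Or.inr ?_)⟩)⟩
  have e1 : (2 * n + 1) / 2 = n := by omega
  rw [hzc, e1]
  refine ⟨by omega, ?_, fun w hw h6 => ?_, fun k hk => ?_⟩
  · rw [en_pre]
    exact En_mono (by omega) hs1
  · rw [en_pre] at h6
    exact (hn' w).1 ((mem_WE_iff X n w).2 ⟨s, h6⟩) ⟨s, hw⟩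
  · exact hb2 s (by omega) z (by omega) k hk

end Pool.Agent.Helper88.GL
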