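import Pool.Agent.Helper88.GL.CaseA

set_option autoImplicit false

namespace Pool.Agent.Helper88.GL

open Encodable Pool.Agent.Helper227 Pool.Agent.H548R2.Post
open Filter hiding join
open Nat.Partrec (Code)

variable {ev : ℕ → List Bool → Prop} {F : ℕ → ℕ → List Bool → Prop}

theorem tLe_of_opt {A B : ℕ → Bool} {g : ℕ → Option Bool} {f : ℕ → ℕ} (hg : Computable g)
    (hf : Computable f) (h : ∀ n, A n = (g n).getD (B (f n))) : TLe A B := by
  rw [tLe_iff_SI]
  have h1 : SI B fun x : ℕ × Bool => B (f x.1) = x.2 :=
    SI.comp_computable (f := fun x : ℕ × Bool => (f x.1, x.2)) SI.query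
      ((hf.comp Computable.fst).pair Computable.snd)
  have h0 : SI B fun x : Option Bool × Bool => x.1 = some x.2 :=
    SI.of_prim (Primrec.eq.comp Primrec.fst (Primrec.option_some.comp Primrec.snd))
  have h0' : SI B fun x : Option Bool × Bool => x.1 = none :=
    SI.of_prim (Primrec.eq.comp Primrec.fst (Primrec.const none))
  have h2 : SI B fun x : ℕ × Bool => g x.1 = some x.2 :=
    SI.comp_computable (f := fun x : ℕ × Bool => (g x.1, x.2)) h0
      ((hg.comp Computable.fst).pair Computable.snd)
  have h3 : SI B fun x : ℕ × Bool => g x.1 = none :=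
    SI.comp_computable (f := fun x : ℕ × Bool => (g x.1, x.2)) h0'
      ((hg.comp Computable.fst).pair Computable.snd)
  refine (SI.or h2 (SI.and h3 h1)).of_eq fun x => ?_
  rw [h x.1]
  cases hgx : g x.1 with
  | none => simp
  | some b => simp

/-- If `m` is the least true guess, the set is the dump of the columns beyond `2 * m` together
with the coding column, up to finitely many elements. -/
theorem caseB_col (X : ℕ → Bool) (m : ℕ) (hT : Tr ev X m)
    (hl : ∀ m' < m, ¬ Tr ev X m' ∧ (Vm F X m').Finite)
    (hmono : ∀ y s s', s ≤ s' → F m y (pre X s) → F m y (pre X s')) :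
    ∃ b, ∀ z ≥ b, (∃ s, z ∈ As ev F X s) ↔
      (2 * m < z.unpair.1 ∨ (z.unpair.1 = 2 * m ∧ z.unpair.2 ∈ Vm F X m)) := by
  obtain ⟨s0, b0, h0⟩ := ev_bdd (N := 2 * m) fun m' hm' => hl m' (by omega)
  have a1 : ∀ᶠ s in atTop, ∀ m' ∈ {m' : ℕ | m' < m}, ¬ ev m' (pre X s) :=
    (eventually_all_finite (Set.finite_lt_nat _)).2 fun m' hm' => ev_not_of_not_Tr (hl m' hm').1
  have a3 : ∀ᶠ s in atTop, ∀ p ∈ {p : ℕ | p < 2 * m}, ¬ Act ev F X p s :=
    (eventually_all_finite (Set.finite_lt_nat _)).2 fun p _ => ev_not_Act p
  have a2 : ∀ᶠ b in atTop, ∀ m' ∈ {m' : ℕ | m' < m},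
      ∀ z ∈ (fun y => Nat.pair (2 * m') y) '' (Vm F X m'), z < b := by
    refine (eventually_all_finite (Set.finite_lt_nat _)).2 fun m' hm' => ?_
    refine (eventually_all_finite ((hl m' hm').2.image _)).2 fun z _ => eventually_gt_atTop z
  obtain ⟨c, hc⟩ := eventually_atTop.1 (a1.and (a3.and a2))
  refine ⟨max b0 c, fun z hz => ⟨?_, ?_⟩⟩
  · rintro ⟨s, hs⟩
    by_contra hcon
    push Not at hcon
    have h1 : ∀ s, z ∉ As ev F X s := by
      intro s
      induction s with
      | zero => simp [As]
      | succ s ih =>
        intro h2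
        rcases mem_As_succ.1 h2 with h3 | ⟨hzs, hg⟩
        · exact ih h3
        obtain ⟨c1, c2, -⟩ := hc s (by omega)
        rcases hg with ⟨g1, g2, g3⟩ | ⟨m', hm, hm2, g2, g3⟩ | ⟨g1, g2, g3, g4⟩
        · have h5 := (hc (max b0 c) (le_max_right _ _)).2.2
          by_cases h6 : z.unpair.1 = 2 * m
          · have h7 : z.unpair.1 / 2 = m := by omega
            rw [h7] at g2
            exact hcon.2 h6 ⟨s, g2⟩
          · have h8 := h5 (z.unpair.1 / 2) (by simp only [Set.mem_ofPred_eq]; omega) z
              ⟨z.unpair.2, ⟨s, g2⟩, by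
                have : 2 * (z.unpair.1 / 2) = z.unpair.1 := by omega
                simp only [this]
                exact Nat.pair_unpair z⟩
            omega
        · exact c1 m' (by simp only [Set.mem_ofPred_eq]; omega) g2
        · exact c2 z.unpair.1 (by simp only [Set.mem_ofPred_eq]; omega)
            ⟨z, hzs, rfl, g1, g2, g3, g4⟩
    exact h1 s hs
  · rintro (h1 | ⟨h1, s1, h2⟩)
    · obtain ⟨s, hs, h3⟩ := hT (max s0 (z + 1))
      exact ⟨s + 1, mem_As_succ.2 (Or.inr ⟨by omega, Or.inr (Or.inl ⟨m, by omega, h1, h3,
        fun n hn => h0 s (by omega) z (by omega) n hn⟩)⟩)⟩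
    · refine ⟨max (max s0 (z + 1)) s1 + 1, mem_As_succ.2 (Or.inr ⟨by omega, Or.inl ⟨by omega, ?_,
        fun n hn => h0 _ (by omega) z (by omega) n (by omega)⟩⟩)⟩
      have h7 : z.unpair.1 / 2 = m := by omega
      rw [h7]
      exact hmono _ _ _ (by omega) h2

theorem caseB (X : ℕ → Bool) (m : ℕ) (hT : Tr ev X m)
    (hl : ∀ m' < m, ¬ Tr ev X m' ∧ (Vm F X m').Finite)
    (hmono : ∀ y s s', s ≤ s' → F m y (pre X s) → F m y (pre X s')) :
    TLe (WZ ev F X) (join X (chr (Vm F X m))) ∧ TLe (join X (chr (Vm F X m))) (WZ ev F X) := by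
  obtain ⟨b, hb⟩ := caseB_col X m hT hl hmono
  have hmod : Primrec fun k : ℕ => k % 2 := Primrec.nat_mod.comp Primrec.id (Primrec.const 2)
  have hdiv : Primrec fun k : ℕ => k / 2 := Primrec.nat_div.comp Primrec.id (Primrec.const 2)
  constructor
  · have hu1 : Primrec fun k : ℕ => (k / 2).unpair.1 := Primrec.fst.comp (Primrec.unpair.comp hdiv)
    have hu2 : Primrec fun k : ℕ => (k / 2).unpair.2 := Primrec.snd.comp (Primrec.unpair.comp hdiv)
    have hg : Primrec fun k : ℕ => if k % 2 = 0 then (none : Option Bool) else
        if k / 2 < b then some (((List.range b).map fun z => WZ ev F X (2 * z + 1)).getD (k / 2)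
          false) else
        if 2 * m < (k / 2).unpair.1 then some true else
        if (k / 2).unpair.1 = 2 * m then none else some false := by
      refine Primrec.ite (Primrec.eq.comp hmod (Primrec.const 0)) (Primrec.const none) ?_
      refine Primrec.ite (Primrec.nat_lt.comp hdiv (Primrec.const b))
        (Primrec.option_some.comp ((Primrec.list_getD false).comp (Primrec.const _) hdiv)) ?_
      refine Primrec.ite (Primrec.nat_lt.comp (Primrec.const _) hu1) (Primrec.const _) ?_
      exact Primrec.ite (Primrec.eq.comp hu1 (Primrec.const _)) (Primrec.const _)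
        (Primrec.const _)
    have hf : Primrec fun k : ℕ => if k % 2 = 0 then k else 2 * (k / 2).unpair.2 + 1 :=
      Primrec.ite (Primrec.eq.comp hmod (Primrec.const 0)) Primrec.id
        (Primrec.succ.comp (Primrec.nat_mul.comp (Primrec.const 2) hu2))
    refine tLe_of_opt hg.to_comp hf.to_comp fun k => ?_
    by_cases h1 : k % 2 = 0
    · simp only [h1, if_true, Option.getD_none]
      have h2 : k = 2 * (k / 2) := by omega
      have h3 : WZ ev F X k = X (k / 2) := by
        conv_lhs => rw [h2]
        exact WZ_even X _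
      rw [h3]
      simp [join, h1]
    · simp only [h1, if_false]
      have h2 : k = 2 * (k / 2) + 1 := by omega
      have h3 : WZ ev F X k = WZ ev F X (2 * (k / 2) + 1) := by
        conv_lhs => rw [h2]
      rw [h3]
      by_cases h4 : k / 2 < b
      · simp only [h4, if_true, Option.getD_some]
        simp [h4]
      · simp only [h4, if_false]
        have h5 := hb (k / 2) (by omega)
        rw [← WZ_odd] at h5
        by_cases h6 : 2 * m < (k / 2).unpair.1
        · simp only [h6, if_true, Option.getD_some]
          exact h5.2 (Or.inl h6)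
        · simp only [h6, if_false]
          by_cases h7 : (k / 2).unpair.1 = 2 * m
          · simp only [h7, if_true, Option.getD_none]
            have h8 : (2 * (k / 2).unpair.2 + 1) % 2 ≠ 0 := by omega
            have h9 : (2 * (k / 2).unpair.2 + 1) / 2 = (k / 2).unpair.2 := by omega
            simp only [join, h8, if_false, h9]
            rw [Bool.eq_iff_iff, h5]
            simp [chr, h7]
          · simp only [h7, if_false, Option.getD_some]
            have h8 : ¬ WZ ev F X (2 * (k / 2) + 1) = true := by
              rw [h5]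
              rintro (h | h)
              · exact h6 h
              · exact h7 h.1
            simpa using h8
  · have hp : Primrec fun k : ℕ => Nat.pair (2 * m) (k / 2) :=
      Primrec₂.natPair.comp (Primrec.const _) hdiv
    have hg : Primrec fun k : ℕ => if k % 2 = 0 then (none : Option Bool) else
        if Nat.pair (2 * m) (k / 2) < b then
          some (((List.range b).map fun y => chr (Vm F X m) y).getD (k / 2) false) else none := by
      refine Primrec.ite (Primrec.eq.comp hmod (Primrec.const 0)) (Primrec.const none) ?_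
      exact Primrec.ite (Primrec.nat_lt.comp hp (Primrec.const b))
        (Primrec.option_some.comp ((Primrec.list_getD false).comp (Primrec.const _) hdiv))
        (Primrec.const none)
    have hf : Primrec fun k : ℕ => if k % 2 = 0 then k else 2 * (Nat.pair (2 * m) (k / 2)) + 1 :=
      Primrec.ite (Primrec.eq.comp hmod (Primrec.const 0)) Primrec.id
        (Primrec.succ.comp (Primrec.nat_mul.comp (Primrec.const 2) hp))
    refine tLe_of_opt hg.to_comp hf.to_comp fun k => ?_
    by_cases h1 : k % 2 = 0
    · simp only [h1, if_true, Option.getD_none]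
      have h2 : k = 2 * (k / 2) := by omega
      have h3 : WZ ev F X k = X (k / 2) := by
        conv_lhs => rw [h2]
        exact WZ_even X _
      rw [h3]
      simp [join, h1]
    · simp only [h1, if_false]
      have h3 : join X (chr (Vm F X m)) k = chr (Vm F X m) (k / 2) := by
        simp [join, h1]
      rw [h3]
      by_cases h4 : Nat.pair (2 * m) (k / 2) < b
      · have h5 : k / 2 < b := lt_of_le_of_lt (Nat.right_le_pair _ _) h4
        simp only [h4, if_true, Option.getD_some]
        simp [h5]
      · simp only [h4, if_false, Option.getD_none]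
        have h5 := hb (Nat.pair (2 * m) (k / 2)) (by omega)
        rw [← WZ_odd] at h5
        rw [Bool.eq_iff_iff, h5]
        simp [chr]

end Pool.Agent.Helper88.GL
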