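import Pool.Agent.Helper88.GL.Main

set_option autoImplicit false

/-!
A `Σ⁰₃` relation whose field meets nonmeager many Turing degrees meets every Turing degree.
-/

namespace Pool.Agent.Helper88.GL

open Encodable Pool.Agent.Helper227 Pool.Agent.H548R2.Post
open Nat.Partrec (Code)

theorem exists_cyl {O : Set (ℕ → Bool)} (hO : IsOpen O) {Y : ℕ → Bool} (hY : Y ∈ O) :
    ∃ n, ∀ Z : ℕ → Bool, pre Z n = pre Y n → Z ∈ O := by
  obtain ⟨I, u, hu, hs⟩ := isOpen_pi_iff.1 hO Y hY
  refine ⟨I.sup id + 1, fun Z hZ => hs ?_⟩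
  intro i hi
  have h1 : i < I.sup id + 1 := Nat.lt_succ_of_le (Finset.le_sup (f := id) hi)
  have h2 : Z i = Y i := by
    have h3 : (pre Z (I.sup id + 1)).getD i false = (pre Y (I.sup id + 1)).getD i false := by
      rw [hZ]
    rwa [pre_getD Z _ i false h1, pre_getD Y _ i false h1] at h3
  rw [h2]
  exact (hu i hi).2

theorem isOpen_cyl (n : ℕ) (σ : List Bool) : IsOpen {Z : ℕ → Bool | pre Z n = σ} := by
  have h1 : {Z : ℕ → Bool | pre Z n = σ} = (fun Z : ℕ → Bool => pre Z n) ⁻¹' {σ} := rfl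
  have h2 : Continuous fun (Z : ℕ → Bool) (i : Fin n) => Z i :=
    continuous_pi fun i => continuous_apply _
  have h3 : (fun Z : ℕ → Bool => pre Z n) = (fun f : Fin n → Bool => List.ofFn f) ∘
      fun (Z : ℕ → Bool) (i : Fin n) => Z i := by
    funext Z
    refine List.ext_getElem (by simp) fun i h4 h5 => ?_
    rw [getElem_pre]
    simp
  rw [h1, h3, Set.preimage_comp]
  exact (isOpen_discrete _).preimage h2

/-- In a nonmeager set one can extend strings inside the set. -/
theorem exists_dense {G : Set (ℕ → Bool)} (hG : ¬ IsMeagre G) : ∃ σ : List Bool,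
    ∀ τ, σ <+: τ → ∃ Y ∈ G, pre Y τ.length = τ := by
  have h1 : ¬ IsNowhereDense G := fun h => hG h.isMeagre
  obtain ⟨Y, hY⟩ := Set.nonempty_iff_ne_empty.2 h1
  obtain ⟨n, hn⟩ := exists_cyl isOpen_interior hY
  refine ⟨pre Y n, fun τ hτ => ?_⟩
  -- a point of the cylinder of `τ`
  set Z : ℕ → Bool := fun i => τ.getD i false with hZ
  have hZτ : pre Z τ.length = τ := t42_eq_pre fun i _ => rfl
  have hlen : n ≤ τ.length := by simpa using hτ.length_le
  have h2 : pre Z n = pre Y n := by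
    have h3 : τ.take n = pre Y n := by
      obtain ⟨ρ, rfl⟩ := hτ
      rw [List.take_append_of_le_length (by simp)]
      rw [take_pre Y n n le_rfl]
    rw [← h3]
    conv_rhs => rw [← hZτ]
    rw [take_pre Z _ _ hlen]
  have h3 : Z ∈ closure G := interior_subset (hn Z h2)
  obtain ⟨W, hW1, hW2⟩ := mem_closure_iff.1 h3 _ (isOpen_cyl τ.length τ) hZτ
  exact ⟨W, hW2, hW1⟩

section
variable {Q : List Bool × ℕ → Prop}

/-- `ρ` is the first extension of `τ` at which the `c`-th condition is witnessed -/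
def Gr (Q : List Bool × ℕ → Prop) (c : ℕ) (τ ρ : List Bool) : Prop :=
  (τ <+: ρ ∧ Q (ρ, c)) ∧ ∀ m < encode ρ, ∀ ρ' ∈ (decode (α := List Bool) m).toList,
    ¬ (encode ρ' = m ∧ τ <+: ρ' ∧ Q (ρ', c))

theorem Gr.unique {c : ℕ} {τ ρ ρ' : List Bool} (h : Gr Q c τ ρ) (h' : Gr Q c τ ρ') : ρ = ρ' := by
  rcases lt_trichotomy (encode ρ) (encode ρ') with h1 | h1 | h1
  · exact absurd ⟨rfl, h.1⟩ (h'.2 _ h1 ρ (by simp))
  · exact encode_injective h1
  · exact absurd ⟨rfl, h'.1⟩ (h.2 _ h1 ρ' (by simp))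

theorem Gr.exists {c : ℕ} {τ : List Bool} (h : ∃ ρ, τ <+: ρ ∧ Q (ρ, c)) : ∃ ρ, Gr Q c τ ρ := by
  classical
  have h1 : ∃ m, ∃ ρ : List Bool, encode ρ = m ∧ τ <+: ρ ∧ Q (ρ, c) := by
    obtain ⟨ρ, hρ⟩ := h
    exact ⟨encode ρ, ρ, rfl, hρ⟩
  obtain ⟨ρ, h2, h3⟩ := Nat.find_spec h1
  refine ⟨ρ, h3, fun m hm ρ' _ hcon => ?_⟩
  rw [h2] at hm
  exact Nat.find_min h1 hm ⟨ρ', hcon⟩

theorem pp_Gr (hQ : PrimrecPred Q) :
    PrimrecPred fun x : ℕ × List Bool × List Bool => Gr Q x.1 x.2.1 x.2.2 := by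
  have hpre : PrimrecPred fun x : ℕ × List Bool × List Bool => x.2.1 <+: x.2.2 := by
    refine (Primrec.eq.comp (f := fun x : ℕ × List Bool × List Bool =>
      x.2.2.take x.2.1.length) (g := fun x : ℕ × List Bool × List Bool => x.2.1)
      (Primrec.list_take.comp (Primrec.list_length.comp (Primrec.fst.comp Primrec.snd))
        (Primrec.snd.comp Primrec.snd)) (Primrec.fst.comp Primrec.snd)).of_eq fun x => ?_
    rw [List.prefix_iff_eq_take]
    exact eq_comm
  have hq : PrimrecPred fun x : ℕ × List Bool × List Bool => Q (x.2.2, x.1) :=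
    hQ.comp (f := fun x : ℕ × List Bool × List Bool => (x.2.2, x.1))
      (Primrec.pair (Primrec.snd.comp Primrec.snd) Primrec.fst)
  unfold Gr
  refine PrimrecPred.and (PrimrecPred.and hpre hq) ?_
  refine PP.all_lt (f := fun x : ℕ × List Bool × List Bool => encode x.2.2)
    (p := fun (x : ℕ × List Bool × List Bool) (m : ℕ) =>
      ∀ ρ' ∈ (decode (α := List Bool) m).toList,
        ¬ (encode ρ' = m ∧ x.2.1 <+: ρ' ∧ Q (ρ', x.1))) ?_
    (Primrec.encode.comp (Primrec.snd.comp Primrec.snd))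
  refine PP.all_mem (f := fun y : (ℕ × List Bool × List Bool) × ℕ =>
      (decode (α := List Bool) y.2).toList)
    (p := fun (y : (ℕ × List Bool × List Bool) × ℕ) (ρ' : List Bool) =>
      ¬ (encode ρ' = y.2 ∧ y.1.2.1 <+: ρ' ∧ Q (ρ', y.1.1))) ?_ (Primrec.optionToList.comp
        (Primrec.decode.comp Primrec.snd))
  refine PrimrecPred.not (PrimrecPred.and (Primrec.eq.comp (Primrec.encode.comp Primrec.snd)
    (Primrec.snd.comp Primrec.fst)) ?_)
  exact (PrimrecPred.and hpre hq).comp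
    (f := fun y : ((ℕ × List Bool × List Bool) × ℕ) × List Bool => (y.1.1.1, y.1.1.2.1, y.2))
    (Primrec.pair (Primrec.fst.comp (Primrec.fst.comp Primrec.fst)) (Primrec.pair
      (Primrec.fst.comp (Primrec.snd.comp (Primrec.fst.comp Primrec.fst))) Primrec.snd))

/-- one step of the construction, with the coded bit `b` -/
def St (Q : List Bool × ℕ → Prop) (c : ℕ) (τ τ' : List Bool) (b : Bool) : Prop :=
  Gr Q c τ (τ'.take (τ'.length - 1)) ∧ τ' = τ'.take (τ'.length - 1) ++ [b]

theorem St_iff {c : ℕ} {τ τ' : List Bool} {b : Bool} :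
    St Q c τ τ' b ↔ ∃ ρ, Gr Q c τ ρ ∧ τ' = ρ ++ [b] := by
  constructor
  · rintro ⟨h1, h2⟩
    exact ⟨_, h1, h2⟩
  · rintro ⟨ρ, h1, rfl⟩
    have h2 : (ρ ++ [b]).take ((ρ ++ [b]).length - 1) = ρ := by simp
    exact ⟨by rwa [h2], by rw [h2]⟩

theorem pp_St (hQ : PrimrecPred Q) : PrimrecPred fun x : (ℕ × List Bool) × List Bool × Bool =>
    St Q x.1.1 x.1.2 x.2.1 x.2.2 := by
  have k1 : Primrec fun x : (ℕ × List Bool) × List Bool × Bool => x.2.1 :=
    Primrec.fst.comp Primrec.snd
  have k2 : Primrec fun x : (ℕ × List Bool) × List Bool × Bool =>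
      x.2.1.take (x.2.1.length - 1) :=
    Primrec.list_take.comp (Primrec.nat_sub.comp (Primrec.list_length.comp k1)
      (Primrec.const 1)) k1
  unfold St
  refine PrimrecPred.and ?_ ?_
  · exact (pp_Gr hQ).comp (f := fun x : (ℕ × List Bool) × List Bool × Bool =>
      (x.1.1, x.1.2, x.2.1.take (x.2.1.length - 1)))
      (Primrec.pair (Primrec.fst.comp Primrec.fst) (Primrec.pair
        (Primrec.snd.comp Primrec.fst) k2))
  · exact Primrec.eq.comp k1 (Primrec.list_append.comp k2
      (Primrec.list_cons.comp (Primrec.snd.comp Primrec.snd) (Primrec.const [])))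

/-- Coding an arbitrary set into a member of a dense effective intersection of open sets. -/
theorem code_into (hQ : PrimrecPred Q) (mQ : ∀ τ ρ c, τ <+: ρ → Q (τ, c) → Q (ρ, c))
    {σ : List Bool} (hσ : ∀ τ, σ <+: τ → ∀ c, ∃ ρ, τ <+: ρ ∧ Q (ρ, c)) (Z : ℕ → Bool) :
    ∃ Y : ℕ → Bool, TEq Y Z ∧ ∀ c, ∃ s, Q (pre Y s, c) := by
  classical
  have hex : ∀ τ, σ <+: τ → ∀ c, ∃ ρ, Gr Q c τ ρ := fun τ hτ c => Gr.exists (hσ τ hτ c)
  -- the sequence of strings
  let nx : ℕ → List Bool → List Bool := fun c τ =>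
    if h : ∃ ρ, Gr Q c τ ρ then Classical.choose h else τ
  let T : ℕ → List Bool := fun n => Nat.rec σ (fun c τ => nx c τ ++ [Z c]) n
  have T0 : T 0 = σ := rfl
  have TS : ∀ c, T (c + 1) = nx c (T c) ++ [Z c] := fun c => rfl
  have hT : ∀ c, σ <+: T c ∧ Gr Q c (T c) (nx c (T c)) := by
    have hnx : ∀ c τ, σ <+: τ → Gr Q c τ (nx c τ) := by
      intro c τ hτ
      have h := hex τ hτ c
      simp only [nx, dif_pos h]
      exact Classical.choose_spec h
    intro c
    have h1 : σ <+: T c := by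
      induction c with
      | zero => exact List.prefix_refl _
      | succ c ih =>
        rw [TS]
        exact ih.trans ((hnx c _ ih).1.1.trans (List.prefix_append _ _))
    exact ⟨h1, hnx c _ h1⟩
  have hstep : ∀ c, T c <+: T (c + 1) := fun c => by
    rw [TS]
    exact (hT c).2.1.1.trans (List.prefix_append _ _)
  have hmono : ∀ c d, c ≤ d → T c <+: T d := by
    intro c d h
    induction d, h using Nat.le_induction with
    | base => exact List.prefix_refl _
    | succ d _ ih => exact ih.trans (hstep d)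
  have hlen : ∀ c, c ≤ (T c).length := by
    intro c
    induction c with
    | zero => exact Nat.zero_le _
    | succ c ih =>
      rw [TS, List.length_append, List.length_singleton]
      have := (hT c).2.1.1.length_le
      omega
  -- the limit
  let Y : ℕ → Bool := fun n => (T (n + 1)).getD n false
  have hgd : ∀ {l l' : List Bool} {i : ℕ}, l <+: l' → i < l.length →
      l.getD i false = l'.getD i false := by
    rintro l l' i ⟨r, rfl⟩ hi
    simp only [List.getD, List.getElem?_append_left hi]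
  have hYT : ∀ c i, i < (T c).length → Y i = (T c).getD i false := by
    intro c i hi
    show (T (i + 1)).getD i false = _
    rcases le_total c (i + 1) with h | h
    · exact (hgd (hmono _ _ h) hi).symm
    · exact hgd (hmono _ _ h) (by have := hlen (i + 1); omega)
  have hpre : ∀ c, pre Y (T c).length = T c := fun c => t42_eq_pre (hYT c)
  have hYZ : ∀ c, Y (nx c (T c)).length = Z c := by
    intro c
    rw [hYT (c + 1) _ (by rw [TS]; simp), TS]
    simp
  have hStT : ∀ c, St Q c (T c) (T (c + 1)) (Z c) := fun c =>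
    St_iff.2 ⟨_, (hT c).2, TS c⟩
  -- the sequence as a list
  have hL : ∀ n, ∃ L : List (List Bool), ∀ c < n + 2, L.getD c [] = T c := fun n =>
    ⟨(List.range (n + 2)).map T, fun c hc => by simp [hc]⟩
  have hpSt : ∀ {B : ℕ → Bool}, SI B fun y : (((ℕ × Bool) × List (List Bool)) × ℕ) × Bool =>
      St Q y.1.2 (y.1.1.2.getD y.1.2 []) (y.1.1.2.getD (y.1.2 + 1) []) y.2 := by
    intro B
    refine SI.of_prim ((pp_St hQ).comp (f := fun y : (((ℕ × Bool) × List (List Bool)) × ℕ) ×
      Bool => ((y.1.2, y.1.1.2.getD y.1.2 []), (y.1.1.2.getD (y.1.2 + 1) [], y.2))) ?_)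
    have k1 : Primrec fun y : (((ℕ × Bool) × List (List Bool)) × ℕ) × Bool => y.1.1.2 :=
      Primrec.snd.comp (Primrec.fst.comp Primrec.fst)
    have k2 : Primrec fun y : (((ℕ × Bool) × List (List Bool)) × ℕ) × Bool => y.1.2 :=
      Primrec.snd.comp Primrec.fst
    exact Primrec.pair (Primrec.pair k2 ((Primrec.list_getD []).comp k1 k2))
      (Primrec.pair ((Primrec.list_getD []).comp k1 (Primrec.succ.comp k2)) Primrec.snd)
  have h0 : ∀ {B : ℕ → Bool}, SI B fun y : (ℕ × Bool) × List (List Bool) =>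
      y.2.getD 0 [] = σ := fun {B} => SI.of_prim (Primrec.eq.comp
        ((Primrec.list_getD []).comp Primrec.snd (Primrec.const 0)) (Primrec.const σ))
  refine ⟨Y, ⟨?_, ?_⟩, fun c => ?_⟩
  · rw [tLe_iff_SI]
    have h1 : SI Z fun x : ℕ × Bool => ∃ L : List (List Bool), L.getD 0 [] = σ ∧
        ((∀ c < x.1 + 1, ∃ b', Z c = b' ∧ St Q c (L.getD c []) (L.getD (c + 1) []) b') ∧
          (L.getD (x.1 + 1) []).getD x.1 false = x.2) := by
      refine SI.ex (p := fun (x : ℕ × Bool) (L : List (List Bool)) => L.getD 0 [] = σ ∧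
        ((∀ c < x.1 + 1, ∃ b', Z c = b' ∧ St Q c (L.getD c []) (L.getD (c + 1) []) b') ∧
          (L.getD (x.1 + 1) []).getD x.1 false = x.2)) (SI.and h0 (SI.and ?_ (SI.of_prim ?_)))
      · refine SI.all_lt (p := fun (y : (ℕ × Bool) × List (List Bool)) (c : ℕ) =>
          ∃ b', Z c = b' ∧ St Q c (y.2.getD c []) (y.2.getD (c + 1) []) b')
          (f := fun y : (ℕ × Bool) × List (List Bool) => y.1.1 + 1) ?_
          (Primrec.succ.comp (Primrec.fst.comp Primrec.fst))
        refine SI.ex (p := fun (y : ((ℕ × Bool) × List (List Bool)) × ℕ) (b' : Bool) =>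
          Z y.2 = b' ∧ St Q y.2 (y.1.2.getD y.2 []) (y.1.2.getD (y.2 + 1) []) b')
          (SI.and ?_ hpSt)
        exact SI.query.comp (f := fun y : (((ℕ × Bool) × List (List Bool)) × ℕ) × Bool =>
          (y.1.2, y.2)) (Primrec.pair (Primrec.snd.comp Primrec.fst) Primrec.snd)
      · have k1 : Primrec fun y : (ℕ × Bool) × List (List Bool) => y.1.1 :=
          Primrec.fst.comp Primrec.fst
        exact Primrec.eq.comp ((Primrec.list_getD false).comp ((Primrec.list_getD []).comp
          Primrec.snd (Primrec.succ.comp k1)) k1) (Primrec.snd.comp Primrec.fst)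
    refine h1.of_eq fun x => ?_
    constructor
    · rintro ⟨L, h2, h3, h4⟩
      have h5 : ∀ c ≤ x.1 + 1, L.getD c [] = T c := by
        intro c hc
        induction c with
        | zero => exact h2
        | succ c ih =>
          obtain ⟨b', hb', h6⟩ := h3 c (by omega)
          rw [ih (by omega), St_iff] at h6
          obtain ⟨ρ, h7, h8⟩ := h6
          rw [h8, TS, ← hb', h7.unique (hT c).2]
      rw [h5 _ le_rfl] at h4
      exact h4
    · intro h2
      obtain ⟨L, hL'⟩ := hL x.1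
      refine ⟨L, hL' 0 (by omega), fun c hc => ⟨Z c, rfl, ?_⟩, ?_⟩
      · rw [hL' c (by omega), hL' (c + 1) (by omega)]
        exact hStT c
      · rw [hL' _ (by omega)]
        exact h2
  · rw [tLe_iff_SI]
    have h1 : SI Y fun x : ℕ × Bool => ∃ L : List (List Bool), L.getD 0 [] = σ ∧
        ((∀ c < x.1 + 1, ∃ b', Y ((L.getD (c + 1) []).length - 1) = b' ∧
            St Q c (L.getD c []) (L.getD (c + 1) []) b') ∧
          Y ((L.getD (x.1 + 1) []).length - 1) = x.2) := by
      refine SI.ex (p := fun (x : ℕ × Bool) (L : List (List Bool)) => L.getD 0 [] = σ ∧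
        ((∀ c < x.1 + 1, ∃ b', Y ((L.getD (c + 1) []).length - 1) = b' ∧
            St Q c (L.getD c []) (L.getD (c + 1) []) b') ∧
          Y ((L.getD (x.1 + 1) []).length - 1) = x.2)) (SI.and h0 (SI.and ?_ ?_))
      · refine SI.all_lt (p := fun (y : (ℕ × Bool) × List (List Bool)) (c : ℕ) =>
          ∃ b', Y ((y.2.getD (c + 1) []).length - 1) = b' ∧
            St Q c (y.2.getD c []) (y.2.getD (c + 1) []) b')
          (f := fun y : (ℕ × Bool) × List (List Bool) => y.1.1 + 1) ?_
          (Primrec.succ.comp (Primrec.fst.comp Primrec.fst))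
        refine SI.ex (p := fun (y : ((ℕ × Bool) × List (List Bool)) × ℕ) (b' : Bool) =>
          Y ((y.1.2.getD (y.2 + 1) []).length - 1) = b' ∧
            St Q y.2 (y.1.2.getD y.2 []) (y.1.2.getD (y.2 + 1) []) b') (SI.and ?_ hpSt)
        exact SI.query.comp (f := fun y : (((ℕ × Bool) × List (List Bool)) × ℕ) × Bool =>
          ((y.1.1.2.getD (y.1.2 + 1) []).length - 1, y.2)) (Primrec.pair
            (Primrec.nat_sub.comp (Primrec.list_length.comp ((Primrec.list_getD []).comp
              (Primrec.snd.comp (Primrec.fst.comp Primrec.fst))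
              (Primrec.succ.comp (Primrec.snd.comp Primrec.fst)))) (Primrec.const 1))
            Primrec.snd)
      · exact SI.query.comp (f := fun y : (ℕ × Bool) × List (List Bool) =>
          ((y.2.getD (y.1.1 + 1) []).length - 1, y.1.2)) (Primrec.pair
            (Primrec.nat_sub.comp (Primrec.list_length.comp ((Primrec.list_getD []).comp
              Primrec.snd (Primrec.succ.comp (Primrec.fst.comp Primrec.fst))))
              (Primrec.const 1)) (Primrec.snd.comp Primrec.fst))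
    have hY' : ∀ c, Y ((T (c + 1)).length - 1) = Z c := by
      intro c
      rw [TS, List.length_append, List.length_singleton, Nat.add_sub_cancel]
      exact hYZ c
    refine h1.of_eq fun x => ?_
    constructor
    · rintro ⟨L, h2, h3, h4⟩
      have h5 : ∀ c ≤ x.1 + 1, L.getD c [] = T c := by
        intro c hc
        induction c with
        | zero => exact h2
        | succ c ih =>
          obtain ⟨b', hb', h6⟩ := h3 c (by omega)
          rw [ih (by omega), St_iff] at h6
          obtain ⟨ρ, h7, h8⟩ := h6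
          have h9 := h7.unique (hT c).2
          rw [h8, List.length_append, List.length_singleton, Nat.add_sub_cancel, h9, hYZ] at hb'
          rw [h8, TS, ← hb', h9]
      rw [h5 _ le_rfl, hY'] at h4
      exact h4
    · intro h2
      obtain ⟨L, hL'⟩ := hL x.1
      refine ⟨L, hL' 0 (by omega), fun c hc => ⟨Z c, ?_, ?_⟩, ?_⟩
      · rw [hL' (c + 1) (by omega)]
        exact hY' c
      · rw [hL' c (by omega), hL' (c + 1) (by omega)]
        exact hStT c
      · rw [hL' _ (by omega), hY']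
        exact h2
  · refine ⟨(T (c + 1)).length, ?_⟩
    have h1 : Q (T (c + 1), c) := by
      rw [TS]
      exact mQ _ _ _ (List.prefix_append _ _) (hT c).2.1.2
    have h2 := hpre (c + 1)
    exact (congrArg (fun l => Q (l, c)) h2).mpr h1

end

/-- A `Σ⁰₃` relation whose field meets nonmeager many Turing degrees meets them all. -/
theorem meets_all {P : (ℕ → Bool) → ℕ → Prop} (hP : Sg3 P)
    (hN : ¬ IsMeagre {Y : ℕ → Bool | ∃ X v, P X v ∧ TEq X Y}) (Z : ℕ → Bool) :
    ∃ X v, P X v ∧ TEq X Z := by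
  obtain ⟨E, hE, hPE⟩ := hP
  obtain ⟨R, hR, eR⟩ := pi2_TT hE
  obtain ⟨Q, hQ, mQ, eQ⟩ := hR.normal
  have h1 : ∃ x, ¬ IsMeagre {Y : ℕ → Bool | TT E Y x} := by
    by_contra hcon
    push Not at hcon
    refine hN (IsMeagre.mono ?_ (isMeagre_iUnion hcon))
    rintro Y ⟨X, v, hXv, hXY⟩
    obtain ⟨k, hk⟩ := (hPE X v).1 hXv
    obtain ⟨i, j, hT⟩ := TT_complete hXY.1 hXY.2 hk
    exact Set.mem_iUnion.2 ⟨(i, j, k, v), hT⟩
  obtain ⟨⟨i, j, k, v⟩, hx⟩ := h1
  obtain ⟨σ, hσ⟩ := exists_dense hx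
  have hQ' : PrimrecPred fun y : List Bool × ℕ => Q (y.1, ((i, j, k, v), y.2)) :=
    hQ.comp (f := fun y : List Bool × ℕ => (y.1, ((i, j, k, v), y.2)))
      (Primrec.pair Primrec.fst (Primrec.pair (Primrec.const _) Primrec.snd))
  have mQ' : ∀ (τ ρ : List Bool) (a : (ℕ × ℕ × ℕ × ℕ) × ℕ), τ <+: ρ → Q (τ, a) → Q (ρ, a) := by
    intro τ ρ a hτ h
    have h2 : pre (ext ρ) ρ.length = ρ := t42_eq_pre fun i _ => rfl
    have h3 : pre (ext ρ) τ.length = τ := by
      have h4 : ρ.take τ.length = τ := ((List.prefix_iff_eq_take).1 hτ).symm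
      rw [← take_pre (ext ρ) ρ.length τ.length hτ.length_le, h2, h4]
    have h4 := mQ (ext ρ) a τ.length ρ.length hτ.length_le
    rw [h2, h3] at h4
    exact h4 h
  obtain ⟨Y, hYZ, hY⟩ := code_into hQ' (fun τ ρ c hτ h => mQ' τ ρ _ hτ h) (σ := σ)
    (fun τ hτ c => by
      obtain ⟨Y, hY1, hY2⟩ := hσ τ hτ
      obtain ⟨s, hs⟩ := (eQ Y ((i, j, k, v), c)).1 ((eR Y (i, j, k, v)).1 hY1 c)
      refine ⟨pre Y (max s τ.length), ?_, ?_⟩
      · conv_lhs => rw [← hY2]
        exact pre_prefix Y (le_max_right _ _)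
      · exact mQ' _ _ _ (pre_prefix Y (le_max_left _ _)) hs) Z
  have hT : TT E Y (i, j, k, v) := (eR Y (i, j, k, v)).2 fun c =>
    (eQ Y ((i, j, k, v), c)).2 (hY c)
  obtain ⟨X, hX1, hX2, hX3, -⟩ := TT_sound hT
  exact ⟨X, v, (hPE X v).2 ⟨k, hX3⟩, TEq.tr ⟨hX1, hX2⟩ hYZ⟩

end Pool.Agent.Helper88.GL
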