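import Pool.Agent.Helper88.GL.Sacks

set_option autoImplicit false

namespace Pool.Agent.Helper88.GL

open Encodable Pool.Agent.Helper227 Pool.Agent.H548R2.Post MeasureTheory
open scoped ENNReal
open Nat.Partrec (Code)

variable {α β : Type*} [Primcodable α] [Primcodable β]

/-- the empty set -/
def zr : ℕ → Bool := fun _ => false

theorem s1_of_si_zr {p : α → Prop} (hp : SI zr p) : S1 p := by
  obtain ⟨E, hE, mE, eE⟩ := hp
  have h1 : S1 fun a : α => ∃ s : ℕ, E (pre zr s, a) := by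
    refine S1.ex (p := fun (a : α) (s : ℕ) => E (pre zr s, a)) ?_
    refine S1.comp (f := fun x : α × ℕ => (pre zr x.2, x.1)) hE (Primrec.pair ?_ Primrec.fst)
    unfold pre zr
    exact Primrec.list_map (Primrec.list_range.comp Primrec.snd) (Primrec.const false)
  exact h1.of_eq fun a => (eE a).symm

theorem zr_le (X : ℕ → Bool) : TLe zr X := by
  rw [tLe_iff_SI]
  exact SI.of_prim (Primrec.eq.comp (Primrec.const false) Primrec.snd)

theorem PI2.or_not {p q : (ℕ → Bool) → α → Prop} (hp : UI p) (hq : UI q) :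
    PI2 fun B a => p B a ∨ ¬ q B a := by
  obtain ⟨Q, hQ, mQ, eQ⟩ := hq.normal
  refine ⟨fun B x => p B x.1 ∨ ¬ Q (pre B x.2, x.1), UI.or (hp.comp Primrec.fst)
    (UI.of_dec (p := fun y : List Bool × α => ¬ Q y) hQ.not), fun B a => ?_⟩
  refine (or_congr_right (not_congr (eQ B a))).trans ?_
  push Not
  exact forall_or_left.symm

/-- a `Σ⁰₂` hypothesis and a `Π⁰₁` conclusion -/
theorem PI2.imp_not {g : α → Prop} (hg : SI (jump zr) g) {h : (ℕ → Bool) → α → Prop}
    (hh : UI h) : PI2 fun X a => g a → ¬ h X a := by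
  obtain ⟨E, hE, mE, eE⟩ := hg
  have hw : S1 fun i : ℕ => i ∈ WE zr i := s1_of_si_zr
    ((si_WE zr).comp (f := fun i : ℕ => (i, i)) (Primrec.pair Primrec.id Primrec.id))
  have ha : S1 fun x : α × List Bool =>
      (∀ i < x.2.length, x.2.getD i false = false ∨ i ∈ WE zr i) ∧ E (x.2, x.1) := by
    refine S1.and (S1.all_lt (p := fun (x : α × List Bool) (i : ℕ) =>
      x.2.getD i false = false ∨ i ∈ WE zr i) (f := fun x : α × List Bool => x.2.length)
      (S1.or (S1.of_prim ?_) (hw.comp Primrec.snd)) (Primrec.list_length.comp Primrec.snd)) ?_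
    · exact Primrec.eq.comp ((Primrec.list_getD false).comp (Primrec.snd.comp Primrec.fst)
        Primrec.snd) (Primrec.const false)
    · exact hE.comp (f := fun x : α × List Bool => (x.2, x.1))
        (Primrec.pair Primrec.snd Primrec.fst)
  have hb : S1 fun x : α × List Bool => ∃ i : ℕ, i < x.2.length ∧
      (x.2.getD i false = false ∧ i ∈ WE zr i) := by
    refine S1.ex (p := fun (x : α × List Bool) (i : ℕ) => i < x.2.length ∧
      (x.2.getD i false = false ∧ i ∈ WE zr i)) (S1.and (S1.of_prim ?_)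
      (S1.and (S1.of_prim ?_) (hw.comp Primrec.snd)))
    · exact Primrec.nat_lt.comp Primrec.snd (Primrec.list_length.comp
        (Primrec.snd.comp Primrec.fst))
    · exact Primrec.eq.comp ((Primrec.list_getD false).comp (Primrec.snd.comp Primrec.fst)
        Primrec.snd) (Primrec.const false)
  have h1 : PI2 fun X (a : α) => ∀ σ : List Bool,
      (∃ i : ℕ, i < σ.length ∧ (σ.getD i false = false ∧ i ∈ WE zr i)) ∨
      ¬ (((∀ i < σ.length, σ.getD i false = false ∨ i ∈ WE zr i) ∧ E (σ, a)) ∧ h X a) :=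
    PI2.all (p := fun X (a : α) (σ : List Bool) =>
      (∃ i : ℕ, i < σ.length ∧ (σ.getD i false = false ∧ i ∈ WE zr i)) ∨
      ¬ (((∀ i < σ.length, σ.getD i false = false ∨ i ∈ WE zr i) ∧ E (σ, a)) ∧ h X a))
      (PI2.or_not (UI.of_s1 hb) (UI.and (UI.of_s1 ha) (hh.comp Primrec.fst)))
  refine h1.of_eq fun X a => ?_
  constructor
  · intro h2 h3 h4
    obtain ⟨s, hs⟩ := (eE a).1 h3
    rcases h2 (pre (jump zr) s) with ⟨i, h5, h6, h7⟩ | h5
    · rw [length_pre] at h5
      rw [pre_getD (jump zr) s i false h5] at h6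
      rw [← jump_eq_true, h6] at h7
      exact Bool.noConfusion h7
    · refine h5 ⟨⟨fun i hi => ?_, hs⟩, h4⟩
      rw [length_pre] at hi
      rw [pre_getD (jump zr) s i false hi, ← jump_eq_true]
      cases jump zr i
      · exact Or.inl rfl
      · exact Or.inr rfl
  · intro h2 σ
    by_cases h3 : ∀ i < σ.length, jump zr i = σ.getD i false
    · refine Or.inr fun h4 => h2 ((eE a).2 ⟨σ.length, ?_⟩) h4.2
      rw [t42_eq_pre h3]
      exact h4.1.2
    · push Not at h3
      obtain ⟨i, hi, h4⟩ := h3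
      cases h5 : σ.getD i false
      · refine Or.inl ⟨i, hi, h5, ?_⟩
        rw [h5] at h4
        rw [← jump_eq_true]
        simpa using h4
      · refine Or.inr fun h6 => ?_
        rcases h6.1.1 i hi with h7 | h7
        · rw [h5] at h7
          exact Bool.noConfusion h7
        · rw [← jump_eq_true] at h7
          rw [h5] at h4
          exact h4 h7

theorem UI.reindex {q : (ℕ → Bool) → α → Prop} (hq : UI q) {ρ : ℕ → ℕ} (hρ : Primrec ρ) :
    UI fun Z a => q (fun j => Z (ρ j)) a := by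
  obtain ⟨E, hE, mE, eE⟩ := hq
  have h1 : UI fun Z (a : α) => ∃ τ : List Bool,
      (∀ j < τ.length, Z (ρ j) = τ.getD j false) ∧ E (τ, a) := by
    refine UI.ex (p := fun Z (a : α) (τ : List Bool) =>
      (∀ j < τ.length, Z (ρ j) = τ.getD j false) ∧ E (τ, a)) (UI.and ?_ (UI.of_s1 ?_))
    · refine UI.all_lt (p := fun Z (x : α × List Bool) (j : ℕ) => Z (ρ j) = x.2.getD j false)
        (f := fun x : α × List Bool => x.2.length) ?_ (Primrec.list_length.comp Primrec.snd)
      exact UI.query.comp (f := fun x : (α × List Bool) × ℕ => (ρ x.2, x.1.2.getD x.2 false))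
        (Primrec.pair (hρ.comp Primrec.snd) ((Primrec.list_getD false).comp
          (Primrec.snd.comp Primrec.fst) Primrec.snd))
    · exact hE.comp (f := fun x : α × List Bool => (x.2, x.1))
        (Primrec.pair Primrec.snd Primrec.fst)
  refine h1.of_eq fun Z a => ?_
  rw [eE]
  constructor
  · rintro ⟨τ, h2, h3⟩
    refine ⟨τ.length, ?_⟩
    rw [t42_eq_pre (X := fun j => Z (ρ j)) h2]
    exact h3
  · rintro ⟨s, hs⟩
    exact ⟨_, fun j hj => (pre_getD (fun j => Z (ρ j)) _ _ _ (by simpa using hj)).symm, hs⟩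

/-- reindexing `join X (join C D)` to `join X C` -/
def rho (j : ℕ) : ℕ := if j % 2 = 0 then j else 2 * (2 * (j / 2)) + 1

theorem primrec_rho : Primrec rho := by
  unfold rho
  have hd : Primrec fun j : ℕ => j / 2 := Primrec.nat_div.comp Primrec.id (Primrec.const 2)
  exact Primrec.ite (Primrec.eq.comp (Primrec.nat_mod.comp Primrec.id (Primrec.const 2))
    (Primrec.const 0)) Primrec.id (Primrec.succ.comp (Primrec.nat_mul.comp (Primrec.const 2)
      (Primrec.nat_mul.comp (Primrec.const 2) hd)))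

theorem join_rho (X C D : ℕ → Bool) : (fun j => join X (join C D) (rho j)) = join X C := by
  funext j
  unfold rho
  by_cases hj : j % 2 = 0
  · simp only [hj, if_true]
    simp only [join, hj, if_true]
  · simp only [hj, if_false]
    rw [join_od, join_ev]
    simp only [join, hj, if_false]

/-- membership in the set `Ue` as a predicate of the oracle `join X (join C D)` -/
def qe (Z : ℕ → Bool) (x : ℕ × ℕ) : Prop :=
  ∀ i < x.2, ∃ b : Bool, Z (2 * (2 * i + 1) + 1) = b ∧ fbv x.1 i b (fun j => Z (rho j))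

theorem ui_qe : UI qe := by
  unfold qe
  refine UI.all_lt (p := fun Z (x : ℕ × ℕ) (i : ℕ) => ∃ b : Bool,
    Z (2 * (2 * i + 1) + 1) = b ∧ fbv x.1 i b (fun j => Z (rho j)))
    (f := fun x : ℕ × ℕ => x.2) ?_ Primrec.snd
  refine UI.ex (p := fun Z (x : (ℕ × ℕ) × ℕ) (b : Bool) =>
    Z (2 * (2 * x.2 + 1) + 1) = b ∧ fbv x.1.1 x.2 b (fun j => Z (rho j))) (UI.and ?_ ?_)
  · have hp : Primrec fun i : ℕ => 2 * (2 * i + 1) + 1 :=
      Primrec.succ.comp (Primrec.nat_mul.comp (Primrec.const 2) (Primrec.succ.comp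
        (Primrec.nat_mul.comp (Primrec.const 2) Primrec.id)))
    exact UI.query.comp (f := fun x : ((ℕ × ℕ) × ℕ) × Bool => (2 * (2 * x.1.2 + 1) + 1, x.2))
      (Primrec.pair (hp.comp (Primrec.snd.comp Primrec.fst)) Primrec.snd)
  · exact (ui_fbv.reindex primrec_rho).comp (f := fun x : ((ℕ × ℕ) × ℕ) × Bool =>
      (x.1.1.1, x.1.2, x.2)) (Primrec.pair (Primrec.fst.comp (Primrec.fst.comp Primrec.fst))
        (Primrec.pair (Primrec.snd.comp Primrec.fst) Primrec.snd))

theorem qe_iff (X C D : ℕ → Bool) (e n : ℕ) :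
    qe (join X (join C D)) (e, n) ↔ X ∈ Ue C D e n := by
  unfold qe Ue
  rw [join_rho]
  simp only [join_od, Set.mem_ofPred_eq]
  refine forall_congr' fun i => forall_congr' fun _ => ?_
  constructor
  · rintro ⟨b, rfl, h⟩
    exact h
  · intro h
    exact ⟨_, rfl, h⟩

/-- If `C ⊕ D` is low and `D` is not computable in `C`, the sets `X` with `D ≤ X ⊕ C` are contained
in the complement of a `Σ⁰₃` class of full measure. -/
theorem exists_classes {C D : ℕ → Bool} (hDC : ¬ TLe D C)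
    (hlow : TLe (jump (join C D)) (jump zr)) : ∃ T : (ℕ → Bool) → ℕ → Prop, PI2 T ∧
      (∀ X k, T X k → ¬ TLe D (join X C)) ∧
      ∀ k, lam {X | ¬ T X k} ≤ (1 / 2) ^ k := by
  classical
  set B := join C D with hB
  have hB0 : TLe B (jump zr) := TLe.tr (tLe_jump B) hlow
  -- the measure condition
  have hgt : SI B fun x : (ℕ × ℕ) × ℕ =>
      (1 / 2 : ℝ≥0∞) ^ x.2 < lam {X | qe (join X B) x.1} :=
    si_measure_gt (q := fun Z (x : (ℕ × ℕ) × ℕ) => qe Z x.1) (ui_qe.comp Primrec.fst) B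
      (f := fun x : (ℕ × ℕ) × ℕ => x.2) Primrec.snd
  have hset : ∀ e n, {X | qe (join X B) (e, n)} = Ue C D e n := by
    intro e n
    ext X
    exact qe_iff X C D e n
  obtain ⟨d1, d2⟩ := hgt.decide_jump
  have d1' := d1.trans hlow
  have d2' := d2.trans hlow
  -- the choice of the level
  have hG : SI (jump zr) fun x : ℕ × (ℕ × ℕ) × List Bool =>
      (¬ (1 / 2 : ℝ≥0∞) ^ (x.2.1.1 + x.1 + 1) < lam {X | qe (join X B) x.2.1} ∧
        ∀ n' < x.2.1.2, (1 / 2 : ℝ≥0∞) ^ (x.2.1.1 + x.1 + 1) <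
          lam {X | qe (join X B) (x.2.1.1, n')}) ∧
      ∀ i < x.2.2.length, B i = x.2.2.getD i false := by
    have hj : Primrec fun x : ℕ × (ℕ × ℕ) × List Bool => x.2.1.1 + x.1 + 1 :=
      Primrec.succ.comp (Primrec.nat_add.comp (Primrec.fst.comp (Primrec.fst.comp Primrec.snd))
        Primrec.fst)
    refine SI.and (SI.and ?_ ?_) ?_
    · exact d2'.comp (f := fun x : ℕ × (ℕ × ℕ) × List Bool => (x.2.1, x.2.1.1 + x.1 + 1))
        (Primrec.pair (Primrec.fst.comp Primrec.snd) hj)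
    · refine SI.all_lt (p := fun (x : ℕ × (ℕ × ℕ) × List Bool) (n' : ℕ) =>
        (1 / 2 : ℝ≥0∞) ^ (x.2.1.1 + x.1 + 1) < lam {X | qe (join X B) (x.2.1.1, n')})
        (f := fun x : ℕ × (ℕ × ℕ) × List Bool => x.2.1.2) ?_
        (Primrec.snd.comp (Primrec.fst.comp Primrec.snd))
      exact d1'.comp (f := fun x : (ℕ × (ℕ × ℕ) × List Bool) × ℕ =>
        ((x.1.2.1.1, x.2), x.1.2.1.1 + x.1.1 + 1))
        (Primrec.pair (Primrec.pair (Primrec.fst.comp (Primrec.fst.comp
          (Primrec.snd.comp Primrec.fst))) Primrec.snd) (hj.comp Primrec.fst))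
    · refine SI.all_lt (p := fun (x : ℕ × (ℕ × ℕ) × List Bool) (i : ℕ) =>
        B i = x.2.2.getD i false) (f := fun x : ℕ × (ℕ × ℕ) × List Bool => x.2.2.length) ?_
        (Primrec.list_length.comp (Primrec.snd.comp Primrec.snd))
      exact (tLe_iff_SI.1 hB0).comp (f := fun x : (ℕ × (ℕ × ℕ) × List Bool) × ℕ =>
        (x.2, x.1.2.2.getD x.2 false)) (Primrec.pair Primrec.snd
          ((Primrec.list_getD false).comp (Primrec.snd.comp (Primrec.snd.comp Primrec.fst))
            Primrec.snd))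
  -- membership
  obtain ⟨E, hE, mE, eE⟩ := ui_qe
  have hH : UI fun X (x : ℕ × (ℕ × ℕ) × List Bool) => ∃ τ : List Bool,
      ((∀ i < τ.length, X i = τ.getD i false) ∧ τ.length ≤ x.2.2.length) ∧
      E (pjn τ x.2.2 τ.length, x.2.1) := by
    refine UI.ex (p := fun X (x : ℕ × (ℕ × ℕ) × List Bool) (τ : List Bool) =>
      ((∀ i < τ.length, X i = τ.getD i false) ∧ τ.length ≤ x.2.2.length) ∧
      E (pjn τ x.2.2 τ.length, x.2.1)) (UI.and (UI.and ?_ (UI.of_prim ?_)) (UI.of_s1 ?_))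
    · refine UI.all_lt (p := fun X (x : (ℕ × (ℕ × ℕ) × List Bool) × List Bool) (i : ℕ) =>
        X i = x.2.getD i false)
        (f := fun x : (ℕ × (ℕ × ℕ) × List Bool) × List Bool => x.2.length) ?_
        (Primrec.list_length.comp Primrec.snd)
      exact UI.query.comp (f := fun x : ((ℕ × (ℕ × ℕ) × List Bool) × List Bool) × ℕ =>
        (x.2, x.1.2.getD x.2 false)) (Primrec.pair Primrec.snd ((Primrec.list_getD false).comp
          (Primrec.snd.comp Primrec.fst) Primrec.snd))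
    · exact Primrec.nat_le.comp (Primrec.list_length.comp Primrec.snd) (Primrec.list_length.comp
        (Primrec.snd.comp (Primrec.snd.comp Primrec.fst)))
    · refine hE.comp (f := fun x : (ℕ × (ℕ × ℕ) × List Bool) × List Bool =>
        (pjn x.2 x.1.2.2 x.2.length, x.1.2.1)) (Primrec.pair ?_
          (Primrec.fst.comp (Primrec.snd.comp Primrec.fst)))
      exact primrec_pjn.comp (g := fun x : (ℕ × (ℕ × ℕ) × List Bool) × List Bool =>
        ((x.2, x.1.2.2), x.2.length)) (Primrec.pair (Primrec.pair Primrec.snd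
          (Primrec.snd.comp (Primrec.snd.comp Primrec.fst)))
          (Primrec.list_length.comp Primrec.snd))
  have hT := PI2.imp_not hG hH
  have hT' : PI2 fun X (k : ℕ) => ∀ w : (ℕ × ℕ) × List Bool,
      ((¬ (1 / 2 : ℝ≥0∞) ^ (w.1.1 + k + 1) < lam {X | qe (join X B) w.1} ∧
        ∀ n' < w.1.2, (1 / 2 : ℝ≥0∞) ^ (w.1.1 + k + 1) <
          lam {X | qe (join X B) (w.1.1, n')}) ∧
      ∀ i < w.2.length, B i = w.2.getD i false) →
      ¬ ∃ τ : List Bool, ((∀ i < τ.length, X i = τ.getD i false) ∧ τ.length ≤ w.2.length) ∧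
        E (pjn τ w.2 τ.length, w.1) :=
    PI2.all (p := fun X (k : ℕ) (w : (ℕ × ℕ) × List Bool) =>
      ((¬ (1 / 2 : ℝ≥0∞) ^ (w.1.1 + k + 1) < lam {X | qe (join X B) w.1} ∧
        ∀ n' < w.1.2, (1 / 2 : ℝ≥0∞) ^ (w.1.1 + k + 1) <
          lam {X | qe (join X B) (w.1.1, n')}) ∧
      ∀ i < w.2.length, B i = w.2.getD i false) →
      ¬ ∃ τ : List Bool, ((∀ i < τ.length, X i = τ.getD i false) ∧ τ.length ≤ w.2.length) ∧
        E (pjn τ w.2 τ.length, w.1)) hT
  -- the meaning of the two conditions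
  have hmem : ∀ (X : ℕ → Bool) (e n : ℕ), X ∈ Ue C D e n ↔ ∃ σ : List Bool,
      (∀ i < σ.length, B i = σ.getD i false) ∧ ∃ τ : List Bool,
      ((∀ i < τ.length, X i = τ.getD i false) ∧ τ.length ≤ σ.length) ∧
        E (pjn τ σ τ.length, (e, n)) := by
    intro X e n
    rw [← qe_iff, ← hB, eE]
    constructor
    · rintro ⟨s, hs⟩
      refine ⟨pre B s, fun i hi => (pre_getD B _ _ _ (by simpa using hi)).symm, pre X s,
        ⟨fun i hi => (pre_getD X _ _ _ (by simpa using hi)).symm, by simp⟩, ?_⟩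
      rw [length_pre, pjn_pre le_rfl le_rfl]
      exact hs
    · rintro ⟨σ, h1, τ, ⟨h2, h3⟩, h4⟩
      refine ⟨τ.length, ?_⟩
      rw [← t42_eq_pre h1, ← t42_eq_pre h2] at h4
      rw [length_pre, pjn_pre le_rfl h3] at h4
      exact h4
  have hex : ∀ e k : ℕ, ∃ n, ¬ (1 / 2 : ℝ≥0∞) ^ (e + k + 1) < lam (Ue C D e n) :=
    fun e k => exists_small hDC e _
  refine ⟨_, hT', fun X k hX hle => ?_, fun k => ?_⟩
  · obtain ⟨e, he⟩ := exists_graph hle
    have h1 : ∀ n, X ∈ Ue C D e n := fun n i _ => fbv_of_graph he i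
    obtain ⟨σ, h2, h3⟩ := (hmem X e (Nat.find (hex e k))).1 (h1 _)
    refine hX ((e, Nat.find (hex e k)), σ) ⟨⟨?_, fun n' hn' => ?_⟩, h2⟩ h3
    · simp only [hset]
      exact Nat.find_spec (hex e k)
    · simp only [hset]
      have := Nat.find_min (hex e k) hn'
      push Not at this
      exact this
  · have hsub : {X | ¬ ∀ w : (ℕ × ℕ) × List Bool,
        ((¬ (1 / 2 : ℝ≥0∞) ^ (w.1.1 + k + 1) < lam {X | qe (join X B) w.1} ∧
          ∀ n' < w.1.2, (1 / 2 : ℝ≥0∞) ^ (w.1.1 + k + 1) <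
            lam {X | qe (join X B) (w.1.1, n')}) ∧
        ∀ i < w.2.length, B i = w.2.getD i false) →
        ¬ ∃ τ : List Bool, ((∀ i < τ.length, X i = τ.getD i false) ∧ τ.length ≤ w.2.length) ∧
          E (pjn τ w.2 τ.length, w.1)} ⊆ ⋃ e, Ue C D e (Nat.find (hex e k)) := by
      intro X hX
      simp only [Set.mem_ofPred_eq, not_forall, not_not] at hX
      obtain ⟨⟨⟨e, n⟩, σ⟩, ⟨⟨h1, h2⟩, h3⟩, h4⟩ := hX
      simp only [hset] at h1 h2
      simp only at h3 h4
      have h5 : Nat.find (hex e k) = n := by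
        refine (Nat.find_eq_iff _).2 ⟨h1, fun n' hn' => ?_⟩
        rw [not_not]
        exact h2 n' hn'
      rw [Set.mem_iUnion]
      refine ⟨e, ?_⟩
      rw [h5]
      exact (hmem X e n).2 ⟨σ, h3, h4⟩
    refine (measure_mono hsub).trans ((measure_iUnion_le _).trans ?_)
    calc ∑' e, lam (Ue C D e (Nat.find (hex e k)))
        ≤ ∑' e : ℕ, (1 / 2 : ℝ≥0∞) ^ (e + k + 1) :=
          ENNReal.tsum_le_tsum fun e => not_lt.1 (Nat.find_spec (hex e k))
      _ = ∑' e : ℕ, (1 / 2 : ℝ≥0∞) ^ (k + 1) * (1 / 2) ^ e := by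
          refine tsum_congr fun e => ?_
          rw [← pow_add]
          congr 1
          omega
      _ = (1 / 2) ^ (k + 1) * ∑' e : ℕ, (1 / 2 : ℝ≥0∞) ^ e := ENNReal.tsum_mul_left
      _ = (1 / 2) ^ k := by
          rw [ENNReal.tsum_geometric, one_div, ENNReal.one_sub_inv_two, inv_inv, pow_succ,
            mul_assoc, ENNReal.inv_mul_cancel (by norm_num) (by norm_num), mul_one]
      _ ≤ (1 / 2) ^ k := le_rfl

end Pool.Agent.Helper88.GL
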