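import Pool.Agent.Helper88.GL.Defs

set_option autoImplicit false

namespace Pool.Agent.Helper88.GL

open Encodable Pool.Agent.Helper227 Pool.Agent.H548R2.Post
open Nat.Partrec (Code)

theorem primrec_pJ' : Primrec fun x : (List Bool × List ℕ) × ℕ => pJ x.1.1 x.1.2 x.2 := by
  have hd : Primrec fun y : ((List Bool × List ℕ) × ℕ) × ℕ => y.2 / 2 :=
    Primrec.nat_div.comp Primrec.snd (Primrec.const 2)
  have hm : Primrec fun y : ((List Bool × List ℕ) × ℕ) × ℕ => y.2 % 2 :=
    Primrec.nat_mod.comp Primrec.snd (Primrec.const 2)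
  have h2 : Primrec₂ fun (x : (List Bool × List ℕ) × ℕ) (i : ℕ) =>
      if i % 2 = 0 then x.1.1.getD (i / 2) false else decide (i / 2 ∈ x.1.2) :=
    Primrec.ite (Primrec.eq.comp hm (Primrec.const 0))
      ((Primrec.list_getD false).comp (Primrec.fst.comp (Primrec.fst.comp Primrec.fst)) hd)
      (t22_mem.comp hd (Primrec.snd.comp (Primrec.fst.comp Primrec.fst)))
  exact Primrec.list_map (Primrec.list_range.comp Primrec.snd) h2

/-- the halting of the lowness requirement `n` with use `t` -/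
theorem pp_hl : PrimrecPred fun x : ((List Bool × List ℕ) × ℕ) × ℕ =>
    hlt x.1.1.1.length x.1.2 x.1.2 (pJ x.1.1.1 x.1.1.2 x.2) = true := by
  have h1 : Primrec fun x : ((List Bool × List ℕ) × ℕ) × ℕ =>
      hlt x.1.1.1.length x.1.2 x.1.2 (pJ x.1.1.1 x.1.1.2 x.2) := by
    refine primrec_hlt.comp (Primrec.pair ?_ (Primrec.pair ?_ (Primrec.pair ?_ ?_)))
    · exact Primrec.list_length.comp (Primrec.fst.comp (Primrec.fst.comp Primrec.fst))
    · exact Primrec.snd.comp Primrec.fst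
    · exact Primrec.snd.comp Primrec.fst
    · exact primrec_pJ'.comp (Primrec.pair (Primrec.fst.comp Primrec.fst) Primrec.snd)
  exact Primrec.eq.comp h1 (Primrec.const true)

theorem pp_en : PrimrecPred fun x : (ℕ × ℕ) × List Bool => en x.1.1 x.1.2 x.2 := by
  unfold en
  refine PP.ex_lt (f := fun x : (ℕ × ℕ) × List Bool => x.2.length + 1)
    (p := fun (x : (ℕ × ℕ) × List Bool) (t : ℕ) =>
      hlt x.2.length x.1.1 x.1.2 (x.2.take t) = true) ?_
    (Primrec.succ.comp (Primrec.list_length.comp Primrec.snd))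
  have h1 : Primrec fun y : ((ℕ × ℕ) × List Bool) × ℕ =>
      hlt y.1.2.length y.1.1.1 y.1.1.2 (y.1.2.take y.2) := by
    refine primrec_hlt.comp (Primrec.pair ?_ (Primrec.pair ?_ (Primrec.pair ?_ ?_)))
    · exact Primrec.list_length.comp (Primrec.snd.comp Primrec.fst)
    · exact Primrec.fst.comp (Primrec.fst.comp Primrec.fst)
    · exact Primrec.snd.comp (Primrec.fst.comp Primrec.fst)
    · exact Primrec.list_take.comp Primrec.snd (Primrec.snd.comp Primrec.fst)
  exact Primrec.eq.comp h1 (Primrec.const true)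

theorem pp_ok : PrimrecPred fun x : (List Bool × List ℕ) × (ℕ × ℕ) =>
    ok x.1.1 x.1.2 x.2.1 x.2.2 := by
  have hl : Primrec fun x : (List Bool × List ℕ) × (ℕ × ℕ) => x.1.1.length + 1 :=
    Primrec.succ.comp (Primrec.list_length.comp (Primrec.fst.comp Primrec.fst))
  have hq : PrimrecPred fun y : ((List Bool × List ℕ) × (ℕ × ℕ)) × ℕ =>
      hlt y.1.1.1.length y.1.2.1 y.1.2.1 (pJ y.1.1.1 y.1.1.2 y.2) = true :=
    pp_hl.comp (f := fun y : ((List Bool × List ℕ) × (ℕ × ℕ)) × ℕ => ((y.1.1, y.1.2.1), y.2))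
      (Primrec.pair (Primrec.pair (Primrec.fst.comp Primrec.fst)
        (Primrec.fst.comp (Primrec.snd.comp Primrec.fst))) Primrec.snd)
  have h1 : PrimrecPred fun x : (List Bool × List ℕ) × (ℕ × ℕ) => ∃ t < x.1.1.length + 1,
      hlt x.1.1.length x.2.1 x.2.1 (pJ x.1.1 x.1.2 t) = true :=
    PP.ex_lt (p := fun (x : (List Bool × List ℕ) × (ℕ × ℕ)) (t : ℕ) =>
      hlt x.1.1.length x.2.1 x.2.1 (pJ x.1.1 x.1.2 t) = true) hq hl
  have h2 : PrimrecPred fun x : (List Bool × List ℕ) × (ℕ × ℕ) => ∃ t < x.1.1.length + 1,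
      t ≤ x.2.2 ∧ hlt x.1.1.length x.2.1 x.2.1 (pJ x.1.1 x.1.2 t) = true :=
    PP.ex_lt (p := fun (x : (List Bool × List ℕ) × (ℕ × ℕ)) (t : ℕ) =>
      t ≤ x.2.2 ∧ hlt x.1.1.length x.2.1 x.2.1 (pJ x.1.1 x.1.2 t) = true)
      (PrimrecPred.and (Primrec.nat_le.comp Primrec.snd
        (Primrec.snd.comp (Primrec.snd.comp Primrec.fst))) hq) hl
  refine ((h1.not).or h2).of_eq fun x => ?_
  unfold ok
  exact imp_iff_not_or.symm

variable {ev : ℕ → List Bool → Prop} {F : ℕ → ℕ → List Bool → Prop}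

theorem pp_good (hev : PrimrecPred fun x : ℕ × List Bool => ev x.1 x.2)
    (hF : PrimrecPred fun x : (ℕ × ℕ) × List Bool => F x.1.1 x.1.2 x.2) :
    PrimrecPred fun x : (List Bool × List ℕ) × ℕ => good ev F x.1.1 x.1.2 x.2 := by
  have h1 : Primrec fun x : (List Bool × List ℕ) × ℕ => x.2.unpair.1 :=
    Primrec.fst.comp (Primrec.unpair.comp Primrec.snd)
  have h2 : Primrec fun x : (List Bool × List ℕ) × ℕ => x.2.unpair.2 :=
    Primrec.snd.comp (Primrec.unpair.comp Primrec.snd)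
  have hh : Primrec fun x : (List Bool × List ℕ) × ℕ => x.2.unpair.1 / 2 :=
    Primrec.nat_div.comp h1 (Primrec.const 2)
  have hm : Primrec fun x : (List Bool × List ℕ) × ℕ => x.2.unpair.1 % 2 :=
    Primrec.nat_mod.comp h1 (Primrec.const 2)
  have hτ : Primrec fun x : (List Bool × List ℕ) × ℕ => x.1.1 := Primrec.fst.comp Primrec.fst
  have hok : PrimrecPred fun x : (List Bool × List ℕ) × ℕ => ∀ n < x.2.unpair.1,
      ok x.1.1 x.1.2 n x.2 := by
    refine PP.all_lt (p := fun (x : (List Bool × List ℕ) × ℕ) (n : ℕ) => ok x.1.1 x.1.2 n x.2)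
      ?_ h1
    exact pp_ok.comp (f := fun y : ((List Bool × List ℕ) × ℕ) × ℕ => (y.1.1, (y.2, y.1.2)))
      (Primrec.pair (Primrec.fst.comp Primrec.fst)
        (Primrec.pair Primrec.snd (Primrec.snd.comp Primrec.fst)))
  unfold good
  refine PrimrecPred.or (PrimrecPred.and ?_ (PrimrecPred.and ?_ hok))
    (PrimrecPred.or ?_ (PrimrecPred.and ?_ (PrimrecPred.and ?_ (PrimrecPred.and ?_ hok))))
  · exact Primrec.eq.comp hm (Primrec.const 0)
  · exact hF.comp (f := fun x : (List Bool × List ℕ) × ℕ =>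
      ((x.2.unpair.1 / 2, x.2.unpair.2), x.1.1)) (Primrec.pair (Primrec.pair hh h2) hτ)
  · refine PP.ex_lt (p := fun (x : (List Bool × List ℕ) × ℕ) (m : ℕ) =>
      2 * m < x.2.unpair.1 ∧ ev m x.1.1 ∧ ∀ n < 2 * m, ok x.1.1 x.1.2 n x.2) ?_ h1
    refine PrimrecPred.and ?_ (PrimrecPred.and ?_ ?_)
    · exact Primrec.nat_lt.comp (Primrec.nat_mul.comp (Primrec.const 2) Primrec.snd)
        (h1.comp Primrec.fst)
    · exact hev.comp (f := fun y : ((List Bool × List ℕ) × ℕ) × ℕ => (y.2, y.1.1.1))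
        (Primrec.pair Primrec.snd (hτ.comp Primrec.fst))
    · refine PP.all_lt (f := fun y : ((List Bool × List ℕ) × ℕ) × ℕ => 2 * y.2)
        (p := fun (y : ((List Bool × List ℕ) × ℕ) × ℕ) (n : ℕ) => ok y.1.1.1 y.1.1.2 n y.1.2)
        ?_ (Primrec.nat_mul.comp (Primrec.const 2) Primrec.snd)
      exact pp_ok.comp (f := fun w : (((List Bool × List ℕ) × ℕ) × ℕ) × ℕ =>
        (w.1.1.1, (w.2, w.1.1.2)))
        (Primrec.pair (Primrec.fst.comp (Primrec.fst.comp Primrec.fst))
          (Primrec.pair Primrec.snd (Primrec.snd.comp (Primrec.fst.comp Primrec.fst))))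
  · exact Primrec.eq.comp hm (Primrec.const 1)
  · exact pp_en.comp (f := fun x : (List Bool × List ℕ) × ℕ => ((x.2.unpair.1 / 2, x.2), x.1.1))
      (Primrec.pair (Primrec.pair hh Primrec.snd) hτ)
  · refine PP.all_mem (f := fun x : (List Bool × List ℕ) × ℕ => x.1.2)
      (p := fun (x : (List Bool × List ℕ) × ℕ) (w : ℕ) => ¬ en (x.2.unpair.1 / 2) w x.1.1) ?_
      (Primrec.snd.comp Primrec.fst)
    refine PrimrecPred.not ?_
    exact pp_en.comp (f := fun y : ((List Bool × List ℕ) × ℕ) × ℕ =>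
      ((y.1.2.unpair.1 / 2, y.2), y.1.1.1))
      (Primrec.pair (Primrec.pair (hh.comp Primrec.fst) Primrec.snd) (hτ.comp Primrec.fst))

theorem primrec_stp (hev : PrimrecPred fun x : ℕ × List Bool => ev x.1 x.2)
    (hF : PrimrecPred fun x : (ℕ × ℕ) × List Bool => F x.1.1 x.1.2 x.2) :
    Primrec fun x : List Bool × List ℕ => stp ev F x.1 x.2 := by
  classical
  unfold stp
  refine Primrec.listFilterMap (f := fun x : List Bool × List ℕ => List.range x.1.length)
    (g := fun (x : List Bool × List ℕ) (z : ℕ) => if good ev F x.1 x.2 z then some z else none)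
    (Primrec.list_range.comp (Primrec.list_length.comp Primrec.fst)) ?_
  exact Primrec.ite (pp_good hev hF) (Primrec.option_some.comp Primrec.snd) (Primrec.const none)

theorem primrec_tb (hev : PrimrecPred fun x : ℕ × List Bool => ev x.1 x.2)
    (hF : PrimrecPred fun x : (ℕ × ℕ) × List Bool => F x.1.1 x.1.2 x.2) :
    Primrec fun x : List Bool × ℕ => tb ev F x.1 x.2 := by
  have h := Primrec.nat_rec' (f := fun x : List Bool × ℕ => x.2)
    (g := fun _ : List Bool × ℕ => ([] : List ℕ))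
    (h := fun (x : List Bool × ℕ) (p : ℕ × List ℕ) => p.2 ++ stp ev F (x.1.take p.1) p.2)
    Primrec.snd (Primrec.const []) ?_
  · refine h.of_eq fun x => ?_
    obtain ⟨σ, s⟩ := x
    induction s with
    | zero => rfl
    | succ s ih =>
      simp only [tb]
      rw [← ih]
  · refine Primrec.list_append.comp (Primrec.snd.comp Primrec.snd) ?_
    exact (primrec_stp hev hF).comp (Primrec.pair
      (Primrec.list_take.comp (Primrec.fst.comp Primrec.snd) (Primrec.fst.comp Primrec.fst))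
      (Primrec.snd.comp Primrec.snd))

end Pool.Agent.Helper88.GL
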