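import Pool.Agent.Helper88.GL.Main

set_option autoImplicit false

namespace Pool.Agent.Helper88.GL

open Encodable Pool.Agent.Helper227 Pool.Agent.H548R2.Post
open Nat.Partrec (Code)

theorem TEq.refl (X : ℕ → Bool) : TEq X X := ⟨TuringReducible.refl _, TuringReducible.refl _⟩

theorem UI.or {α : Type*} [Primcodable α] {p q : (ℕ → Bool) → α → Prop} (hp : UI p)
    (hq : UI q) : UI fun B a => p B a ∨ q B a := by
  obtain ⟨E, hE, mE, eE⟩ := hp
  obtain ⟨F, hF, mF, eF⟩ := hq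
  refine ⟨fun x => E x ∨ F x, hE.or hF, fun σ τ a h h2 => h2.imp (mE _ _ _ h) (mF _ _ _ h),
    fun B a => ?_⟩
  exact (or_congr (eE B a) (eF B a)).trans exists_or.symm

/-- from `Π⁰₂` to `Σ⁰₃` -/
theorem sg3_of_pi2 {T : (ℕ → Bool) → ℕ × ℕ → Prop} (hT : PI2 T) :
    Sg3 fun X v => ∃ k, T X (k, v) := by
  obtain ⟨R, ⟨E, hE, mE, eE⟩, eR⟩ := hT
  refine ⟨fun x => E (x.2, ((x.1.1, x.1.2.2), x.1.2.1)), ?_, fun X v => ?_⟩
  · refine (S1.comp (f := fun x : (ℕ × ℕ × ℕ) × List Bool =>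
      (x.2, ((x.1.1, x.1.2.2), x.1.2.1))) hE ?_).re
    exact Primrec.pair Primrec.snd (Primrec.pair (Primrec.pair (Primrec.fst.comp Primrec.fst)
      (Primrec.snd.comp (Primrec.snd.comp Primrec.fst)))
      (Primrec.fst.comp (Primrec.snd.comp Primrec.fst)))
  · refine exists_congr fun k => ?_
    rw [eR]
    exact forall_congr' fun a => eE X _

/-- A `Σ⁰₃` class of sets, with a fixed index. -/
def Sg3c (S : (ℕ → Bool) → Prop) : Prop :=
  ∃ E : (ℕ × ℕ) × List Bool → Prop, REPred E ∧ ∀ X, S X ↔ ∃ k, ∀ a, ∃ s, E ((k, a), pre X s)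

theorem sg3_of_class {S : (ℕ → Bool) → Prop} (hS : Sg3c S) (e₀ : ℕ) :
    Sg3 fun X v => S X ∧ v = e₀ := by
  obtain ⟨E, hE, eS⟩ := hS
  refine ⟨fun x => E ((x.1.1, x.1.2.1), x.2) ∧ x.1.2.2 = e₀, ?_, fun X v => ?_⟩
  · refine (S1.and (S1.comp (f := fun x : (ℕ × ℕ × ℕ) × List Bool =>
      ((x.1.1, x.1.2.1), x.2)) (S1.of_re hE) ?_) (S1.of_prim ?_)).re
    · exact Primrec.pair (Primrec.pair (Primrec.fst.comp Primrec.fst)
        (Primrec.fst.comp (Primrec.snd.comp Primrec.fst))) Primrec.snd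
    · exact Primrec.eq.comp (Primrec.snd.comp (Primrec.snd.comp Primrec.fst))
        (Primrec.const e₀)
  · refine (and_congr_left' (eS X)).trans ?_
    constructor
    · rintro ⟨⟨k, hk⟩, hv⟩
      exact ⟨k, fun a => (hk a).imp fun s hs => ⟨hs, hv⟩⟩
    · rintro ⟨k, hk⟩
      exact ⟨⟨k, fun a => (hk a).imp fun s hs => hs.1⟩, (hk 0).choose_spec.2⟩

theorem low_transfer {X Y : ℕ → Bool} {e v : ℕ} (h : TEq X Y)
    (h1 : TEq (chr (WE Y e)) (chr (WE X v))) (h2 : TLe (jump (chr (WE X v))) (jump X)) :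
    TLe (jump (chr (WE Y e))) (jump Y) :=
  TLe.tr (TLe.jump h1.1) (TLe.tr h2 (TLe.jump h.1))

/-- The degree invariance of the `e`-th operator on the degrees of the members of a `Σ⁰₃` class
that contains at most one member of each degree. -/
theorem transversal {S : (ℕ → Bool) → Prop} (hS : Sg3c S)
    (hu : ∀ X Y, S X → S Y → TEq X Y → X = Y) :
    ∃ e : ℕ, (∀ X, Btw e X ∧ TLe (jump (chr (WE X e))) (jump X)) ∧
      ∀ X, S X → ∀ Y, TEq X Y → TEq (chr (WE X e)) (chr (WE Y e)) := by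
  obtain ⟨e₀, h0, -⟩ := Pool.Agent.H548R2.Post.main (fun _ _ => false) (Computable.const false)
  obtain ⟨e, h1, h2, h3⟩ := gluing (sg3_of_class hS e₀)
    (fun X v hv => by
      rw [hv.2]
      exact ⟨(h0 X).1, (h0 X).2.1, (h0 X).2.2.1, (h0 X).2.2.2.1⟩)
    (fun X v Y w hv hw hXY => by
      rw [hv.2, hw.2, hu X Y hv.1 hw.1 hXY]
      exact TEq.refl _)
  refine ⟨e, fun Y => ⟨h1 Y, ?_⟩, fun X hX Y hXY => ?_⟩
  · by_cases hY : ∃ X v, (S X ∧ v = e₀) ∧ TEq X Y
    · obtain ⟨X, v, hv, hXY⟩ := hY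
      refine low_transfer hXY (h2 X v Y hv hXY) ?_
      rw [hv.2]
      exact (h0 X).2.2.2.2
    · exact h3 Y hY
  · exact (h2 X e₀ X ⟨hX, rfl⟩ (TEq.refl X)).tr (h2 X e₀ Y ⟨hX, rfl⟩ hXY).symm

/-- The iterated jumps of the empty set. -/
noncomputable def zj (n : ℕ) : ℕ → Bool := jump^[n] fun _ => false

theorem zj_succ (n : ℕ) : zj (n + 1) = jump (zj n) := Function.iterate_succ_apply' _ _ _

def cl (X : ℕ → Bool) (i : ℕ) : ℕ → Bool := fun x => X (Nat.pair i x)

/-- the code of the `n`-th jump -/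
def IsT (n : ℕ) (X : ℕ → Bool) : Prop :=
  (∀ x, cl X 0 x = false) ∧ (∀ i < n, ∀ x, cl X (i + 1) x = jump (cl X i) x) ∧
    ∀ i > n, ∀ x, cl X i x = false

theorem IsT.col {n : ℕ} {X : ℕ → Bool} (h : IsT n X) {i : ℕ} (hi : i ≤ n) : cl X i = zj i := by
  induction i with
  | zero => exact funext h.1
  | succ i ih =>
    rw [zj_succ, ← ih (by omega)]
    exact funext (h.2.1 i (by omega))

theorem IsT.unique {n : ℕ} {X Y : ℕ → Bool} (h : IsT n X) (h' : IsT n Y) : X = Y := by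
  funext z
  have e1 : ∀ W : ℕ → Bool, W z = cl W z.unpair.1 z.unpair.2 := fun W => by
    unfold cl
    rw [Nat.pair_unpair]
  rw [e1 X, e1 Y]
  by_cases hz : z.unpair.1 ≤ n
  · rw [h.col hz, h'.col hz]
  · rw [h.2.2 _ (by omega), h'.2.2 _ (by omega)]

theorem zj_mono {i n : ℕ} (h : i ≤ n) : TLe (zj i) (zj n) := by
  induction n, h using Nat.le_induction with
  | base => exact TuringReducible.refl _
  | succ n _ ih =>
    rw [zj_succ]
    exact TLe.tr ih (tLe_jump _)

theorem IsT.teq {n : ℕ} {X : ℕ → Bool} (h : IsT n X) : TEq X (zj n) := by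
  constructor
  · have h1 : ∀ m ≤ n + 1, SI (zj n) fun x : ℕ × Bool =>
        x.1.unpair.1 < m ∧ X x.1 = x.2 := by
      intro m hm
      induction m with
      | zero => exact (SI.of_prim (PP.const False)).of_eq (by simp)
      | succ m ih =>
        have h2 : SI (zj n) fun x : ℕ × Bool => x.1.unpair.1 = m ∧ zj m x.1.unpair.2 = x.2 := by
          refine SI.and (SI.of_prim ?_) ?_
          · exact Primrec.eq.comp (Primrec.fst.comp (Primrec.unpair.comp Primrec.fst))
              (Primrec.const m)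
          · exact (tLe_iff_SI.1 (zj_mono (by omega : m ≤ n))).comp
              (f := fun x : ℕ × Bool => (x.1.unpair.2, x.2))
              (Primrec.pair (Primrec.snd.comp (Primrec.unpair.comp Primrec.fst)) Primrec.snd)
        refine (SI.or (ih (by omega)) h2).of_eq fun x => ?_
        have h3 : x.1.unpair.1 = m → X x.1 = zj m x.1.unpair.2 := by
          intro h4
          rw [← h.col (by omega : m ≤ n), ← h4]
          unfold cl
          rw [Nat.pair_unpair]
        constructor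
        · rintro (⟨h5, h6⟩ | ⟨h5, h6⟩)
          · exact ⟨by omega, h6⟩
          · exact ⟨by omega, by rw [h3 h5]; exact h6⟩
        · rintro ⟨h5, h6⟩
          by_cases h7 : x.1.unpair.1 = m
          · exact Or.inr ⟨h7, by rw [← h3 h7]; exact h6⟩
          · exact Or.inl ⟨by omega, h6⟩
    rw [tLe_iff_SI]
    have h2 : SI (zj n) fun x : ℕ × Bool => ¬ x.1.unpair.1 < n + 1 ∧ x.2 = false := by
      refine SI.of_prim (PrimrecPred.and (PrimrecPred.not ?_) ?_)
      · exact Primrec.nat_lt.comp (Primrec.fst.comp (Primrec.unpair.comp Primrec.fst))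
          (Primrec.const _)
      · exact Primrec.eq.comp Primrec.snd (Primrec.const false)
    refine (SI.or (h1 (n + 1) le_rfl) h2).of_eq fun x => ?_
    have h3 : ¬ x.1.unpair.1 < n + 1 → X x.1 = false := by
      intro h4
      have := h.2.2 x.1.unpair.1 (by omega) x.1.unpair.2
      unfold cl at this
      rwa [Nat.pair_unpair] at this
    constructor
    · rintro (⟨_, h6⟩ | ⟨h5, h6⟩)
      · exact h6
      · rw [h3 h5, h6]
    · intro h6
      by_cases h7 : x.1.unpair.1 < n + 1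
      · exact Or.inl ⟨h7, h6⟩
      · exact Or.inr ⟨h7, by rw [← h6]; exact h3 h7⟩
  · have hf : Computable fun x : ℕ => Nat.pair n x :=
      (Primrec₂.natPair.comp (Primrec.const n) Primrec.id).to_comp
    exact tLe_of_computable hf fun x => by rw [← h.col le_rfl]; rfl

theorem IsT.inj {n m : ℕ} {X Y : ℕ → Bool} (h : IsT n X) (h' : IsT m Y) (hXY : TEq X Y) :
    n = m := by
  have key : ∀ {n m : ℕ} {X Y : ℕ → Bool}, IsT n X → IsT m Y → TEq X Y → ¬ n < m := by
    intro n m X Y h h' hXY hlt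
    refine not_jump_le (zj n) ?_
    rw [← zj_succ]
    exact TLe.tr (zj_mono hlt) (TLe.tr h'.teq.2 (TLe.tr hXY.2 h.teq.1))
  have h1 := key h h' hXY
  have h2 := key h' h hXY.symm
  omega

theorem exists_IsT (n : ℕ) : ∃ X, IsT n X := by
  classical
  refine ⟨fun z => if z.unpair.1 ≤ n then zj z.unpair.1 z.unpair.2 else false, ?_, ?_, ?_⟩
  · intro x
    simp [cl, zj]
  · intro i hi x
    have e1 : cl (fun z => if z.unpair.1 ≤ n then zj z.unpair.1 z.unpair.2 else false) i =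
        zj i := by
      funext y
      simp only [cl, Nat.unpair_pair]
      rw [if_pos (by omega)]
    rw [e1, ← zj_succ]
    simp only [cl, Nat.unpair_pair]
    rw [if_pos (by omega)]
  · intro i hi x
    simp only [cl, Nat.unpair_pair]
    rw [if_neg (by omega)]

theorem ui_cl : UI fun X (x : ℕ × ℕ) => x.2 ∈ WE (cl X x.1) x.2 := by
  have h1 : UI fun X (x : ℕ × ℕ) => ∃ σ : List Bool,
      (∀ i < σ.length, X (Nat.pair x.1 i) = σ.getD i false) ∧
      ((Denumerable.ofNat Code x.2).eval (encode (σ, x.2))).Dom := by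
    refine UI.ex (p := fun X (x : ℕ × ℕ) (σ : List Bool) =>
      (∀ i < σ.length, X (Nat.pair x.1 i) = σ.getD i false) ∧
      ((Denumerable.ofNat Code x.2).eval (encode (σ, x.2))).Dom) (UI.and ?_ (UI.of_s1 ?_))
    · refine UI.all_lt (p := fun X (x : (ℕ × ℕ) × List Bool) (i : ℕ) =>
        X (Nat.pair x.1.1 i) = x.2.getD i false)
        (f := fun x : (ℕ × ℕ) × List Bool => x.2.length) ?_ (Primrec.list_length.comp Primrec.snd)
      exact UI.query.comp (f := fun z : ((ℕ × ℕ) × List Bool) × ℕ =>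
        (Nat.pair z.1.1.1 z.2, z.1.2.getD z.2 false))
        (Primrec.pair (Primrec₂.natPair.comp (Primrec.fst.comp (Primrec.fst.comp Primrec.fst))
          Primrec.snd) ((Primrec.list_getD false).comp (Primrec.snd.comp Primrec.fst)
            Primrec.snd))
    · exact S1.comp (f := fun x : (ℕ × ℕ) × List Bool =>
        (Denumerable.ofNat Code x.1.2, encode (x.2, x.1.2))) s1_eval
        (((Primrec.ofNat Code).comp (Primrec.snd.comp Primrec.fst)).pair
          (Primrec.encode.comp (Primrec.snd.pair (Primrec.snd.comp Primrec.fst))))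
  refine h1.of_eq fun X x => ?_
  constructor
  · rintro ⟨σ, h3, h4⟩
    refine ⟨σ.length, ?_⟩
    have : pre (cl X x.1) σ.length = σ := t42_eq_pre fun i hi => h3 i hi
    unfold pre at this
    rwa [this]
  · rintro ⟨s, hs⟩
    exact ⟨pre (cl X x.1) s, fun i hi => (pre_getD (cl X x.1) _ _ _ (by simpa using hi)).symm,
      hs⟩

theorem pi2_IsT : PI2 fun X (x : ℕ × ℕ) => IsT x.1 X := by
  have q : ∀ b : Bool, UI fun X (x : ((ℕ × ℕ) × ℕ) × ℕ) => X (Nat.pair (x.1.2 + 1) x.2) = b :=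
    fun b => UI.query.comp (f := fun x : ((ℕ × ℕ) × ℕ) × ℕ => (Nat.pair (x.1.2 + 1) x.2, b))
      (Primrec.pair (Primrec₂.natPair.comp (Primrec.succ.comp (Primrec.snd.comp Primrec.fst))
        Primrec.snd) (Primrec.const b))
  have hw : UI fun X (x : ((ℕ × ℕ) × ℕ) × ℕ) => x.2 ∈ WE (cl X x.1.2) x.2 :=
    ui_cl.comp (f := fun x : ((ℕ × ℕ) × ℕ) × ℕ => (x.1.2, x.2))
      (Primrec.pair (Primrec.snd.comp Primrec.fst) Primrec.snd)
  have hlt : PrimrecPred fun x : ((ℕ × ℕ) × ℕ) × ℕ => x.1.2 < x.1.1.1 :=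
    Primrec.nat_lt.comp (Primrec.snd.comp Primrec.fst)
      (Primrec.fst.comp (Primrec.fst.comp Primrec.fst))
  have hgt : PrimrecPred fun x : ((ℕ × ℕ) × ℕ) × ℕ => x.1.1.1 < x.1.2 :=
    Primrec.nat_lt.comp (Primrec.fst.comp (Primrec.fst.comp Primrec.fst))
      (Primrec.snd.comp Primrec.fst)
  -- the first condition
  have c1 : PI2 fun X (x : ℕ × ℕ) => ∀ y : ℕ, X (Nat.pair 0 y) = false := by
    refine PI2.all (p := fun X (_ : ℕ × ℕ) (y : ℕ) => X (Nat.pair 0 y) = false) (PI2.of_ui ?_)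
    exact UI.query.comp (f := fun x : (ℕ × ℕ) × ℕ => (Nat.pair 0 x.2, false))
      (Primrec.pair (Primrec₂.natPair.comp (Primrec.const 0) Primrec.snd) (Primrec.const false))
  have c2 : PI2 fun X (x : ℕ × ℕ) => ∀ i y : ℕ, ¬ (i < x.1 ∧
      (X (Nat.pair (i + 1) y) = false ∧ y ∈ WE (cl X i) y)) :=
    PI2.all (p := fun X (x : ℕ × ℕ) (i : ℕ) => ∀ y : ℕ, ¬ (i < x.1 ∧
        (X (Nat.pair (i + 1) y) = false ∧ y ∈ WE (cl X i) y)))
      (PI2.all (p := fun X (x : (ℕ × ℕ) × ℕ) (y : ℕ) => ¬ (x.2 < x.1.1 ∧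
        (X (Nat.pair (x.2 + 1) y) = false ∧ y ∈ WE (cl X x.2) y)))
        (PI2.not (UI.and (UI.of_prim hlt) (UI.and (q false) hw))))
  have c3 : PI2 fun X (x : ℕ × ℕ) => ∀ i y : ℕ, (¬ i < x.1) ∨
      (X (Nat.pair (i + 1) y) = false ∨ y ∈ WE (cl X i) y) :=
    PI2.all (p := fun X (x : ℕ × ℕ) (i : ℕ) => ∀ y : ℕ, (¬ i < x.1) ∨
        (X (Nat.pair (i + 1) y) = false ∨ y ∈ WE (cl X i) y))
      (PI2.all (p := fun X (x : (ℕ × ℕ) × ℕ) (y : ℕ) => (¬ x.2 < x.1.1) ∨
        (X (Nat.pair (x.2 + 1) y) = false ∨ y ∈ WE (cl X x.2) y))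
        (PI2.of_ui (UI.or (UI.of_prim hlt.not) (UI.or (q false) hw))))
  have c4 : PI2 fun X (x : ℕ × ℕ) => ∀ i y : ℕ, (¬ x.1 < i) ∨ X (Nat.pair i y) = false := by
    refine PI2.all (p := fun X (x : ℕ × ℕ) (i : ℕ) => ∀ y : ℕ,
        (¬ x.1 < i) ∨ X (Nat.pair i y) = false)
      (PI2.all (p := fun X (x : (ℕ × ℕ) × ℕ) (y : ℕ) =>
        (¬ x.1.1 < x.2) ∨ X (Nat.pair x.2 y) = false)
        (PI2.of_ui (UI.or (UI.of_prim hgt.not) ?_)))
    exact UI.query.comp (f := fun x : ((ℕ × ℕ) × ℕ) × ℕ => (Nat.pair x.1.2 x.2, false))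
      (Primrec.pair (Primrec₂.natPair.comp (Primrec.snd.comp Primrec.fst) Primrec.snd)
        (Primrec.const false))
  refine (PI2.and c1 (PI2.and c2 (PI2.and c3 c4))).of_eq fun X x => ?_
  constructor
  · rintro ⟨h1, h2, h3, h4⟩
    refine ⟨h1, fun i hi y => ?_, fun i hi y => ?_⟩
    · rw [Bool.eq_iff_iff, jump_eq_true]
      constructor
      · intro h5
        rcases h3 i y with h6 | h6 | h6
        · exact absurd hi h6
        · unfold cl at h5
          rw [h6] at h5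
          exact Bool.noConfusion h5
        · exact h6
      · intro h5
        by_contra h6
        refine h2 i y ⟨hi, ?_, h5⟩
        unfold cl at h6
        simpa using h6
    · rcases h4 i y with h5 | h5
      · exact absurd hi h5
      · exact h5
  · rintro ⟨h1, h2, h3⟩
    refine ⟨h1, fun i y h => ?_, fun i y => ?_, fun i y => ?_⟩
    · have h5 := h2 i h.1 y
      rw [← jump_eq_true] at h
      unfold cl at h5 h
      rw [h.2.1, h.2.2] at h5
      exact Bool.noConfusion h5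
    · by_cases hi : i < x.1
      · refine Or.inr ?_
        rw [← jump_eq_true, ← h2 i hi y]
        unfold cl
        cases X (Nat.pair (i + 1) y)
        · exact Or.inl rfl
        · exact Or.inr rfl
      · exact Or.inl hi
    · by_cases hi : x.1 < i
      · exact Or.inr (h3 i hi y)
      · exact Or.inl hi

theorem sg3c_of_pi2 {T : (ℕ → Bool) → ℕ × ℕ → Prop} (hT : PI2 T) :
    Sg3c fun X => ∃ k, T X (k, 0) := by
  obtain ⟨R, ⟨E, hE, mE, eE⟩, eR⟩ := hT
  refine ⟨fun x => E (x.2, ((x.1.1, 0), x.1.2)), ?_, fun X => ?_⟩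
  · refine (S1.comp (f := fun x : (ℕ × ℕ) × List Bool =>
      (x.2, ((x.1.1, 0), x.1.2))) hE ?_).re
    exact Primrec.pair Primrec.snd (Primrec.pair (Primrec.pair (Primrec.fst.comp Primrec.fst)
      (Primrec.const 0)) (Primrec.snd.comp Primrec.fst))
  · refine exists_congr fun k => ?_
    rw [eR]
    exact forall_congr' fun a => eE X _

/-- There is a solution which is degree invariant on all the degrees of the finite jumps of the
empty set. -/
theorem jumps : ∃ e : ℕ, (∀ X, Btw e X ∧ TLe (jump (chr (WE X e))) (jump X)) ∧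
    ∀ n X Y, TEq X (zj n) → TEq X Y → TEq (chr (WE X e)) (chr (WE Y e)) := by
  have hS : Sg3c fun X => ∃ n, IsT n X := sg3c_of_pi2 (T := fun X x => IsT x.1 X) pi2_IsT
  obtain ⟨e, h1, h2⟩ := transversal hS (fun X Y ⟨n, hn⟩ ⟨m, hm⟩ hXY => by
    obtain rfl := hn.inj hm hXY
    exact hn.unique hm)
  refine ⟨e, h1, fun n X Y hX hXY => ?_⟩
  obtain ⟨Z, hZ⟩ := exists_IsT n
  have h3 : TEq Z X := hZ.teq.tr hX.symm
  exact (h2 Z ⟨n, hZ⟩ X h3).symm.tr (h2 Z ⟨n, hZ⟩ Y (h3.tr hXY))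

end Pool.Agent.Helper88.GL
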