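import Pool.Graph.R_seed8.H548R2.Post.Main

set_option autoImplicit false

/-!
The construction behind the gluing theorem: guesses `m` at a set in the degree of the oracle, each
with its column; finite injury for the remaining requirements.
-/

namespace Pool.Agent.Helper88.GL

open Encodable Pool.Agent.Helper227 Pool.Agent.H548R2.Post
open Nat.Partrec (Code)

/-- The prefix of length `t` of the join of the oracle with the finite set of the members of `a`. -/
def pJ (τ : List Bool) (a : List ℕ) (t : ℕ) : List Bool :=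
  (List.range t).map fun i => if i % 2 = 0 then τ.getD (i / 2) false else decide (i / 2 ∈ a)

/-- `z` is enumerated in the `e`-th set within `τ.length` steps, for the oracle `τ`. -/
def en (e z : ℕ) (τ : List Bool) : Prop :=
  ∃ t < τ.length + 1, hlt τ.length e z (τ.take t) = true

/-- `z` respects the restraint of the `n`-th lowness requirement. -/
def ok (τ : List Bool) (a : List ℕ) (n z : ℕ) : Prop :=
  (∃ t < τ.length + 1, hlt τ.length n n (pJ τ a t) = true) →
    ∃ t < τ.length + 1, t ≤ z ∧ hlt τ.length n n (pJ τ a t) = true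

/-- `z` may be put into the set. -/
def good (ev : ℕ → List Bool → Prop) (F : ℕ → ℕ → List Bool → Prop) (τ : List Bool) (a : List ℕ)
    (z : ℕ) : Prop :=
  (z.unpair.1 % 2 = 0 ∧ F (z.unpair.1 / 2) z.unpair.2 τ ∧ ∀ n < z.unpair.1, ok τ a n z) ∨
  (∃ m < z.unpair.1, 2 * m < z.unpair.1 ∧ ev m τ ∧ ∀ n < 2 * m, ok τ a n z) ∨
  (z.unpair.1 % 2 = 1 ∧ en (z.unpair.1 / 2) z τ ∧ (∀ w ∈ a, ¬ en (z.unpair.1 / 2) w τ) ∧
    ∀ n < z.unpair.1, ok τ a n z)

open Classical in
/-- The elements put in at the stage `τ.length`. -/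
noncomputable def stp (ev : ℕ → List Bool → Prop) (F : ℕ → ℕ → List Bool → Prop) (τ : List Bool)
    (a : List ℕ) : List ℕ :=
  (List.range τ.length).filterMap fun z => if good ev F τ a z then some z else none

/-- The elements put in before stage `s`. -/
noncomputable def As (ev : ℕ → List Bool → Prop) (F : ℕ → ℕ → List Bool → Prop)
    (X : ℕ → Bool) : ℕ → List ℕ
  | 0 => []
  | s + 1 => As ev F X s ++ stp ev F (pre X s) (As ev F X s)

noncomputable def tb (ev : ℕ → List Bool → Prop) (F : ℕ → ℕ → List Bool → Prop)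
    (σ : List Bool) : ℕ → List ℕ
  | 0 => []
  | s + 1 => tb ev F σ s ++ stp ev F (σ.take s) (tb ev F σ s)

open Classical in
/-- The operator. -/
noncomputable def WZ (ev : ℕ → List Bool → Prop) (F : ℕ → ℕ → List Bool → Prop)
    (X : ℕ → Bool) : ℕ → Bool :=
  fun m => if m % 2 = 0 then X (m / 2) else decide (∃ s, m / 2 ∈ As ev F X s)

variable {ev : ℕ → List Bool → Prop} {F : ℕ → ℕ → List Bool → Prop} {X : ℕ → Bool}

theorem tb_pre {n s : ℕ} (h : s ≤ n) : tb ev F (pre X n) s = As ev F X s := by
  induction s with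
  | zero => rfl
  | succ s ih =>
    rw [tb, As, ih (by omega), take_pre X n s (by omega)]

theorem mem_stp {τ : List Bool} {a : List ℕ} {z : ℕ} :
    z ∈ stp ev F τ a ↔ z < τ.length ∧ good ev F τ a z := by
  unfold stp
  rw [List.mem_filterMap]
  constructor
  · rintro ⟨y, hy, h⟩
    split_ifs at h with hg
    · cases h
      exact ⟨List.mem_range.1 hy, hg⟩
  · rintro ⟨h1, h2⟩
    exact ⟨z, List.mem_range.2 h1, by rw [if_pos h2]⟩

theorem mem_As_succ {s z : ℕ} : z ∈ As ev F X (s + 1) ↔
    z ∈ As ev F X s ∨ (z < s ∧ good ev F (pre X s) (As ev F X s) z) := by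
  rw [As, List.mem_append, mem_stp, length_pre]

theorem As_mono {s s' : ℕ} (h : s ≤ s') {z : ℕ} (hz : z ∈ As ev F X s) : z ∈ As ev F X s' := by
  induction s', h using Nat.le_induction with
  | base => exact hz
  | succ s' _ ih => exact mem_As_succ.2 (Or.inl ih)

theorem lt_of_mem_As {s z : ℕ} (hz : z ∈ As ev F X s) : z < s := by
  induction s with
  | zero => simp [As] at hz
  | succ s ih =>
    rcases mem_As_succ.1 hz with h | h
    · exact (ih h).trans (Nat.lt_succ_self s)
    · exact h.1.trans (Nat.lt_succ_self s)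

theorem pJ_pre {s t : ℕ} (a : List ℕ) (h : t ≤ s) : pJ (pre X s) a t = pre (jn X a) t := by
  unfold pJ pre
  refine List.map_congr_left fun i hi => ?_
  have hi' := List.mem_range.1 hi
  unfold jn
  by_cases h2 : i % 2 = 0
  · rw [if_pos h2, if_pos h2]
    exact pre_getD X s (i / 2) false (by omega)
  · rw [if_neg h2, if_neg h2]

end Pool.Agent.Helper88.GL
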