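import Pool.Agent.Helper99.GL.FSpec

/-!
Part F12 of the swarm GL: a contracting loop around a singular point at infinity.
-/

set_option autoImplicit false

open Metric Set Filter Topology

namespace Pool.GL.H88

/-- local form of `a_0 / b_0` near a root of `b_0` -/
theorem local_form (I : Inf) (hI : I.Good) (s₁ : ℂ) (hs₁ : (I.b 0).eval s₁ = 0) :
    ∃ r > 0, ∃ G : ℂ → ℂ, ∃ l : ℂ, l.im ≠ 0 ∧
      (∀ s ∈ ball s₁ r, s ≠ s₁ → (I.b 0).eval s ≠ 0) ∧
      ∀ s ∈ ball s₁ r, ∃ g : ℂ, HasDerivAt G g s ∧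
        (s ≠ s₁ → (I.a 0).eval s / (I.b 0).eval s = l / (s - s₁) + g) := by
  obtain ⟨hd1, hd2⟩ := hI.hyp s₁ hs₁
  obtain ⟨q, hq⟩ := Polynomial.dvd_iff_isRoot.2 (show (I.b 0).IsRoot s₁ from hs₁)
  have hq1 : (Polynomial.derivative (I.b 0)).eval s₁ = q.eval s₁ := by
    rw [hq]
    simp
  have hq0 : q.eval s₁ ≠ 0 := by rw [← hq1]; exact hd1
  set l : ℂ := (I.a 0).eval s₁ / q.eval s₁ with hl
  obtain ⟨m, hm⟩ := Polynomial.dvd_iff_isRoot.2
    (show (I.a 0 - Polynomial.C l * q).IsRoot s₁ by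
      simp only [Polynomial.IsRoot, Polynomial.eval_sub, Polynomial.eval_mul, Polynomial.eval_C]
      rw [hl]; field_simp; ring)
  have hcont : ContinuousAt (fun s => q.eval s) s₁ := q.continuous.continuousAt
  obtain ⟨r, hr, hball⟩ := Metric.eventually_nhds_iff_ball.1 (hcont.eventually_ne hq0)
  have hdiff : DifferentiableOn ℂ (fun s => m.eval s / q.eval s) (ball s₁ r) := by
    intro s hs
    exact ((m.differentiable s).div (q.differentiable s) (hball s hs)).differentiableWithinAt
  obtain ⟨G, hG⟩ := hdiff.isExactOn_ball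
  refine ⟨r, hr, G, l, ?_, ?_, ?_⟩
  · rw [hl, ← hq1]; exact hd2
  · intro s hs hne
    rw [hq, Polynomial.eval_mul]
    simp only [Polynomial.eval_sub, Polynomial.eval_X, Polynomial.eval_C]
    exact mul_ne_zero (sub_ne_zero.2 hne) (hball s hs)
  · intro s hs
    refine ⟨m.eval s / q.eval s, hG s hs, fun hne => ?_⟩
    have e1 : (I.a 0).eval s = l * q.eval s + (s - s₁) * m.eval s := by
      have := congrArg (fun p => Polynomial.eval s p) hm
      simp only [Polynomial.eval_sub, Polynomial.eval_mul, Polynomial.eval_C,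
        Polynomial.eval_X] at this
      linear_combination this
    have e2 : (I.b 0).eval s = (s - s₁) * q.eval s := by
      rw [hq]; simp
    rw [e1, e2]
    have h1 : s - s₁ ≠ 0 := sub_ne_zero.2 hne
    have h2 : q.eval s ≠ 0 := hball s hs
    field_simp

/-- a chain of steps with a potential for the multipliers -/
theorem chain (hTR1 : S_TR1) (I : Inf) (a : ℕ → ℂ) (P : ℕ → ℂ) (hOm : ∀ k, a k ∈ I.Om)
    (hstep : ∀ k, ∃ h : ℂ → ℂ, I.Tr (a k) (a (k + 1)) h ∧
      deriv h 0 = Complex.exp (P (k + 1) - P k)) :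
    ∀ n k : ℕ, ∃ c : ℂ → ℂ, I.Hol n (a k) (a (k + n)) c ∧ DifferentiableAt ℂ c 0 ∧ c 0 = 0 ∧
      deriv c 0 = Complex.exp (P (k + n) - P k) := by
  intro n
  induction n with
  | zero =>
    intro k
    refine ⟨fun z => z, ?_, differentiableAt_id, rfl, ?_⟩
    · exact Inf.Hol.nil (a k) _ (hOm k) (Eventually.of_forall fun z => rfl)
    · simp
  | succ n ih =>
    intro k
    obtain ⟨h, hh, hd⟩ := hstep k
    obtain ⟨c, hc, hcd, hc0, hcm⟩ := ih (k + 1)
    obtain ⟨han, h0, -, -⟩ := hTR1 I _ _ _ hh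
    have e : k + 1 + n = k + (n + 1) := by ring
    rw [e] at hc hcm
    refine ⟨fun z => c (h z), ?_, ?_, ?_, ?_⟩
    · exact Inf.Hol.cons n (a k) (a (k + 1)) _ h c _ hh hc (Eventually.of_forall fun z => rfl)
    · have : DifferentiableAt ℂ c (h 0) := by rw [h0]; exact hcd
      exact this.comp 0 han.differentiableAt
    · simp only [h0, hc0]
    · have h1 : HasDerivAt c (deriv c 0) (h 0) := by rw [h0]; exact hcd.hasDerivAt
      have h2 := h1.comp (0 : ℂ) han.differentiableAt.hasDerivAt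
      have h3 : deriv (fun z => c (h z)) 0 = deriv c 0 * deriv h 0 := h2.deriv
      rw [h3, hcm, hd, ← Complex.exp_add]
      congr 1
      ring

theorem CONTR (hLOC : S_LOC) (hTR1 : S_TR1) : S_CONTR := by
  intro I hI
  have hb0 : I.b 0 ≠ 0 := by
    intro h
    apply hI.lead
    rw [h]; simp
  have hdeg : (I.b 0).degree ≠ 0 := by
    have h1 : I.d + 1 ≤ (I.b 0).natDegree := Polynomial.le_natDegree_of_ne_zero hI.lead
    intro h
    rw [Polynomial.degree_eq_natDegree hb0] at h
    have : (I.b 0).natDegree = 0 := by exact_mod_cast h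
    omega
  obtain ⟨s₁, hs₁⟩ := IsAlgClosed.exists_root (I.b 0) hdeg
  obtain ⟨r, hr, G, l, hl, hne, hG⟩ := local_form I hI s₁ hs₁
  -- the sign
  obtain ⟨σ, hσ, hσ2⟩ : ∃ σ : ℝ, 0 < σ * l.im ∧ (σ = 1 ∨ σ = -1) := by
    rcases lt_or_gt_of_ne hl with h | h
    · exact ⟨-1, by linarith, Or.inr rfl⟩
    · exact ⟨1, by linarith, Or.inl rfl⟩
  set ρ : ℝ := r / 2 with hρ
  have hρ0 : 0 < ρ := by positivity
  obtain ⟨η, hη, δ, hδ, hloc⟩ := hLOC I (sphere s₁ ρ) (isCompact_sphere s₁ ρ) (by
    intro s hs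
    have hs' : dist s s₁ = ρ := hs
    refine hne s ?_ ?_
    · rw [mem_ball, hs']; rw [hρ]; linarith
    · intro h
      rw [h, dist_self] at hs'
      linarith)
  -- the number of steps
  have hlim : Tendsto (fun N : ℕ => ρ * ‖Complex.exp (2 * Real.pi * Complex.I * σ / N) - 1‖) atTop
      (𝓝 0) := by
    have h1 : Tendsto (fun N : ℕ => (2 * Real.pi * Complex.I * σ / N : ℂ)) atTop (𝓝 0) :=
      tendsto_const_div_atTop_nhds_zero_nat _
    have h2 : Tendsto (fun N : ℕ => Complex.exp (2 * Real.pi * Complex.I * σ / N)) atTop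
        (𝓝 (Complex.exp 0)) := (Complex.continuous_exp.tendsto 0).comp h1
    have h3 := ((h2.sub_const 1).norm).const_mul ρ
    simpa using h3
  obtain ⟨N, hN1, hN2, hN3⟩ : ∃ N : ℕ, ρ * ‖Complex.exp (2 * Real.pi * Complex.I * σ / N) - 1‖
      < η / 96 ∧ ρ * ‖Complex.exp (2 * Real.pi * Complex.I * σ / N) - 1‖ < ρ / 2 ∧ 3 ≤ N := by
    have e1 := hlim.eventually (gt_mem_nhds (show (0 : ℝ) < η / 96 by positivity))
    have e2 := hlim.eventually (gt_mem_nhds (show (0 : ℝ) < ρ / 2 by positivity))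
    obtain ⟨N, hN⟩ := (e1.and (e2.and (eventually_ge_atTop 3))).exists
    exact ⟨N, hN.1, hN.2.1, hN.2.2⟩
  set w : ℂ := Complex.exp (2 * Real.pi * Complex.I * σ / N) with hw
  have hNpos : (0 : ℝ) < N := by
    have : (3 : ℝ) ≤ N := by exact_mod_cast hN3
    linarith
  have hNne : (N : ℂ) ≠ 0 := by
    exact_mod_cast (by positivity : (N : ℝ) ≠ 0)
  have hwn : ‖w‖ = 1 := by
    rw [hw, Complex.norm_exp]
    have : (2 * Real.pi * Complex.I * σ / N : ℂ).re = 0 := by
      have e : (2 * Real.pi * Complex.I * σ / N : ℂ) = ((2 * Real.pi * σ / N : ℝ) : ℂ) * Complex.I := by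
        push_cast; ring
      rw [e]; simp
    rw [this, Real.exp_zero]
  have hlogw : Complex.log w = 2 * Real.pi * Complex.I * σ / N := by
    have e : (2 * Real.pi * Complex.I * σ / N : ℂ) = ((2 * Real.pi * σ / N : ℝ) : ℂ) * Complex.I := by
      push_cast; ring
    have hσabs : |σ| = 1 := by rcases hσ2 with h | h <;> rw [h] <;> simp
    have hsmall : |2 * Real.pi * σ / N| < Real.pi := by
      rw [abs_div, abs_mul, hσabs, abs_of_pos hNpos, abs_of_pos (by positivity), mul_one,
        div_lt_iff₀ hNpos]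
      have : (3 : ℝ) ≤ N := by exact_mod_cast hN3
      nlinarith [Real.pi_pos]
    rw [hw, Complex.log_exp]
    · rw [e]
      simp only [Complex.mul_im, Complex.ofReal_re, Complex.I_im, Complex.ofReal_im, Complex.I_re]
      have := (abs_lt.1 hsmall).1
      linarith
    · rw [e]
      simp only [Complex.mul_im, Complex.ofReal_re, Complex.I_im, Complex.ofReal_im, Complex.I_re]
      have := (abs_lt.1 hsmall).2
      linarith
  have hwN : w ^ N = 1 := by
    rw [hw, ← Complex.exp_nat_mul]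
    have e : (N : ℂ) * (2 * Real.pi * Complex.I * σ / N) = 2 * Real.pi * Complex.I * σ := by
      field_simp
    rw [e]
    rcases hσ2 with h | h
    · rw [h]
      have : (2 * Real.pi * Complex.I * ((1 : ℝ) : ℂ) : ℂ) = 2 * Real.pi * Complex.I := by
        push_cast; ring
      rw [this, Complex.exp_two_pi_mul_I]
    · rw [h]
      have : (2 * Real.pi * Complex.I * ((-1 : ℝ) : ℂ) : ℂ) = -(2 * Real.pi * Complex.I) := by
        push_cast; ring
      rw [this, Complex.exp_neg, Complex.exp_two_pi_mul_I, inv_one]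
  -- the points
  set a : ℕ → ℂ := fun k => s₁ + ρ * w ^ k with ha
  have hadist : ∀ k, dist (a k) s₁ = ρ := by
    intro k
    rw [dist_eq_norm, ha]
    simp only [add_sub_cancel_left, norm_mul, norm_pow, hwn, one_pow, mul_one]
    rw [Complex.norm_real, Real.norm_of_nonneg hρ0.le]
  have hρr : ρ < r := by rw [hρ]; linarith
  have haball : ∀ k, a k ∈ ball s₁ r := fun k => by
    rw [mem_ball, hadist k]; exact hρr
  have hane : ∀ k, a k ≠ s₁ := fun k h => by
    have := hadist k
    rw [h, dist_self] at this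
    linarith
  have hasub : ∀ k, a (k + 1) - a k = ρ * w ^ k * (w - 1) := by
    intro k
    simp only [ha]
    ring
  have hastep : ∀ k, ‖a (k + 1) - a k‖ = ρ * ‖w - 1‖ := by
    intro k
    rw [hasub, norm_mul, norm_mul, norm_pow, hwn, one_pow, mul_one, Complex.norm_real,
      Real.norm_of_nonneg hρ0.le]
  set P : ℕ → ℂ := fun k => l * (2 * Real.pi * Complex.I * σ / N) * k + G (a k) with hP
  have hstep : ∀ k, ∃ h : ℂ → ℂ, I.Tr (a k) (a (k + 1)) h ∧
      deriv h 0 = Complex.exp (P (k + 1) - P k) := by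
    intro k
    obtain ⟨ζ, hζ⟩ := hloc (a k) (hadist k)
    obtain ⟨ζ', hζ'⟩ := hloc (a (k + 1)) (hadist (k + 1))
    have htr : I.Tr (a k) (a (k + 1)) (ζ (a (k + 1))) :=
      ⟨η, δ, ζ, hζ, ⟨δ, ζ', hζ'⟩, by rw [hastep]; exact hN1, Eventually.of_forall fun z => rfl⟩
    refine ⟨_, htr, ?_⟩
    obtain ⟨-, -, -, hE⟩ := hTR1 I _ _ _ htr
    have hak : a k - s₁ ≠ 0 := sub_ne_zero.2 (hane k)
    have hE' := hE (fun s => l * Complex.log ((s - s₁) / (a k - s₁)) + G s) ?_
    · rw [hE']
      congr 1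
      have e1 : (a (k + 1) - s₁) / (a k - s₁) = w := by
        rw [div_eq_iff hak]
        simp only [ha]
        ring
      simp only [e1, div_self hak, Complex.log_one, hlogw, hP]
      push_cast
      ring
    · intro s hs
      -- s in the ball and the log argument in the slit plane
      have hs1 : ‖s - a k‖ ≤ ρ * ‖w - 1‖ := by
        obtain ⟨t, ht, rfl⟩ := (segment_eq_image' ℝ (a k) (a (k + 1))) ▸ hs
        have : a k + t • (a (k + 1) - a k) - a k = t • (a (k + 1) - a k) := by ring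
        rw [this, norm_smul, hastep, Real.norm_of_nonneg ht.1]
        have h0 : 0 ≤ ρ * ‖w - 1‖ := by positivity
        nlinarith [ht.2]
      have hs2 : ‖s - a k‖ < ρ / 2 := lt_of_le_of_lt hs1 hN2
      have hsball : s ∈ ball s₁ r := by
        rw [mem_ball]
        calc dist s s₁ ≤ dist s (a k) + dist (a k) s₁ := dist_triangle _ _ _
          _ < ρ / 2 + ρ := by rw [hadist, dist_eq_norm]; linarith
          _ ≤ r := by rw [hρ]; linarith
      have hsne : s ≠ s₁ := by
        intro h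
        rw [h] at hs2
        have : ‖s₁ - a k‖ = ρ := by rw [← dist_eq_norm, dist_comm]; exact hadist k
        rw [this] at hs2
        linarith
      have hslit : (s - s₁) / (a k - s₁) ∈ Complex.slitPlane := by
        have e : (s - s₁) / (a k - s₁) = 1 + (s - a k) / (a k - s₁) := by
          field_simp
          ring
        rw [e]
        apply Complex.mem_slitPlane_of_norm_lt_one
        rw [norm_div]
        have : ‖a k - s₁‖ = ρ := by rw [← dist_eq_norm]; exact hadist k
        rw [this, div_lt_one hρ0]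
        linarith
      obtain ⟨g, hg1, hg2⟩ := hG s hsball
      have hd1 : HasDerivAt (fun s : ℂ => (s - s₁) / (a k - s₁)) (1 / (a k - s₁)) s :=
        ((hasDerivAt_id s).sub_const s₁).div_const _
      have hd2 := (hd1.clog hslit).const_mul l
      have hd3 := hd2.add hg1
      rw [hg2 hsne]
      refine hd3.congr_deriv ?_
      have : s - s₁ ≠ 0 := sub_ne_zero.2 hsne
      field_simp
  obtain ⟨c, hc, hcd, hc0, hcm⟩ := chain hTR1 I a P
    (fun k => hne (a k) (haball k) (hane k)) hstep N 0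
  have haN : a (0 + N) = a 0 := by
    simp only [ha, zero_add, hwN, pow_zero]
  rw [haN] at hc
  refine ⟨a 0, N, c, hc, ?_⟩
  rw [hcm, Complex.norm_exp]
  rw [Real.exp_lt_one_iff]
  have e : P (0 + N) - P 0 = l * (2 * Real.pi * Complex.I * σ) := by
    simp only [hP, haN]
    rw [zero_add]
    have : l * (2 * ↑Real.pi * Complex.I * ↑σ / ↑N) * (N : ℂ) = l * (2 * ↑Real.pi * Complex.I * ↑σ) := by
      field_simp
    rw [this]
    push_cast
    ring
  rw [e]
  have e2 : l * (2 * Real.pi * Complex.I * σ) = ((2 * Real.pi * σ : ℝ) : ℂ) * (l * Complex.I) := by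
    push_cast; ring
  rw [e2, Complex.re_ofReal_mul, Complex.mul_I_re]
  have := Real.pi_pos
  nlinarith

end Pool.GL.H88
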