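import Pool.Agent.Helper88.GL.Hier
import Pool.Agent.Helper88.GL.Cat

set_option autoImplicit false

namespace Pool.Agent.Helper88.GL

open Encodable Pool.Agent.Helper227 Pool.Agent.H548R2.Post MeasureTheory
open scoped ENNReal
open Nat.Partrec (Code)

theorem exists_hier {r : ℕ → ℕ → Prop} (hw : WellFounded r) : ∃ J, IsHier r J := by
  classical
  let G : (b : ℕ) → ((c : ℕ) → r c b → ℕ → Bool) → ℕ → Bool := fun b ih z =>
    if h : r z.unpair.1 b then jump (ih z.unpair.1 h) z.unpair.2 else false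
  refine ⟨hw.fix G, fun b c x => ?_⟩
  rw [hw.fix_eq]
  show (if h : r (Nat.pair c x).unpair.1 b then
    jump (hw.fix G (Nat.pair c x).unpair.1) (Nat.pair c x).unpair.2 else false) = true ↔ _
  have e1 : (Nat.unpair (Nat.pair c x)).1 = c := by simp
  by_cases h : r c b
  · simp only [Nat.unpair_pair, h, dite_true, true_and]
    rw [Bool.eq_iff_iff.1 (congrArg (fun a => jump (hw.fix G a) x) e1)]
  · simp [h]

/-- The pair `P` of conditions on a relation: it is a `Σ⁰₃` selection of indices that satisfy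
condition (i) at the set, coherently on each degree. -/
def PartSol (P : (ℕ → Bool) → ℕ → Prop) : Prop :=
  Sg3 P ∧ (∀ X v, P X v → Btw v X) ∧
    ∀ X v Y w, P X v → P Y w → TEq X Y → TEq (chr (WE X v)) (chr (WE Y w))

/-- `e` is a degree invariant solution to Post's problem. -/
def Sol (e : ℕ) : Prop :=
  ∀ X, Btw e X ∧ ∀ Y, TEq X Y → TEq (chr (WE X e)) (chr (WE Y e))

theorem sg3_const (e : ℕ) : Sg3 fun _ v => v = e := by
  refine ⟨fun x => x.1.2.2 = e, (S1.of_prim (Primrec.eq.comp (Primrec.snd.comp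
    (Primrec.snd.comp Primrec.fst)) (Primrec.const e))).re, fun X v => ?_⟩
  simp

theorem sg3c_univ : Sg3c fun _ => True := by
  refine ⟨fun _ => True, (S1.of_prim (PP.const True)).re, fun X => ?_⟩
  simp

theorem not_meagre_univ : ¬ IsMeagre (Set.univ : Set (ℕ → Bool)) :=
  not_isMeagre_of_isOpen isOpen_univ Set.univ_nonempty

theorem tfae : List.TFAE [
    ∃ e, Sol e,
    ∃ (e : ℕ) (S : (ℕ → Bool) → Prop), Sg3c S ∧ ¬ IsMeagre {X | S X} ∧ (∀ X, S X → Btw e X) ∧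
      ∀ X Y, S X → S Y → TEq X Y → TEq (chr (WE X e)) (chr (WE Y e)),
    ∃ P : (ℕ → Bool) → ℕ → Prop, PartSol P ∧
      ¬ IsMeagre {Y : ℕ → Bool | ∃ X v, P X v ∧ TEq X Y}] := by
  tfae_have 1 → 2 := by
    rintro ⟨e, he⟩
    refine ⟨e, fun _ => True, sg3c_univ, ?_, fun X _ => (he X).1, fun X Y _ _ h => (he X).2 Y h⟩
    have h1 : {X : ℕ → Bool | True} = Set.univ := by
      ext X
      simp
    rw [h1]
    exact not_meagre_univ
  tfae_have 2 → 3 := by
    rintro ⟨e, S, hS, hN, h1, h2⟩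
    refine ⟨fun X v => S X ∧ v = e, ⟨sg3_of_class hS e, ?_, ?_⟩, fun h => hN (h.mono ?_)⟩
    · rintro X v ⟨hX, rfl⟩
      exact h1 X hX
    · rintro X v Y w ⟨hX, rfl⟩ ⟨hY, rfl⟩ hXY
      exact h2 X Y hX hY hXY
    · intro X hX
      exact ⟨X, e, ⟨hX, rfl⟩, TEq.refl X⟩
  tfae_have 3 → 1 := by
    rintro ⟨P, ⟨hP, hB, hC⟩, hN⟩
    obtain ⟨e, h1, h2, -⟩ := gluing hP hB hC
    refine ⟨e, fun X => ⟨h1 X, fun Y hXY => ?_⟩⟩
    obtain ⟨Z, v, hZ, hZX⟩ := meets_all hP hN X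
    exact (h2 Z v X hZ hZX).tr (h2 Z v Y hZ (hZX.tr hXY)).symm
  tfae_finish

end Pool.Agent.Helper88.GL
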