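import Pool.Agent.Helper88.GL.Guess

set_option autoImplicit false

namespace Pool.Agent.Helper88.GL

open Encodable Pool.Agent.Helper227 Pool.Agent.H548R2.Post
open Nat.Partrec (Code)

theorem ui_WE : UI fun Y (x : ℕ × ℕ) => x.2 ∈ WE Y x.1 := by
  refine ⟨fun x => ∃ k : ℕ, k ≤ x.1.length ∧
    ((Denumerable.ofNat Code x.2.1).eval (encode (x.1.take k, x.2.2))).Dom, ?_, ?_, ?_⟩
  · refine S1.ex (p := fun (x : List Bool × (ℕ × ℕ)) (k : ℕ) => k ≤ x.1.length ∧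
      ((Denumerable.ofNat Code x.2.1).eval (encode (x.1.take k, x.2.2))).Dom)
      (S1.and (S1.of_prim ?_) ?_)
    · exact Primrec.nat_le.comp Primrec.snd (Primrec.list_length.comp
        (Primrec.fst.comp Primrec.fst))
    · exact S1.comp (f := fun x : (List Bool × (ℕ × ℕ)) × ℕ =>
        (Denumerable.ofNat Code x.1.2.1, encode (x.1.1.take x.2, x.1.2.2))) s1_eval
        (((Primrec.ofNat Code).comp (Primrec.fst.comp (Primrec.snd.comp Primrec.fst))).pair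
          (Primrec.encode.comp ((Primrec.list_take.comp Primrec.snd
            (Primrec.fst.comp Primrec.fst)).pair (Primrec.snd.comp
              (Primrec.snd.comp Primrec.fst)))))
  · rintro σ τ a ⟨ρ, rfl⟩ ⟨k, hk, h⟩
    refine ⟨k, by simp only [List.length_append]; simp only at hk; omega, ?_⟩
    simp only at hk h ⊢
    rwa [List.take_append_of_le_length hk]
  · intro B a
    simp only [length_pre]
    constructor
    · rintro ⟨k, hk⟩
      refine ⟨k, k, le_rfl, ?_⟩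
      rw [take_pre B k k le_rfl]
      exact hk
    · rintro ⟨s, k, hk, h⟩
      rw [take_pre B s k hk] at h
      exact ⟨k, h⟩

/-- `σ` is a prefix of the set whose graph is enumerated by the `i`-th operator -/
def PX (Y : ℕ → Bool) (i : ℕ) (σ : List Bool) : Prop :=
  ∀ n < σ.length, encode (n, σ.getD n false) ∈ WE Y i

/-- `z` belongs to the `e`-th set c.e. in that set -/
def HX (Y : ℕ → Bool) (i e z : ℕ) : Prop :=
  ∃ σ : List Bool, PX Y i σ ∧ ((Denumerable.ofNat Code e).eval (encode (σ, z))).Dom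

theorem ui_PX : UI fun Y (x : ℕ × List Bool) => PX Y x.1 x.2 := by
  unfold PX
  refine UI.all_lt (p := fun Y (x : ℕ × List Bool) (n : ℕ) =>
    encode (n, x.2.getD n false) ∈ WE Y x.1) (f := fun x : ℕ × List Bool => x.2.length) ?_
    (Primrec.list_length.comp Primrec.snd)
  exact ui_WE.comp (f := fun y : (ℕ × List Bool) × ℕ =>
    (y.1.1, encode (y.2, y.1.2.getD y.2 false)))
    (Primrec.pair (Primrec.fst.comp Primrec.fst) (Primrec.encode.comp
      (Primrec.pair Primrec.snd ((Primrec.list_getD false).comp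
        (Primrec.snd.comp Primrec.fst) Primrec.snd))))

theorem ui_HX : UI fun Y (x : ℕ × ℕ × ℕ) => HX Y x.1 x.2.1 x.2.2 := by
  unfold HX
  refine UI.ex (p := fun Y (x : ℕ × ℕ × ℕ) (σ : List Bool) => PX Y x.1 σ ∧
    ((Denumerable.ofNat Code x.2.1).eval (encode (σ, x.2.2))).Dom) (UI.and ?_ ?_)
  · exact ui_PX.comp (f := fun y : (ℕ × ℕ × ℕ) × List Bool => (y.1.1, y.2))
      (Primrec.pair (Primrec.fst.comp Primrec.fst) Primrec.snd)
  · refine UI.of_s1 ?_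
    exact S1.comp (f := fun x : (ℕ × ℕ × ℕ) × List Bool =>
        (Denumerable.ofNat Code x.1.2.1, encode (x.2, x.1.2.2))) s1_eval
        (((Primrec.ofNat Code).comp (Primrec.fst.comp (Primrec.snd.comp Primrec.fst))).pair
          (Primrec.encode.comp (Primrec.snd.pair (Primrec.snd.comp
            (Primrec.snd.comp Primrec.fst)))))

/-- The guess `(i, j, k, v)`: the `i`-th operator enumerates the graph of a set `X` in the degree
of `Y`, as is witnessed by the `j`-th operator, and `k` witnesses that `P X v`. -/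
def TT (E : (ℕ × ℕ × ℕ) × List Bool → Prop) (Y : ℕ → Bool) (x : ℕ × ℕ × ℕ × ℕ) : Prop :=
  (∀ n : ℕ, ¬ (encode (n, false) ∈ WE Y x.1 ∧ encode (n, true) ∈ WE Y x.1)) ∧
  (∀ n : ℕ, ∃ b : Bool, encode (n, b) ∈ WE Y x.1) ∧
  (∀ n : ℕ, ∃ b : Bool, Y n = b ∧ HX Y x.1 x.2.1 (encode (n, b))) ∧
  (∀ n : ℕ, ¬ ∃ b : Bool, Y n = (!b) ∧ HX Y x.1 x.2.1 (encode (n, b))) ∧
  (∀ a : ℕ, ∃ σ : List Bool, PX Y x.1 σ ∧ E ((x.2.2.1, a, x.2.2.2), σ))

theorem pi2_TT {E : (ℕ × ℕ × ℕ) × List Bool → Prop} (hE : REPred E) :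
    PI2 fun Y (x : ℕ × ℕ × ℕ × ℕ) => TT E Y x := by
  unfold TT
  have k1 : Primrec fun y : (ℕ × ℕ × ℕ × ℕ) × ℕ => y.1.1 := Primrec.fst.comp Primrec.fst
  have k2 : Primrec fun y : ((ℕ × ℕ × ℕ × ℕ) × ℕ) × Bool => y.1.1.1 :=
    Primrec.fst.comp (Primrec.fst.comp Primrec.fst)
  have k3 : Primrec fun y : ((ℕ × ℕ × ℕ × ℕ) × ℕ) × Bool => y.1.1.2.1 :=
    Primrec.fst.comp (Primrec.snd.comp (Primrec.fst.comp Primrec.fst))
  have k4 : Primrec fun y : ((ℕ × ℕ × ℕ × ℕ) × ℕ) × Bool => encode (y.1.2, y.2) :=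
    Primrec.encode.comp (Primrec.pair (Primrec.snd.comp Primrec.fst) Primrec.snd)
  refine PI2.and ?_ (PI2.and ?_ (PI2.and ?_ (PI2.and ?_ ?_)))
  · refine PI2.all (p := fun Y (x : ℕ × ℕ × ℕ × ℕ) (n : ℕ) =>
      ¬ (encode (n, false) ∈ WE Y x.1 ∧ encode (n, true) ∈ WE Y x.1)) (PI2.not (UI.and ?_ ?_))
    · exact ui_WE.comp (f := fun y : (ℕ × ℕ × ℕ × ℕ) × ℕ => (y.1.1, encode (y.2, false)))
        (Primrec.pair k1 (Primrec.encode.comp (Primrec.pair Primrec.snd (Primrec.const false))))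
    · exact ui_WE.comp (f := fun y : (ℕ × ℕ × ℕ × ℕ) × ℕ => (y.1.1, encode (y.2, true)))
        (Primrec.pair k1 (Primrec.encode.comp (Primrec.pair Primrec.snd (Primrec.const true))))
  · refine PI2.all (p := fun Y (x : ℕ × ℕ × ℕ × ℕ) (n : ℕ) =>
      ∃ b : Bool, encode (n, b) ∈ WE Y x.1) (PI2.of_ui (UI.ex
        (p := fun Y (x : (ℕ × ℕ × ℕ × ℕ) × ℕ) (b : Bool) => encode (x.2, b) ∈ WE Y x.1.1) ?_))
    exact ui_WE.comp (f := fun y : ((ℕ × ℕ × ℕ × ℕ) × ℕ) × Bool =>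
      (y.1.1.1, encode (y.1.2, y.2))) (Primrec.pair k2 k4)
  · refine PI2.all (p := fun Y (x : ℕ × ℕ × ℕ × ℕ) (n : ℕ) =>
      ∃ b : Bool, Y n = b ∧ HX Y x.1 x.2.1 (encode (n, b))) (PI2.of_ui (UI.ex
        (p := fun Y (x : (ℕ × ℕ × ℕ × ℕ) × ℕ) (b : Bool) =>
          Y x.2 = b ∧ HX Y x.1.1 x.1.2.1 (encode (x.2, b))) (UI.and ?_ ?_)))
    · exact UI.query.comp (f := fun y : ((ℕ × ℕ × ℕ × ℕ) × ℕ) × Bool => (y.1.2, y.2))
        (Primrec.pair (Primrec.snd.comp Primrec.fst) Primrec.snd)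
    · exact ui_HX.comp (f := fun y : ((ℕ × ℕ × ℕ × ℕ) × ℕ) × Bool =>
        (y.1.1.1, y.1.1.2.1, encode (y.1.2, y.2))) (Primrec.pair k2 (Primrec.pair k3 k4))
  · refine PI2.all (p := fun Y (x : ℕ × ℕ × ℕ × ℕ) (n : ℕ) =>
      ¬ ∃ b : Bool, Y n = (!b) ∧ HX Y x.1 x.2.1 (encode (n, b))) (PI2.not (UI.ex
        (p := fun Y (x : (ℕ × ℕ × ℕ × ℕ) × ℕ) (b : Bool) =>
          Y x.2 = (!b) ∧ HX Y x.1.1 x.1.2.1 (encode (x.2, b))) (UI.and ?_ ?_)))
    · exact UI.query.comp (f := fun y : ((ℕ × ℕ × ℕ × ℕ) × ℕ) × Bool => (y.1.2, !y.2))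
        (Primrec.pair (Primrec.snd.comp Primrec.fst) (Primrec.not.comp Primrec.snd))
    · exact ui_HX.comp (f := fun y : ((ℕ × ℕ × ℕ × ℕ) × ℕ) × Bool =>
        (y.1.1.1, y.1.1.2.1, encode (y.1.2, y.2))) (Primrec.pair k2 (Primrec.pair k3 k4))
  · refine PI2.all (p := fun Y (x : ℕ × ℕ × ℕ × ℕ) (a : ℕ) =>
      ∃ σ : List Bool, PX Y x.1 σ ∧ E ((x.2.2.1, a, x.2.2.2), σ)) (PI2.of_ui (UI.ex
        (p := fun Y (x : (ℕ × ℕ × ℕ × ℕ) × ℕ) (σ : List Bool) =>
          PX Y x.1.1 σ ∧ E ((x.1.2.2.1, x.2, x.1.2.2.2), σ)) (UI.and ?_ (UI.of_s1 ?_))))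
    · exact ui_PX.comp (f := fun y : ((ℕ × ℕ × ℕ × ℕ) × ℕ) × List Bool => (y.1.1.1, y.2))
        (Primrec.pair (Primrec.fst.comp (Primrec.fst.comp Primrec.fst)) Primrec.snd)
    · refine S1.comp (f := fun y : ((ℕ × ℕ × ℕ × ℕ) × ℕ) × List Bool =>
        ((y.1.1.2.2.1, y.1.2, y.1.1.2.2.2), y.2)) (S1.of_re hE) ?_
      have k5 : Primrec fun y : ((ℕ × ℕ × ℕ × ℕ) × ℕ) × List Bool => y.1.1.2.2 :=
        Primrec.snd.comp (Primrec.snd.comp (Primrec.fst.comp Primrec.fst))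
      exact Primrec.pair (Primrec.pair (Primrec.fst.comp k5)
        (Primrec.pair (Primrec.snd.comp Primrec.fst) (Primrec.snd.comp k5))) Primrec.snd

/-- the set with the graph enumerated by the `i`-th operator is determined -/
theorem TT_sound {E : (ℕ × ℕ × ℕ) × List Bool → Prop} {Y : ℕ → Bool} {i j k v : ℕ}
    (h : TT E Y (i, j, k, v)) : ∃ X : ℕ → Bool, TLe X Y ∧ TLe Y X ∧
      (∀ a, ∃ s, E ((k, a, v), pre X s)) ∧ ∀ e z, HX Y i e z ↔ z ∈ WE X e := by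
  classical
  obtain ⟨h1, h2, h3, h4, h5⟩ := h
  simp only at h1 h2 h3 h4 h5
  set X : ℕ → Bool := fun n => decide (encode (n, true) ∈ WE Y i) with hX
  have key : ∀ (n : ℕ) (b : Bool), encode (n, b) ∈ WE Y i ↔ X n = b := by
    intro n b
    cases b
    · rw [hX]
      simp only [decide_eq_false_iff_not]
      constructor
      · exact fun h6 h7 => h1 n ⟨h6, h7⟩
      · intro h6
        obtain ⟨b, hb⟩ := h2 n
        cases b
        · exact hb
        · exact absurd hb h6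
    · rw [hX]
      simp only [decide_eq_true_eq]
  have hPX : ∀ σ, PX Y i σ ↔ pre X σ.length = σ := by
    intro σ
    unfold PX
    constructor
    · exact fun h6 => t42_eq_pre fun n hn => (key _ _).1 (h6 n hn)
    · intro h6 n hn
      rw [key]
      conv_rhs => rw [← h6]
      rw [pre_getD X _ _ _ hn]
  have hHX : ∀ e z, HX Y i e z ↔ z ∈ WE X e := by
    intro e z
    unfold HX
    constructor
    · rintro ⟨σ, h6, h7⟩
      rw [← (hPX σ).1 h6] at h7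
      exact ⟨σ.length, h7⟩
    · rintro ⟨s, hs⟩
      exact ⟨pre X s, (hPX _).2 (by rw [length_pre]), hs⟩
  refine ⟨X, ?_, ?_, ?_, hHX⟩
  · rw [tLe_iff_SI]
    have h6 : SI Y fun x : ℕ × Bool => encode x ∈ WE Y i :=
      (si_WE Y).comp (f := fun x : ℕ × Bool => (i, encode x))
        ((Primrec.const i).pair Primrec.encode)
    exact h6.of_eq fun x => key x.1 x.2
  · rw [tLe_iff_SI]
    have h6 : SI X fun x : ℕ × Bool => encode x ∈ WE X j :=
      (si_WE X).comp (f := fun x : ℕ × Bool => (j, encode x))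
        ((Primrec.const j).pair Primrec.encode)
    refine h6.of_eq fun x => ?_
    obtain ⟨n, b⟩ := x
    rw [← hHX]
    simp only
    constructor
    · intro h7
      by_contra h8
      refine h4 n ⟨b, ?_, h7⟩
      cases hb : b <;> cases hy : Y n <;> simp_all
    · rintro rfl
      obtain ⟨b, hb, h7⟩ := h3 n
      rwa [hb]
  · intro a
    obtain ⟨σ, h6, h7⟩ := h5 a
    rw [← (hPX σ).1 h6] at h7
    exact ⟨_, h7⟩

theorem exists_graph {X Y : ℕ → Bool} (h : TLe X Y) :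
    ∃ i, ∀ (n : ℕ) (b : Bool), encode (n, b) ∈ WE Y i ↔ X n = b := by
  have h1 : SI Y fun x : ℕ × Bool => X x.1 = x.2 := tLe_iff_SI.1 h
  have h2 : SI Y fun z : ℕ => ∃ x : ℕ × Bool, z = encode x ∧ X x.1 = x.2 := by
    refine SI.ex (p := fun (z : ℕ) (x : ℕ × Bool) => z = encode x ∧ X x.1 = x.2) (SI.and ?_ ?_)
    · exact SI.of_prim (Primrec.eq.comp Primrec.fst (Primrec.encode.comp Primrec.snd))
    · exact h1.comp Primrec.snd
  obtain ⟨i, hi⟩ := ceIn_iff_exists_WE.1 (SI.iff_ceIn.2 h2 :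
    CEIn Y {z : ℕ | ∃ x : ℕ × Bool, z = encode x ∧ X x.1 = x.2})
  refine ⟨i, fun n b => ?_⟩
  rw [← hi]
  constructor
  · rintro ⟨x, hx, h3⟩
    have := encode_injective hx
    subst this
    exact h3
  · intro h3
    exact ⟨(n, b), rfl, h3⟩

theorem TT_complete {E : (ℕ × ℕ × ℕ) × List Bool → Prop} {X Y : ℕ → Bool} {k v : ℕ}
    (h1 : TLe X Y) (h2 : TLe Y X) (hk : ∀ a, ∃ s, E ((k, a, v), pre X s)) :
    ∃ i j, TT E Y (i, j, k, v) := by
  obtain ⟨i, hi⟩ := exists_graph h1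
  obtain ⟨j, hj⟩ := exists_graph h2
  have hPX : ∀ s, PX Y i (pre X s) := by
    intro s n hn
    rw [length_pre] at hn
    rw [hi, pre_getD X _ _ _ hn]
  have hPX' : ∀ σ, PX Y i σ → pre X σ.length = σ := fun σ h6 =>
    t42_eq_pre fun n hn => (hi _ _).1 (h6 n hn)
  have hHX : ∀ e z, HX Y i e z ↔ z ∈ WE X e := by
    intro e z
    unfold HX
    constructor
    · rintro ⟨σ, h6, h7⟩
      rw [← hPX' σ h6] at h7
      exact ⟨σ.length, h7⟩
    · rintro ⟨s, hs⟩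
      exact ⟨pre X s, hPX s, hs⟩
  refine ⟨i, j, ?_, ?_, ?_, ?_, ?_⟩
  · intro n
    simp only [hi]
    rintro ⟨h3, h4⟩
    rw [h3] at h4
    exact Bool.noConfusion h4
  · intro n
    exact ⟨X n, (hi n _).2 rfl⟩
  · intro n
    refine ⟨Y n, rfl, ?_⟩
    rw [hHX]
    exact (hj n _).2 rfl
  · rintro n ⟨b, hb, h3⟩
    rw [hHX] at h3
    have h4 := (hj n b).1 h3
    rw [hb] at h4
    cases b <;> exact Bool.noConfusion h4
  · intro a
    obtain ⟨s, hs⟩ := hk a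
    exact ⟨pre X s, hPX s, hs⟩

end Pool.Agent.Helper88.GL
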