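import Pool.Graph.R_seed8.Helper227.RD.Jump

set_option autoImplicit false

/-!
Predicates of an oracle which are uniformly c.e. in the oracle, and uniformly `Π⁰₂`.
-/

namespace Pool.Agent.Helper88.GL

open Encodable Pool.Agent.Helper227

variable {α β : Type*} [Primcodable α] [Primcodable β]

/-- A predicate of an oracle and an argument which is c.e. in the oracle, uniformly. -/
def UI {α : Type*} [Primcodable α] (p : (ℕ → Bool) → α → Prop) : Prop :=
  ∃ E : List Bool × α → Prop, S1 E ∧ (∀ σ τ a, σ <+: τ → E (σ, a) → E (τ, a)) ∧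
    ∀ B a, p B a ↔ ∃ s, E (pre B s, a)

namespace UI

theorem of_eq {p q : (ℕ → Bool) → α → Prop} (hp : UI p) (h : ∀ B a, p B a ↔ q B a) : UI q := by
  obtain ⟨E, hE, mE, eE⟩ := hp
  exact ⟨E, hE, mE, fun B a => (h B a).symm.trans (eE B a)⟩

theorem si {p : (ℕ → Bool) → α → Prop} (hp : UI p) (B : ℕ → Bool) : SI B (p B) := by
  obtain ⟨E, hE, mE, eE⟩ := hp
  exact ⟨E, hE, mE, eE B⟩

theorem of_s1 {p : α → Prop} (hp : S1 p) : UI fun _ => p :=
  ⟨fun x => p x.2, hp.comp Primrec.snd, fun _ _ _ _ h => h, fun _ _ => by simp⟩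

theorem of_prim {p : α → Prop} (hp : PrimrecPred p) : UI fun _ => p := of_s1 (S1.of_prim hp)

theorem comp {p : (ℕ → Bool) → β → Prop} {f : α → β} (hp : UI p) (hf : Primrec f) :
    UI fun B a => p B (f a) := by
  obtain ⟨E, hE, mE, eE⟩ := hp
  exact ⟨fun x => E (x.1, f x.2), hE.comp (Primrec.fst.pair (hf.comp Primrec.snd)),
    fun σ τ a h => mE _ _ _ h, fun B a => eE B _⟩

theorem and {p q : (ℕ → Bool) → α → Prop} (hp : UI p) (hq : UI q) :
    UI fun B a => p B a ∧ q B a := by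
  obtain ⟨E, hE, mE, eE⟩ := hp
  obtain ⟨F, hF, mF, eF⟩ := hq
  refine ⟨fun x => E x ∧ F x, hE.and hF, fun σ τ a h h2 => ⟨mE _ _ _ h h2.1, mF _ _ _ h h2.2⟩,
    fun B a => ?_⟩
  refine (and_congr (eE B a) (eF B a)).trans ?_
  constructor
  · rintro ⟨⟨s, hs⟩, ⟨t, ht⟩⟩
    exact ⟨max s t, mE _ _ _ (pre_prefix B (le_max_left _ _)) hs,
      mF _ _ _ (pre_prefix B (le_max_right _ _)) ht⟩
  · rintro ⟨s, h1, h2⟩
    exact ⟨⟨s, h1⟩, ⟨s, h2⟩⟩

theorem ex {p : (ℕ → Bool) → α → β → Prop} (hp : UI fun B (x : α × β) => p B x.1 x.2) :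
    UI fun B a => ∃ b, p B a b := by
  obtain ⟨E, hE, mE, eE⟩ := hp
  refine ⟨fun x => ∃ b, E (x.1, (x.2, b)), S1.ex (hE.comp ?_), ?_, fun B a => ?_⟩
  · exact (Primrec.fst.comp Primrec.fst).pair ((Primrec.snd.comp Primrec.fst).pair Primrec.snd)
  · rintro σ τ a h ⟨b, hb⟩
    exact ⟨b, mE _ _ _ h hb⟩
  · constructor
    · rintro ⟨b, hb⟩
      obtain ⟨s, hs⟩ := (eE B (a, b)).1 hb
      exact ⟨s, b, hs⟩
    · rintro ⟨s, b, hs⟩
      exact ⟨b, (eE B (a, b)).2 ⟨s, hs⟩⟩

theorem all_mem {p : (ℕ → Bool) → α → β → Prop} {f : α → List β}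
    (hp : UI fun B (x : α × β) => p B x.1 x.2) (hf : Primrec f) :
    UI fun B a => ∀ b ∈ f a, p B a b := by
  obtain ⟨E, hE, mE, eE⟩ := hp
  refine ⟨fun x => ∀ b ∈ f x.2, E (x.1, (x.2, b)), S1.all_mem (hE.comp ?_) (hf.comp Primrec.snd),
    ?_, fun B a => ?_⟩
  · exact (Primrec.fst.comp Primrec.fst).pair ((Primrec.snd.comp Primrec.fst).pair Primrec.snd)
  · rintro σ τ a h h2 b hb
    exact mE _ _ _ h (h2 b hb)
  · have : ∀ L : List β, (∀ b ∈ L, p B a b) ↔ ∃ s, ∀ b ∈ L, E (pre B s, (a, b)) := by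
      intro L
      induction L with
      | nil => simp
      | cons c L ih =>
        simp only [List.mem_cons, forall_eq_or_imp, ih]
        have := eE B (a, c)
        simp only at this
        rw [this]
        constructor
        · rintro ⟨⟨m, hm'⟩, ⟨n, hn⟩⟩
          exact ⟨max m n, mE _ _ _ (pre_prefix B (le_max_left _ _)) hm',
            fun b hb => mE _ _ _ (pre_prefix B (le_max_right _ _)) (hn b hb)⟩
        · rintro ⟨n, h1, h2⟩
          exact ⟨⟨n, h1⟩, ⟨n, h2⟩⟩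
    exact this _

theorem all_lt {p : (ℕ → Bool) → α → ℕ → Prop} {f : α → ℕ}
    (hp : UI fun B (x : α × ℕ) => p B x.1 x.2) (hf : Primrec f) :
    UI fun B a => ∀ b < f a, p B a b :=
  (all_mem hp (Primrec.list_range.comp hf)).of_eq (by simp)

theorem query : UI fun B (x : ℕ × Bool) => B x.1 = x.2 := by
  refine ⟨fun x => x.1[x.2.1]? = some x.2.2, S1.of_prim ?_, ?_, ?_⟩
  · exact Primrec.eq.comp (Primrec.list_getElem?.comp Primrec.fst (Primrec.fst.comp Primrec.snd))
      (Primrec.option_some.comp (Primrec.snd.comp Primrec.snd))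
  · rintro σ τ ⟨n, b⟩ h h2
    simp only at h2 ⊢
    obtain ⟨ρ, rfl⟩ := h
    rw [List.getElem?_append_left]
    · exact h2
    · by_contra hc
      rw [List.getElem?_eq_none (by omega)] at h2
      cases h2
  · rintro B ⟨n, b⟩
    simp only
    constructor
    · rintro rfl
      exact ⟨n + 1, pre_getElem? B _ _ (by omega)⟩
    · rintro ⟨s, hs⟩
      by_cases h : n < s
      · rw [pre_getElem? B _ _ h] at hs
        simpa using hs
      · rw [pre_getElem?_none B _ _ (by omega)] at hs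
        cases hs

/-- a primitive recursive condition on a segment of the oracle -/
theorem of_dec {p : List Bool × α → Prop} (hp : PrimrecPred p) :
    UI fun B (x : α × ℕ) => p (pre B x.2, x.1) := by
  refine ⟨fun x => x.2.2 ≤ x.1.length ∧ p (x.1.take x.2.2, x.2.1), S1.of_prim ?_, ?_, ?_⟩
  · refine PrimrecPred.and ?_ ?_
    · exact Primrec.nat_le.comp (Primrec.snd.comp Primrec.snd)
        (Primrec.list_length.comp Primrec.fst)
    · exact hp.comp (f := fun x : List Bool × (α × ℕ) => (x.1.take x.2.2, x.2.1))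
        (Primrec.pair (Primrec.list_take.comp (Primrec.snd.comp Primrec.snd) Primrec.fst)
          (Primrec.fst.comp Primrec.snd))
  · rintro σ τ ⟨a, n⟩ ⟨ρ, rfl⟩ ⟨h1, h2⟩
    simp only at h1 h2 ⊢
    refine ⟨by rw [List.length_append]; omega, ?_⟩
    rwa [List.take_append_of_le_length h1]
  · rintro B ⟨a, n⟩
    simp only [length_pre]
    constructor
    · intro h
      exact ⟨n, le_rfl, by rwa [take_pre B n n le_rfl]⟩
    · rintro ⟨s, h1, h2⟩
      rwa [take_pre B s n h1] at h2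

/-- the primitive recursive normal form -/
theorem normal {p : (ℕ → Bool) → α → Prop} (hp : UI p) : ∃ Q : List Bool × α → Prop,
    PrimrecPred Q ∧ (∀ B a s s', s ≤ s' → Q (pre B s, a) → Q (pre B s', a)) ∧
      ∀ B a, p B a ↔ ∃ s, Q (pre B s, a) := by
  obtain ⟨E, ⟨q, hq, mq, eq⟩, mE, eE⟩ := hp
  refine ⟨fun x => ∃ t < x.1.length + 1, q (x.1.take t, x.2) x.1.length, ?_, ?_, ?_⟩
  · refine PP.ex_lt (f := fun x : List Bool × α => x.1.length + 1)
      (p := fun (x : List Bool × α) (t : ℕ) => q (x.1.take t, x.2) x.1.length) ?_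
      (Primrec.succ.comp (Primrec.list_length.comp Primrec.fst))
    exact hq.comp (Primrec.pair (Primrec.list_take.comp Primrec.snd
      (Primrec.fst.comp Primrec.fst)) (Primrec.snd.comp Primrec.fst))
      (Primrec.list_length.comp (Primrec.fst.comp Primrec.fst))
  · rintro B a s s' h ⟨t, ht, h1⟩
    simp only [length_pre] at ht h1 ⊢
    refine ⟨t, by omega, ?_⟩
    rw [take_pre B s t (by omega)] at h1
    rw [take_pre B s' t (by omega)]
    exact mq _ _ _ h h1
  · intro B a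
    simp only [length_pre]
    constructor
    · intro h
      obtain ⟨s, hs⟩ := (eE B a).1 h
      obtain ⟨n, hn⟩ := (eq _).1 hs
      refine ⟨max s n, s, by omega, ?_⟩
      rw [take_pre B _ s (le_max_left _ _)]
      exact mq _ _ _ (le_max_right _ _) hn
    · rintro ⟨s, t, ht, h⟩
      rw [take_pre B s t (by omega)] at h
      exact (eE B a).2 ⟨t, (eq _).2 ⟨_, h⟩⟩

end UI

/-- A predicate of an oracle and an argument which is `Π⁰₂` in the oracle, uniformly. -/
def PI2 {α : Type*} [Primcodable α] (T : (ℕ → Bool) → α → Prop) : Prop :=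
  ∃ R : (ℕ → Bool) → α × ℕ → Prop, UI R ∧ ∀ B a, T B a ↔ ∀ c, R B (a, c)

namespace PI2

theorem of_eq {p q : (ℕ → Bool) → α → Prop} (hp : PI2 p) (h : ∀ B a, p B a ↔ q B a) :
    PI2 q := by
  obtain ⟨R, hR, eR⟩ := hp
  exact ⟨R, hR, fun B a => (h B a).symm.trans (eR B a)⟩

theorem of_ui {p : (ℕ → Bool) → α → Prop} (hp : UI p) : PI2 p :=
  ⟨fun B x => p B x.1, hp.comp Primrec.fst, fun _ _ => by simp⟩

theorem not {p : (ℕ → Bool) → α → Prop} (hp : UI p) : PI2 fun B a => ¬ p B a := by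
  obtain ⟨Q, hQ, mQ, eQ⟩ := hp.normal
  refine ⟨fun B x => ¬ Q (pre B x.2, x.1), UI.of_dec (p := fun y : List Bool × α => ¬ Q y) hQ.not,
    fun B a => ?_⟩
  refine (not_congr (eQ B a)).trans ?_
  push Not
  rfl

theorem and {p q : (ℕ → Bool) → α → Prop} (hp : PI2 p) (hq : PI2 q) :
    PI2 fun B a => p B a ∧ q B a := by
  obtain ⟨R, hR, eR⟩ := hp
  obtain ⟨S, hS, eS⟩ := hq
  refine ⟨fun B x => R B x ∧ S B x, hR.and hS, fun B a => ?_⟩
  exact (and_congr (eR B a) (eS B a)).trans forall_and.symm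

theorem comp {p : (ℕ → Bool) → β → Prop} {f : α → β} (hp : PI2 p) (hf : Primrec f) :
    PI2 fun B a => p B (f a) := by
  obtain ⟨R, hR, eR⟩ := hp
  exact ⟨fun B x => R B (f x.1, x.2), hR.comp (f := fun x : α × ℕ => (f x.1, x.2))
    ((hf.comp Primrec.fst).pair Primrec.snd), fun B a => eR B _⟩

theorem all {p : (ℕ → Bool) → α → β → Prop} (hp : PI2 fun B (x : α × β) => p B x.1 x.2) :
    PI2 fun B a => ∀ b, p B a b := by
  obtain ⟨R, hR, eR⟩ := hp
  refine ⟨fun B x => ∀ b ∈ (decode (α := β) x.2.unpair.1).toList,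
    R B ((x.1, b), x.2.unpair.2), ?_, fun B a => ?_⟩
  · refine UI.all_mem (p := fun B (x : α × ℕ) (b : β) => R B ((x.1, b), x.2.unpair.2))
      (f := fun x : α × ℕ => (decode (α := β) x.2.unpair.1).toList) ?_ ?_
    · exact hR.comp (f := fun y : (α × ℕ) × β => ((y.1.1, y.2), y.1.2.unpair.2))
        (Primrec.pair (Primrec.pair (Primrec.fst.comp Primrec.fst) Primrec.snd)
          (Primrec.snd.comp (Primrec.unpair.comp (Primrec.snd.comp Primrec.fst))))
    · exact Primrec.optionToList.comp (Primrec.decode.comp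
        (Primrec.fst.comp (Primrec.unpair.comp Primrec.snd)))
  · constructor
    · intro h c b _
      exact (eR B (a, b)).1 (h b) _
    · intro h b
      refine (eR B (a, b)).2 fun c => ?_
      have := h (Nat.pair (encode b) c) b (by simp)
      simpa using this

end PI2

end Pool.Agent.Helper88.GL
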