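import Pool.Agent.Helper88.GL.CaseB
import Pool.Agent.Helper88.GL.UI

set_option autoImplicit false

namespace Pool.Agent.Helper88.GL

open Encodable Pool.Agent.Helper227 Pool.Agent.H548R2.Post
open Filter hiding join
open Nat.Partrec (Code)

/-- `m` is supported up to `c` -/
def Lv (r : List Bool × (ℕ × ℕ) → Prop) (m c : ℕ) (τ : List Bool) : Prop :=
  c < τ.length ∧ ∀ c' < c + 1, r (τ, (m, c'))

def evv (r : List Bool × (ℕ × ℕ) → Prop) (m : ℕ) (τ : List Bool) : Prop :=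
  ∃ c < τ.length, Lv r m c τ ∧ ¬ Lv r m c (τ.take (τ.length - 1))

def Fv (r u : List Bool × (ℕ × ℕ) → Prop) (m y : ℕ) (τ : List Bool) : Prop :=
  Lv r m y τ ∧ u (τ, (m, y))

theorem pp_Lv {r : List Bool × (ℕ × ℕ) → Prop} (hr : PrimrecPred r) :
    PrimrecPred fun x : (ℕ × ℕ) × List Bool => Lv r x.1.1 x.1.2 x.2 := by
  unfold Lv
  refine PrimrecPred.and ?_ ?_
  · exact Primrec.nat_lt.comp (Primrec.snd.comp Primrec.fst)
      (Primrec.list_length.comp Primrec.snd)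
  · refine PP.all_lt (f := fun x : (ℕ × ℕ) × List Bool => x.1.2 + 1)
      (p := fun (x : (ℕ × ℕ) × List Bool) (c' : ℕ) => r (x.2, (x.1.1, c'))) ?_
      (Primrec.succ.comp (Primrec.snd.comp Primrec.fst))
    exact hr.comp (f := fun y : ((ℕ × ℕ) × List Bool) × ℕ => (y.1.2, (y.1.1.1, y.2)))
      (Primrec.pair (Primrec.snd.comp Primrec.fst)
        (Primrec.pair (Primrec.fst.comp (Primrec.fst.comp Primrec.fst)) Primrec.snd))

theorem pp_evv {r : List Bool × (ℕ × ℕ) → Prop} (hr : PrimrecPred r) :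
    PrimrecPred fun x : ℕ × List Bool => evv r x.1 x.2 := by
  unfold evv
  refine PP.ex_lt (f := fun x : ℕ × List Bool => x.2.length)
    (p := fun (x : ℕ × List Bool) (c : ℕ) =>
      Lv r x.1 c x.2 ∧ ¬ Lv r x.1 c (x.2.take (x.2.length - 1))) ?_
    (Primrec.list_length.comp Primrec.snd)
  have h1 : Primrec fun y : (ℕ × List Bool) × ℕ => y.1.2 := Primrec.snd.comp Primrec.fst
  have h2 : Primrec fun y : (ℕ × List Bool) × ℕ => (y.1.1, y.2) :=
    Primrec.pair (Primrec.fst.comp Primrec.fst) Primrec.snd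
  refine PrimrecPred.and ?_ (PrimrecPred.not ?_)
  · exact (pp_Lv hr).comp (f := fun y : (ℕ × List Bool) × ℕ => ((y.1.1, y.2), y.1.2))
      (Primrec.pair h2 h1)
  · exact (pp_Lv hr).comp (f := fun y : (ℕ × List Bool) × ℕ =>
      ((y.1.1, y.2), y.1.2.take (y.1.2.length - 1)))
      (Primrec.pair h2 (Primrec.list_take.comp
        (Primrec.nat_sub.comp (Primrec.list_length.comp h1) (Primrec.const 1)) h1))

theorem pp_Fv {r u : List Bool × (ℕ × ℕ) → Prop} (hr : PrimrecPred r) (hu : PrimrecPred u) :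
    PrimrecPred fun x : (ℕ × ℕ) × List Bool => Fv r u x.1.1 x.1.2 x.2 := by
  unfold Fv
  exact PrimrecPred.and (pp_Lv hr) (hu.comp (f := fun x : (ℕ × ℕ) × List Bool => (x.2, x.1))
    (Primrec.pair Primrec.snd Primrec.fst))

section
variable {r u : List Bool × (ℕ × ℕ) → Prop} {Y : ℕ → Bool} {m : ℕ}

theorem Lv_mono (mr : ∀ B a s s', s ≤ s' → r (pre B s, a) → r (pre B s', a)) {c s s' : ℕ}
    (h : s ≤ s') (h1 : Lv r m c (pre Y s)) : Lv r m c (pre Y s') := by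
  obtain ⟨h2, h3⟩ := h1
  rw [length_pre] at h2
  exact ⟨by rw [length_pre]; omega, fun c' hc' => mr _ _ _ _ h (h3 c' hc')⟩

theorem Lv_ev (mr : ∀ B a s s', s ≤ s' → r (pre B s, a) → r (pre B s', a))
    (h : ∀ c, ∃ s, r (pre Y s, (m, c))) (c : ℕ) : ∃ s, Lv r m c (pre Y s) := by
  have h1 : ∀ c' ∈ {c' : ℕ | c' < c + 1}, ∀ᶠ s in atTop, r (pre Y s, (m, c')) := by
    intro c' _
    obtain ⟨s, hs⟩ := h c'
    exact eventually_atTop.2 ⟨s, fun s' hs' => mr _ _ _ _ hs' hs⟩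
  obtain ⟨s, hs⟩ := (((eventually_all_finite (Set.finite_lt_nat _)).2 h1).and
    (eventually_gt_atTop c)).exists
  exact ⟨s, by rw [length_pre]; exact hs.2, fun c' hc' => hs.1 c' hc'⟩

theorem Tr_of_all (mr : ∀ B a s s', s ≤ s' → r (pre B s, a) → r (pre B s', a))
    (h : ∀ c, ∃ s, r (pre Y s, (m, c))) : Tr (evv r) Y m := by
  classical
  intro s0
  have hex := Lv_ev mr h s0
  have h1 := Nat.find_spec hex
  have h2 : s0 < Nat.find hex := by
    have := h1.1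
    rwa [length_pre] at this
  refine ⟨Nat.find hex, h2.le, s0, by rw [length_pre]; exact h2, h1, ?_⟩
  rw [length_pre, take_pre Y _ _ (Nat.sub_le _ _)]
  exact Nat.find_min hex (by omega)

theorem Vm_eq_of_all (mr : ∀ B a s s', s ≤ s' → r (pre B s, a) → r (pre B s', a))
    (mu : ∀ B a s s', s ≤ s' → u (pre B s, a) → u (pre B s', a))
    (h : ∀ c, ∃ s, r (pre Y s, (m, c))) : Vm (Fv r u) Y m = {y | ∃ s, u (pre Y s, (m, y))} := by
  ext y
  constructor
  · rintro ⟨s, _, h1⟩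
    exact ⟨s, h1⟩
  · rintro ⟨s, h1⟩
    obtain ⟨s', h2⟩ := Lv_ev mr h y
    exact ⟨max s s', Lv_mono mr (le_max_right _ _) h2, mu _ _ _ _ (le_max_left _ _) h1⟩

theorem false_of_not (mr : ∀ B a s s', s ≤ s' → r (pre B s, a) → r (pre B s', a))
    (h : ¬ ∀ c, ∃ s, r (pre Y s, (m, c))) :
    ¬ Tr (evv r) Y m ∧ (Vm (Fv r u) Y m).Finite := by
  push Not at h
  obtain ⟨c0, h0⟩ := h
  have hL : ∀ c s, Lv r m c (pre Y s) → c < c0 := by
    intro c s h1
    by_contra h2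
    exact h0 s (h1.2 c0 (by omega))
  constructor
  · intro hT
    have h1 : ∀ c ∈ {c : ℕ | c < c0}, ∀ᶠ s in atTop,
        ¬ (Lv r m c (pre Y s) ∧ ¬ Lv r m c (pre Y (s - 1))) := by
      intro c _
      by_cases h2 : ∃ s1, Lv r m c (pre Y s1)
      · obtain ⟨s1, h2⟩ := h2
        refine eventually_atTop.2 ⟨s1 + 1, fun s hs h3 => h3.2 ?_⟩
        exact Lv_mono mr (by omega) h2
      · exact Eventually.of_forall fun s h3 => h2 ⟨s, h3.1⟩
    obtain ⟨s0, h2⟩ := eventually_atTop.1 ((eventually_all_finite (Set.finite_lt_nat _)).2 h1)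
    obtain ⟨s, hs, c, hc, h3, h4⟩ := hT s0
    rw [length_pre, take_pre Y _ _ (Nat.sub_le _ _)] at h4
    exact h2 s hs c (hL c s h3) ⟨h3, h4⟩
  · refine (Set.finite_lt_nat c0).subset ?_
    rintro y ⟨s, h1, _⟩
    exact hL y s h1

end

/-- Finite injury with a `Π⁰₂` guess: if all guesses fail, the set is noncomputable and low over
the oracle; otherwise it has the degree coded for the least true guess. -/
theorem exists_guess {R U : (ℕ → Bool) → ℕ × ℕ → Prop} (hR : UI R) (hU : UI U) :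
    ∃ e : ℕ, ∀ Y : ℕ → Bool, TLe Y (chr (WE Y e)) ∧
      ((∀ m, ¬ ∀ c, R Y (m, c)) → ¬ TLe (chr (WE Y e)) Y ∧
        TLe (jump (chr (WE Y e))) (jump Y)) ∧
      ∀ m, (∀ c, R Y (m, c)) → (∀ m' < m, ¬ ∀ c, R Y (m', c)) →
        TLe (chr (WE Y e)) (join Y (chr {y | U Y (m, y)})) ∧
        TLe (join Y (chr {y | U Y (m, y)})) (chr (WE Y e)) := by
  obtain ⟨r, hr, mr, er⟩ := hR.normal
  obtain ⟨u, hu, mu, eu⟩ := hU.normal
  have hev := pp_evv hr
  have hF := pp_Fv hr hu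
  obtain ⟨e, he⟩ := exists_index hev hF
  have key : ∀ Y m, (∀ c, R Y (m, c)) ↔ ∀ c, ∃ s, r (pre Y s, (m, c)) := fun Y m =>
    forall_congr' fun c => er Y (m, c)
  refine ⟨e, fun Y => ?_⟩
  rw [he Y, chr_WZ]
  refine ⟨le_WZ Y, fun h => ?_, fun m h1 h2 => ?_⟩
  · have h' : ∀ m, ¬ Tr (evv r) Y m ∧ (Vm (Fv r u) Y m).Finite := fun m =>
      false_of_not mr (by rw [← key]; exact h m)
    exact ⟨caseA_not_le Y h', caseA_low hev hF Y h'⟩
  · have h3 : {y | U Y (m, y)} = Vm (Fv r u) Y m := by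
      rw [Vm_eq_of_all mr mu ((key Y m).1 h1)]
      ext y
      exact eu Y (m, y)
    rw [h3]
    refine caseB Y m (Tr_of_all mr ((key Y m).1 h1)) (fun m' hm' =>
      false_of_not mr (by rw [← key]; exact h2 m' hm')) fun y s s' hs hf => ?_
    exact ⟨Lv_mono mr hs hf.1, mu _ _ _ _ hs hf.2⟩

end Pool.Agent.Helper88.GL
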