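import Pool.Agent.Helper88.GL.Ae

set_option autoImplicit false

/-!
Iterated jumps along computable well-orderings.
-/

namespace Pool.Agent.Helper88.GL

open Encodable Pool.Agent.Helper227 Pool.Agent.H548R2.Post MeasureTheory
open scoped ENNReal
open Nat.Partrec (Code)

/-- `J` is the jump hierarchy along `r`: `J b` is the join of the jumps of all `J c` with
`r c b`. -/
def IsHier (r : ℕ → ℕ → Prop) (J : ℕ → ℕ → Bool) : Prop :=
  ∀ b c x, J b (Nat.pair c x) = true ↔ r c b ∧ jump (J c) x = true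

open Classical in
/-- the restriction of `X` to the columns below `c` -/
noncomputable def rs (r : ℕ → ℕ → Prop) (c : ℕ) (X : ℕ → Bool) : ℕ → Bool :=
  fun z => if r z.unpair.1 c then X z else false

/-- the local characterization of `J b` -/
def IsJ (r : ℕ → ℕ → Prop) (b : ℕ) (X : ℕ → Bool) : Prop :=
  ∀ c x, X (Nat.pair c x) = true ↔ r c b ∧ x ∈ WE (rs r c X) x

variable {r : ℕ → ℕ → Prop} {J : ℕ → ℕ → Bool}

theorem rs_J (hJ : IsHier r J) (ht : ∀ a b c, r a b → r b c → r a c) {b c : ℕ} (h : r c b) :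
    rs r c (J b) = J c := by
  funext z
  unfold rs
  have hz : Nat.pair z.unpair.1 z.unpair.2 = z := Nat.pair_unpair z
  by_cases h1 : r z.unpair.1 c
  · rw [if_pos h1, Bool.eq_iff_iff, ← hz, hJ, hJ]
    simp only [h1, ht _ _ _ h1 h, true_and]
  · rw [if_neg h1]
    symm
    rw [← Bool.not_eq_true, ← hz, hJ]
    exact fun h2 => h1 h2.1

theorem IsHier.isJ (hJ : IsHier r J) (ht : ∀ a b c, r a b → r b c → r a c) (b : ℕ) :
    IsJ r b (J b) := by
  intro c x
  rw [hJ]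
  refine and_congr_right fun h => ?_
  rw [rs_J hJ ht h, jump_eq_true]

theorem IsJ.eq (hJ : IsHier r J) (ht : ∀ a b c, r a b → r b c → r a c) (hw : WellFounded r)
    {b : ℕ} {X : ℕ → Bool} (h : IsJ r b X) : X = J b := by
  have key : ∀ c, r c b → rs r c X = J c := by
    intro c
    induction c using hw.induction with
    | _ c ih =>
      intro hc
      funext z
      unfold rs
      have hz : Nat.pair z.unpair.1 z.unpair.2 = z := Nat.pair_unpair z
      by_cases h1 : r z.unpair.1 c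
      · rw [if_pos h1, Bool.eq_iff_iff, ← hz, h, hJ, ih _ h1 (ht _ _ _ h1 hc), jump_eq_true]
        simp only [h1, ht _ _ _ h1 hc, true_and]
      · rw [if_neg h1]
        symm
        rw [← Bool.not_eq_true, ← hz, hJ]
        exact fun h2 => h1 h2.1
  funext z
  have hz : Nat.pair z.unpair.1 z.unpair.2 = z := Nat.pair_unpair z
  rw [Bool.eq_iff_iff, ← hz, h, hJ]
  refine and_congr_right fun h1 => ?_
  rw [key _ h1, jump_eq_true]

theorem J_lt (hJ : IsHier r J) {b c : ℕ} (h : r c b) : TLe (jump (J c)) (J b) := by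
  have hf : Computable fun x : ℕ => Nat.pair c x :=
    (Primrec₂.natPair.comp (Primrec.const c) Primrec.id).to_comp
  refine tLe_of_computable hf fun x => ?_
  rw [Bool.eq_iff_iff, hJ]
  simp only [h, true_and]

theorem J_inj (hJ : IsHier r J) (htri : ∀ a b, r a b ∨ a = b ∨ r b a) {b c : ℕ}
    (h : TEq (J b) (J c)) : b = c := by
  have key : ∀ {b c : ℕ}, TEq (J b) (J c) → ¬ r b c := by
    intro b c h hr
    exact not_jump_le (J b) (TLe.tr (J_lt hJ hr) h.2)
  rcases htri b c with h1 | h1 | h1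
  · exact absurd h1 (key h)
  · exact h1
  · exact absurd h1 (key h.symm)

theorem J_min (hJ : IsHier r J) {b : ℕ} (h : ∀ c, ¬ r c b) : J b = zr := by
  funext z
  have hz : Nat.pair z.unpair.1 z.unpair.2 = z := Nat.pair_unpair z
  show _ = false
  rw [← Bool.not_eq_true, ← hz, hJ]
  exact fun h2 => h _ h2.1

theorem ui_rs (hr : ComputablePred fun x : ℕ × ℕ => r x.1 x.2) :
    UI fun X (x : ℕ × ℕ) => x.2 ∈ WE (rs r x.1 X) x.2 := by
  obtain ⟨hr1, hr2⟩ := ComputablePred.computable_iff_re_compl_re'.1 hr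
  have s1 : S1 fun x : ℕ × ℕ => r x.1 x.2 := S1.of_re hr1
  have s2 : S1 fun x : ℕ × ℕ => ¬ r x.1 x.2 := S1.of_re hr2
  have h0 : UI fun X (x : (ℕ × ℕ) × Bool) => rs r x.1.2 X x.1.1 = x.2 := by
    have h1 : UI fun X (x : (ℕ × ℕ) × Bool) => (r x.1.1.unpair.1 x.1.2 ∧ X x.1.1 = x.2) ∨
        (¬ r x.1.1.unpair.1 x.1.2 ∧ x.2 = false) := by
      have k : Primrec fun x : (ℕ × ℕ) × Bool => (x.1.1.unpair.1, x.1.2) :=
        Primrec.pair (Primrec.fst.comp (Primrec.unpair.comp (Primrec.fst.comp Primrec.fst)))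
          (Primrec.snd.comp Primrec.fst)
      refine UI.or (UI.and (UI.of_s1 (s1.comp k)) ?_) (UI.and (UI.of_s1 (s2.comp k))
        (UI.of_prim (Primrec.eq.comp Primrec.snd (Primrec.const false))))
      exact UI.query.comp (f := fun x : (ℕ × ℕ) × Bool => (x.1.1, x.2))
        (Primrec.pair (Primrec.fst.comp Primrec.fst) Primrec.snd)
    refine h1.of_eq fun X x => ?_
    unfold rs
    by_cases h2 : r x.1.1.unpair.1 x.1.2
    · simp [h2]
    · simp only [h2, false_and, not_false_eq_true, true_and, false_or, if_false]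
      exact eq_comm
  have h1 : UI fun X (x : ℕ × ℕ) => ∃ σ : List Bool,
      (∀ i < σ.length, rs r x.1 X i = σ.getD i false) ∧
      ((Denumerable.ofNat Code x.2).eval (encode (σ, x.2))).Dom := by
    refine UI.ex (p := fun X (x : ℕ × ℕ) (σ : List Bool) =>
      (∀ i < σ.length, rs r x.1 X i = σ.getD i false) ∧
      ((Denumerable.ofNat Code x.2).eval (encode (σ, x.2))).Dom) (UI.and ?_ (UI.of_s1 ?_))
    · refine UI.all_lt (p := fun X (x : (ℕ × ℕ) × List Bool) (i : ℕ) =>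
        rs r x.1.1 X i = x.2.getD i false)
        (f := fun x : (ℕ × ℕ) × List Bool => x.2.length) ?_ (Primrec.list_length.comp Primrec.snd)
      exact h0.comp (f := fun z : ((ℕ × ℕ) × List Bool) × ℕ =>
        ((z.2, z.1.1.1), z.1.2.getD z.2 false))
        (Primrec.pair (Primrec.pair Primrec.snd (Primrec.fst.comp (Primrec.fst.comp
          Primrec.fst))) ((Primrec.list_getD false).comp (Primrec.snd.comp Primrec.fst)
            Primrec.snd))
    · exact S1.comp (f := fun x : (ℕ × ℕ) × List Bool =>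
        (Denumerable.ofNat Code x.1.2, encode (x.2, x.1.2))) s1_eval
        (((Primrec.ofNat Code).comp (Primrec.snd.comp Primrec.fst)).pair
          (Primrec.encode.comp (Primrec.snd.pair (Primrec.snd.comp Primrec.fst))))
  refine h1.of_eq fun X x => ?_
  constructor
  · rintro ⟨σ, h3, h4⟩
    refine ⟨σ.length, ?_⟩
    have : pre (rs r x.1 X) σ.length = σ := t42_eq_pre fun i hi => h3 i hi
    unfold pre at this
    rwa [this]
  · rintro ⟨s, hs⟩
    exact ⟨pre (rs r x.1 X) s, fun i hi =>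
      (pre_getD (rs r x.1 X) _ _ _ (by simpa using hi)).symm, hs⟩

theorem pi2_IsJ (hr : ComputablePred fun x : ℕ × ℕ => r x.1 x.2) :
    PI2 fun X (b : ℕ) => IsJ r b X := by
  obtain ⟨hr1, hr2⟩ := ComputablePred.computable_iff_re_compl_re'.1 hr
  have s1 : S1 fun x : ℕ × ℕ => r x.1 x.2 := S1.of_re hr1
  have s2 : S1 fun x : ℕ × ℕ => ¬ r x.1 x.2 := S1.of_re hr2
  have k : Primrec fun x : (ℕ × ℕ) × ℕ => (x.1.2, x.1.1) :=
    Primrec.pair (Primrec.snd.comp Primrec.fst) (Primrec.fst.comp Primrec.fst)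
  have q : ∀ b : Bool, UI fun X (x : (ℕ × ℕ) × ℕ) => X (Nat.pair x.1.2 x.2) = b := fun b =>
    UI.query.comp (f := fun x : (ℕ × ℕ) × ℕ => (Nat.pair x.1.2 x.2, b))
      (Primrec.pair (Primrec₂.natPair.comp (Primrec.snd.comp Primrec.fst) Primrec.snd)
        (Primrec.const b))
  have hw : UI fun X (x : (ℕ × ℕ) × ℕ) => x.2 ∈ WE (rs r x.1.2 X) x.2 :=
    (ui_rs hr).comp (f := fun x : (ℕ × ℕ) × ℕ => (x.1.2, x.2))
      (Primrec.pair (Primrec.snd.comp Primrec.fst) Primrec.snd)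
  have c1 : PI2 fun X (b : ℕ) => ∀ c x : ℕ, ¬ (X (Nat.pair c x) = false ∧
      (r c b ∧ x ∈ WE (rs r c X) x)) :=
    PI2.all (p := fun X (b : ℕ) (c : ℕ) => ∀ x : ℕ, ¬ (X (Nat.pair c x) = false ∧
        (r c b ∧ x ∈ WE (rs r c X) x)))
      (PI2.all (p := fun X (y : ℕ × ℕ) (x : ℕ) => ¬ (X (Nat.pair y.2 x) = false ∧
        (r y.2 y.1 ∧ x ∈ WE (rs r y.2 X) x)))
        (PI2.not (UI.and (q false) (UI.and (UI.of_s1 (s1.comp k)) hw))))
  have c2 : PI2 fun X (b : ℕ) => ∀ c x : ℕ, X (Nat.pair c x) = false ∨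
      (r c b ∧ x ∈ WE (rs r c X) x) :=
    PI2.all (p := fun X (b : ℕ) (c : ℕ) => ∀ x : ℕ, X (Nat.pair c x) = false ∨
        (r c b ∧ x ∈ WE (rs r c X) x))
      (PI2.all (p := fun X (y : ℕ × ℕ) (x : ℕ) => X (Nat.pair y.2 x) = false ∨
        (r y.2 y.1 ∧ x ∈ WE (rs r y.2 X) x))
        (PI2.of_ui (UI.or (q false) (UI.and (UI.of_s1 (s1.comp k)) hw))))
  refine (PI2.and c1 c2).of_eq fun X b => ?_
  constructor
  · rintro ⟨h1, h2⟩ c x
    constructor
    · intro h3
      rcases h2 c x with h4 | h4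
      · rw [h3] at h4
        exact Bool.noConfusion h4
      · exact h4
    · intro h3
      by_contra h4
      exact h1 c x ⟨by simpa using h4, h3⟩
  · intro h1
    refine ⟨fun c x h2 => ?_, fun c x => ?_⟩
    · have h3 := (h1 c x).2 h2.2
      rw [h2.1] at h3
      exact Bool.noConfusion h3
    · cases h2 : X (Nat.pair c x)
      · exact Or.inl rfl
      · exact Or.inr ((h1 c x).1 h2)

/-- (i) everywhere, and (ii) almost everywhere and at all the levels of the jump hierarchy along a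
given computable well-ordering. -/
theorem almost_everywhere_hier (hr : ComputablePred fun x : ℕ × ℕ => r x.1 x.2)
    (ht : ∀ a b c, r a b → r b c → r a c) (htri : ∀ a b, r a b ∨ a = b ∨ r b a)
    (hw : WellFounded r) (hJ : IsHier r J) : ∃ e : ℕ, (∀ X, Btw e X) ∧
    (∀ᵐ X ∂lam, ∀ Y, TEq X Y → TEq (chr (WE X e)) (chr (WE Y e))) ∧
    ∀ b X Y, TEq X (J b) → TEq X Y → TEq (chr (WE X e)) (chr (WE Y e)) := by
  obtain ⟨e₀, h0, -⟩ := Pool.Agent.H548R2.Post.main (fun _ _ => false) (Computable.const false)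
  set A := chr (WE zr e₀) with hA
  set D := chr (WE A e₀) with hD
  have hAce : S1 fun n : ℕ => A n = true := by
    refine s1_of_si_zr (((si_WE zr).comp (f := fun n : ℕ => (e₀, n))
      ((Primrec.const e₀).pair Primrec.id)).of_eq fun n => ?_)
    simp [hA, chr]
  obtain ⟨a1, a2, a3, a4, a5⟩ := h0 zr
  obtain ⟨b1, b2, b3, b4, b5⟩ := h0 A
  rw [← hA] at a1 a2 a3 a4 a5
  rw [← hD] at b1 b2 b3 b4 b5
  have hDlow : TLe (jump D) (jump zr) := TLe.tr b5 a5
  obtain ⟨T1, hT1, hT1', hT1m⟩ := exists_classes (C := zr) (D := A) a2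
    (TLe.tr (TLe.jump (join_le (zr_le A) (TuringReducible.refl _))) a5)
  obtain ⟨T2, hT2, hT2', hT2m⟩ := exists_classes (C := A) (D := D) b2
    (TLe.tr (TLe.jump (join_le b1 (TuringReducible.refl _))) hDlow)
  obtain ⟨v, hv⟩ := exists_join_index hAce
  -- the relation
  have hP1 : Sg3 fun X w => ∃ k : ℕ, (T1 X k.unpair.1 ∧ T2 X k.unpair.2) ∧ w = v := by
    refine sg3_of_pi2 (T := fun X (x : ℕ × ℕ) => (T1 X x.1.unpair.1 ∧ T2 X x.1.unpair.2) ∧
      x.2 = v) (PI2.and (PI2.and ?_ ?_) (PI2.of_ui (UI.of_prim ?_)))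
    · exact hT1.comp (f := fun x : ℕ × ℕ => x.1.unpair.1)
        (Primrec.fst.comp (Primrec.unpair.comp Primrec.fst))
    · exact hT2.comp (f := fun x : ℕ × ℕ => x.1.unpair.2)
        (Primrec.snd.comp (Primrec.unpair.comp Primrec.fst))
    · exact Primrec.eq.comp Primrec.snd (Primrec.const v)
  have hP2 : Sg3 fun X w => ∃ b : ℕ, IsJ r b X ∧ w = e₀ :=
    sg3_of_pi2 (T := fun X (x : ℕ × ℕ) => IsJ r x.1 X ∧ x.2 = e₀)
      (PI2.and ((pi2_IsJ hr).comp Primrec.fst)
        (PI2.of_ui (UI.of_prim (Primrec.eq.comp Primrec.snd (Primrec.const e₀)))))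
  -- condition (i) on the first part
  have hB1 : ∀ X k l, T1 X k → T2 X l → Btw v X := by
    intro X k l hk hl
    have h1 := hT1' X k hk
    have h2 := hT2' X l hl
    refine ⟨?_, ?_, chr_WE_le_jump X v, ?_⟩
    · rw [hv X]
      exact le_join_left X A
    · rw [hv X]
      intro h3
      exact h1 (TLe.tr (le_join_right X A) (TLe.tr h3 (le_join_left X zr)))
    · rw [hv X]
      intro h3
      refine h2 (TLe.tr (TLe.tr (tLe_jump D) hDlow) (TLe.tr (TLe.jump (zr_le X)) h3))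
  -- the two parts are coherent
  have hmix : ∀ X Y k l b, T1 X k → T2 X l → IsJ r b Y → TEq X Y →
      TEq (chr (WE X v)) (chr (WE Y e₀)) := by
    intro X Y k l b hk hl hY hXY
    obtain rfl := hY.eq hJ ht hw
    by_cases hb : ∃ c, r c b
    · exfalso
      obtain ⟨c, hc⟩ := hb
      refine hT1' X k hk ?_
      have h1 : TLe A (jump zr) := TLe.tr (tLe_jump A) a5
      exact TLe.tr h1 (TLe.tr (TLe.jump (zr_le _)) (TLe.tr (J_lt hJ hc)
        (TLe.tr hXY.2 (le_join_left X zr))))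
    · have hb' : J b = zr := J_min hJ (not_exists.1 hb)
      rw [hb'] at hXY ⊢
      rw [← hA, hv X]
      exact ⟨join_le (TLe.tr hXY.1 (zr_le A)) (TuringReducible.refl _), le_join_right X A⟩
  obtain ⟨e, g1, g2, -⟩ := gluing (hP1.or hP2) (by
      rintro X w (⟨k, ⟨hk, hl⟩, rfl⟩ | ⟨n, hn, rfl⟩)
      · exact hB1 X _ _ hk hl
      · exact ⟨(h0 X).1, (h0 X).2.1, (h0 X).2.2.1, (h0 X).2.2.2.1⟩)
    (by
      rintro X w Y w' (⟨k, ⟨hk, hl⟩, rfl⟩ | ⟨n, hn, rfl⟩) (⟨k', ⟨hk', hl'⟩, rfl⟩ | ⟨n', hn', rfl⟩)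
        hXY
      · rw [hv X, hv Y]
        exact ⟨join_mono hXY.1 (TuringReducible.refl _), join_mono hXY.2 (TuringReducible.refl _)⟩
      · exact hmix X Y _ _ _ hk hl hn' hXY
      · exact (hmix Y X _ _ _ hk' hl' hn hXY.symm).symm
      · obtain rfl := hn.eq hJ ht hw
        obtain rfl := hn'.eq hJ ht hw
        obtain rfl := J_inj hJ htri hXY
        exact TEq.refl _)
  have key : ∀ X w, ((∃ k : ℕ, (T1 X k.unpair.1 ∧ T2 X k.unpair.2) ∧ w = v) ∨
      (∃ n : ℕ, IsJ r n X ∧ w = e₀)) → ∀ Y Z, TEq X Y → TEq Y Z →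
        TEq (chr (WE Y e)) (chr (WE Z e)) := fun X w hX Y Z hXY hYZ =>
    (g2 X w Y hX hXY).tr (g2 X w Z hX (hXY.tr hYZ)).symm
  refine ⟨e, g1, ?_, fun b X Y hX hXY => ?_⟩
  · have hn1 : ∀ (T : (ℕ → Bool) → ℕ → Prop), (∀ k, lam {X | ¬ T X k} ≤ (1 / 2) ^ k) →
        ∀ᵐ X ∂lam, ∃ k, T X k := by
      intro T hT
      rw [ae_iff]
      have h1 : ∀ k, lam {X | ¬ ∃ k, T X k} ≤ (1 / 2) ^ k := fun k =>
        (measure_mono fun X hX => not_exists.1 hX k).trans (hT k)
      have h2 : Filter.Tendsto (fun k : ℕ => (1 / 2 : ℝ≥0∞) ^ k) Filter.atTop (nhds 0) :=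
        ENNReal.tendsto_pow_atTop_nhds_zero_of_lt_one (by norm_num)
      exact le_antisymm (ge_of_tendsto' h2 h1) zero_le
    filter_upwards [hn1 T1 hT1m, hn1 T2 hT2m] with X ⟨k, hk⟩ ⟨l, hl⟩ Y hXY
    exact key X v (Or.inl ⟨Nat.pair k l, ⟨by simpa using hk, by simpa using hl⟩, rfl⟩) X Y
      (TEq.refl X) hXY
  · exact key (J b) e₀ (Or.inr ⟨b, hJ.isJ ht b, rfl⟩) X Y hX.symm hXY

end Pool.Agent.Helper88.GL
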