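import Pool.Agent.Helper88.GL.Comp

set_option autoImplicit false

namespace Pool.Agent.Helper88.GL

open Encodable Pool.Agent.Helper227 Pool.Agent.H548R2.Post
open Nat.Partrec (Code)

variable {ev : ℕ → List Bool → Prop} {F : ℕ → ℕ → List Bool → Prop}

theorem WZ_even (X : ℕ → Bool) (m : ℕ) : WZ ev F X (2 * m) = X m := by
  unfold WZ
  have h1 : 2 * m % 2 = 0 := by omega
  have h2 : 2 * m / 2 = m := by omega
  rw [if_pos h1, h2]

theorem WZ_odd (X : ℕ → Bool) (m : ℕ) :
    WZ ev F X (2 * m + 1) = true ↔ ∃ s, m ∈ As ev F X s := by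
  unfold WZ
  have h1 : ¬ (2 * m + 1) % 2 = 0 := by omega
  have h2 : (2 * m + 1) / 2 = m := by omega
  rw [if_neg h1, h2]
  simp only [decide_eq_true_eq]

theorem exists_index (hev : PrimrecPred fun x : ℕ × List Bool => ev x.1 x.2)
    (hF : PrimrecPred fun x : (ℕ × ℕ) × List Bool => F x.1.1 x.1.2 x.2) :
    ∃ e : ℕ, ∀ X : ℕ → Bool, WE X e = {m | WZ ev F X m = true} := by
  have hmod : Primrec fun x : List Bool × ℕ => x.2 % 2 :=
    Primrec.nat_mod.comp Primrec.snd (Primrec.const 2)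
  have hdiv : Primrec fun x : List Bool × ℕ => x.2 / 2 :=
    Primrec.nat_div.comp Primrec.snd (Primrec.const 2)
  have hE : PrimrecPred fun x : List Bool × ℕ => (x.2 % 2 = 0 ∧ x.1[x.2 / 2]? = some true) ∨
      (x.2 % 2 = 1 ∧ x.2 / 2 ∈ tb ev F x.1 x.1.length) := by
    refine PrimrecPred.or (PrimrecPred.and ?_ ?_) (PrimrecPred.and ?_ ?_)
    · exact Primrec.eq.comp hmod (Primrec.const 0)
    · exact Primrec.eq.comp (Primrec.list_getElem?.comp Primrec.fst hdiv)
        (Primrec.const (some true))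
    · exact Primrec.eq.comp hmod (Primrec.const 1)
    · have h := (primrec_tb hev hF).comp (Primrec.pair Primrec.fst
        (Primrec.list_length.comp Primrec.fst) : Primrec fun x : List Bool × ℕ =>
          (x.1, x.1.length))
      refine (PP.ex_mem (f := fun x : List Bool × ℕ => tb ev F x.1 x.1.length)
        (p := fun (x : List Bool × ℕ) (b : ℕ) => b = x.2 / 2)
        (Primrec.eq.comp Primrec.snd (hdiv.comp Primrec.fst)) h).of_eq ?_
      intro y
      simp
  obtain ⟨c, hc⟩ := Nat.Partrec.Code.exists_code.1 (S1.of_prim hE).re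
  refine ⟨encode c, fun X => ?_⟩
  ext m
  simp only [WE, Set.mem_ofPred_eq, Denumerable.ofNat_encode]
  have h1 : (∃ k : ℕ, (c.eval (encode ((List.range k).map X, m))).Dom) ↔
      ∃ k : ℕ, (m % 2 = 0 ∧ (pre X k)[m / 2]? = some true) ∨
      (m % 2 = 1 ∧ m / 2 ∈ tb ev F (pre X k) (pre X k).length) := by
    refine exists_congr fun k => ?_
    rw [hc]
    simp [Part.assert, pre]
  rw [h1]
  have h2 : ∀ k : ℕ, (pre X k)[m / 2]? = some true ↔ m / 2 < k ∧ X (m / 2) = true := by
    intro k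
    unfold pre
    rw [List.getElem?_map]
    by_cases hk : m / 2 < k
    · rw [List.getElem?_eq_getElem (by simpa using hk)]
      simp [hk]
    · rw [List.getElem?_eq_none (by simpa using hk)]
      simp [hk]
  have h5 : WZ ev F X m = true ↔
      (if m % 2 = 0 then X (m / 2) = true else ∃ s, m / 2 ∈ As ev F X s) := by
    unfold WZ
    split_ifs
    · exact Iff.rfl
    · simp only [decide_eq_true_eq]
  rw [h5]
  have h6 : ∀ k, tb ev F (pre X k) (pre X k).length = As ev F X k := by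
    intro k
    rw [length_pre, tb_pre le_rfl]
  constructor
  · rintro ⟨k, ⟨h3, h4⟩ | ⟨h3, h4⟩⟩
    · rw [if_pos h3]
      exact ((h2 k).1 h4).2
    · rw [if_neg (by omega)]
      rw [h6] at h4
      exact ⟨k, h4⟩
  · intro h
    by_cases h3 : m % 2 = 0
    · rw [if_pos h3] at h
      exact ⟨m / 2 + 1, Or.inl ⟨h3, (h2 _).2 ⟨by omega, h⟩⟩⟩
    · rw [if_neg h3] at h
      obtain ⟨k, hk⟩ := h
      refine ⟨k, Or.inr ⟨by omega, ?_⟩⟩
      rw [h6]
      exact hk

theorem chr_WZ {X : ℕ → Bool} : chr {m | WZ ev F X m = true} = WZ ev F X := by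
  funext m
  simp [chr]

theorem le_WZ (X : ℕ → Bool) : TLe X (WZ ev F X) := by
  have hf : Computable fun n : ℕ => 2 * n :=
    (Primrec.nat_mul.comp (Primrec.const 2) Primrec.id).to_comp
  exact tLe_of_computable hf fun n => (WZ_even X n).symm

/-- every set c.e. in `X` is computable in the jump of `X` -/
theorem chr_WE_le_jump (X : ℕ → Bool) (e : ℕ) : TLe (chr (WE X e)) (jump X) := by
  rw [tLe_iff_SI]
  have h1 : SI X fun n : ℕ => n ∈ WE X e :=
    (si_WE X).comp (f := fun n : ℕ => (e, n)) ((Primrec.const e).pair Primrec.id)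
  obtain ⟨h2, h3⟩ := h1.decide_jump
  have h4 : SI (jump X) fun x : ℕ × Bool =>
      (x.1 ∈ WE X e ∧ x.2 = true) ∨ (¬ x.1 ∈ WE X e ∧ x.2 = false) := by
    refine SI.or (SI.and (h2.comp Primrec.fst) (SI.of_prim ?_))
      (SI.and (h3.comp (f := fun x : ℕ × Bool => x.1) Primrec.fst) (SI.of_prim ?_))
    · exact Primrec.eq.comp Primrec.snd (Primrec.const true)
    · exact Primrec.eq.comp Primrec.snd (Primrec.const false)
  refine h4.of_eq fun x => ?_
  rcases x with ⟨n, b⟩
  cases b <;> simp [chr]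

end Pool.Agent.Helper88.GL
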