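import Pool.Agent.Helper88.GL.Index

set_option autoImplicit false

namespace Pool.Agent.Helper88.GL

open Encodable Pool.Agent.Helper227 Pool.Agent.H548R2.Post Filter
open Nat.Partrec (Code)

variable {ev : ℕ → List Bool → Prop} {F : ℕ → ℕ → List Bool → Prop} {X : ℕ → Bool}

theorem en_pre {e z s : ℕ} : en e z (pre X s) ↔ En s e z X := by
  unfold en En
  rw [length_pre]
  constructor
  · rintro ⟨t, ht, h⟩
    exact ⟨t, by omega, by rwa [take_pre X s t (by omega)] at h⟩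
  · rintro ⟨t, ht, h⟩
    exact ⟨t, by omega, by rwa [take_pre X s t (by omega)]⟩

theorem ok_iff {a : List ℕ} {s n z : ℕ} : ok (pre X s) a n z ↔
    (En s n n (jn X a) → ∃ t ≤ s, t ≤ z ∧ hlt s n n (pre (jn X a) t) = true) := by
  unfold ok En
  rw [length_pre]
  constructor
  · rintro h ⟨t, ht, h1⟩
    obtain ⟨t', ht', hz, h2⟩ := h ⟨t, by omega, by rw [pJ_pre a (by omega)]; exact h1⟩
    exact ⟨t', by omega, hz, by rw [← pJ_pre (s := s) a (by omega)]; exact h2⟩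
  · rintro h ⟨t, ht, h1⟩
    obtain ⟨t', ht', hz, h2⟩ := h ⟨t, by omega, by rw [← pJ_pre (s := s) a (by omega)]; exact h1⟩
    exact ⟨t', by omega, hz, by rw [pJ_pre a (by omega)]; exact h2⟩

/-- the new elements of stage `s` respect the `n`-th lowness requirement -/
def Resp (ev : ℕ → List Bool → Prop) (F : ℕ → ℕ → List Bool → Prop) (X : ℕ → Bool) (n s : ℕ) :
    Prop :=
  ∀ z ∈ As ev F X (s + 1), z ∉ As ev F X s → ok (pre X s) (As ev F X s) n z

theorem pre_jn_congr {a b : List ℕ} {t : ℕ} (h : ∀ z < t, z ∈ a ↔ z ∈ b) :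
    pre (jn X a) t = pre (jn X b) t := by
  unfold pre jn
  refine List.map_congr_left fun i hi => ?_
  have hi' := List.mem_range.1 hi
  by_cases h2 : i % 2 = 0
  · rw [if_pos h2, if_pos h2]
  · rw [if_neg h2, if_neg h2]
    have := h (i / 2) (by omega)
    simp only [this]

theorem persist {s n T : ℕ} (hR : Resp ev F X n s)
    (h : ∃ t ≤ T, t ≤ s ∧ hlt s n n (pre (jn X (As ev F X s)) t) = true) :
    ∃ t ≤ T, t ≤ s + 1 ∧ hlt (s + 1) n n (pre (jn X (As ev F X (s + 1))) t) = true := by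
  classical
  obtain ⟨t1, ht1, ht1s, h1⟩ := h
  have hex : ∃ t, t ≤ s ∧ hlt s n n (pre (jn X (As ev F X s)) t) = true := ⟨t1, ht1s, h1⟩
  have h0 := Nat.find_spec hex
  have hmin : ∀ t, t ≤ s → hlt s n n (pre (jn X (As ev F X s)) t) = true → Nat.find hex ≤ t :=
    fun t h1 h2 => Nat.find_min' hex ⟨h1, h2⟩
  refine ⟨Nat.find hex, (hmin t1 ht1s h1).trans ht1, by omega, ?_⟩
  have hnew : ∀ z ∈ As ev F X (s + 1), z ∉ As ev F X s → Nat.find hex ≤ z := by
    intro z hz hz'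
    obtain ⟨t', ht', hz2, h3⟩ := ok_iff.1 (hR z hz hz') ⟨Nat.find hex, h0.1, h0.2⟩
    exact (hmin t' ht' h3).trans hz2
  have h2 : pre (jn X (As ev F X (s + 1))) (Nat.find hex) =
      pre (jn X (As ev F X s)) (Nat.find hex) := by
    refine pre_jn_congr fun z hz => ?_
    constructor
    · intro h3
      by_contra h4
      have := hnew z h3 h4
      omega
    · exact As_mono (Nat.le_succ s)
  rw [h2]
  exact hlt_mono (Nat.le_succ s) h0.2

theorem persist_ge {n T s0 : ℕ} (hR : ∀ s ≥ s0, Resp ev F X n s)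
    (h : ∃ t ≤ T, t ≤ s0 ∧ hlt s0 n n (pre (jn X (As ev F X s0)) t) = true) {s : ℕ}
    (hs : s0 ≤ s) : ∃ t ≤ T, t ≤ s ∧ hlt s n n (pre (jn X (As ev F X s)) t) = true := by
  induction s, hs using Nat.le_induction with
  | base => exact h
  | succ s hs ih => exact persist (hR s hs) ih

theorem bdd_of_resp {n : ℕ} (hR : ∃ s0, ∀ s ≥ s0, Resp ev F X n s) :
    ∃ s0 b, ∀ s ≥ s0, ∀ z ≥ b, ok (pre X s) (As ev F X s) n z := by
  obtain ⟨s0, h0⟩ := hR
  by_cases h : ∃ s1 ≥ s0, En s1 n n (jn X (As ev F X s1))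
  · obtain ⟨s1, hs1, t1, ht1, h1⟩ := h
    refine ⟨s1, t1, fun s hs z hz => ?_⟩
    rw [ok_iff]
    intro _
    obtain ⟨t, ht, hts, h2⟩ := persist_ge (T := t1) (fun s hs => h0 s (hs1.trans hs))
      ⟨t1, le_rfl, ht1, h1⟩ hs
    exact ⟨t, hts, ht.trans hz, h2⟩
  · refine ⟨s0, 0, fun s hs z _ => ?_⟩
    rw [ok_iff]
    intro h3
    exact absurd ⟨s, hs, h3⟩ h

/-- the approximations settle below `b` -/
theorem jn_stable (b : ℕ) :
    ∃ s0, ∀ s ≥ s0, pre (jn X (As ev F X s)) b = pre (WZ ev F X) b := by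
  have h1 : ∀ z < b, ∃ s0, ∀ s ≥ s0, (z ∈ As ev F X s ↔ ∃ s', z ∈ As ev F X s') := by
    intro z _
    by_cases h : ∃ s', z ∈ As ev F X s'
    · obtain ⟨s', hs'⟩ := h
      exact ⟨s', fun s hs => ⟨fun h => ⟨s, h⟩, fun _ => As_mono hs hs'⟩⟩
    · exact ⟨0, fun s _ => ⟨fun h => ⟨s, h⟩, fun h' => absurd h' h⟩⟩
  have h2 : ∀ᶠ s in atTop, ∀ z < b, (z ∈ As ev F X s ↔ ∃ s', z ∈ As ev F X s') := by
    have := (eventually_all_finite (l := (atTop : Filter ℕ)) (Set.finite_lt_nat b)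
      (p := fun z s => (z ∈ As ev F X s ↔ ∃ s', z ∈ As ev F X s'))).2
      fun z hz => eventually_atTop.2 (h1 z hz)
    exact this
  obtain ⟨s0, h3⟩ := eventually_atTop.1 h2
  refine ⟨s0, fun s hs => ?_⟩
  unfold pre
  refine List.map_congr_left fun i hi => ?_
  have hi' := List.mem_range.1 hi
  unfold jn WZ
  by_cases h4 : i % 2 = 0
  · rw [if_pos h4, if_pos h4]
  · rw [if_neg h4, if_neg h4]
    exact decide_eq_decide.2 (h3 s hs (i / 2) (by omega))

theorem jump_true {n : ℕ} (h : jump (WZ ev F X) n = true) :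
    ∃ s0, ∀ s ≥ s0, En s n n (jn X (As ev F X s)) := by
  rw [jump_eq_true, mem_WE_iff] at h
  obtain ⟨s1, t, ht, h1⟩ := h
  obtain ⟨s0, h0⟩ := jn_stable (ev := ev) (F := F) (X := X) t
  refine ⟨max s0 s1, fun s hs => ⟨t, by omega, ?_⟩⟩
  rw [h0 s (by omega)]
  exact hlt_mono (by omega) h1

theorem jump_false {n : ℕ} (hR : ∃ s0, ∀ s ≥ s0, Resp ev F X n s)
    (h : jump (WZ ev F X) n = false) :
    ∃ s0, ∀ s ≥ s0, ¬ En s n n (jn X (As ev F X s)) := by
  obtain ⟨s0, h0⟩ := hR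
  refine ⟨s0, fun s1 hs1 h1 => ?_⟩
  obtain ⟨t1, ht1, h1⟩ := h1
  obtain ⟨s2, h2⟩ := jn_stable (ev := ev) (F := F) (X := X) t1
  obtain ⟨t, ht, hts, h3⟩ := persist_ge (T := t1) (fun s hs => h0 s (hs1.trans hs))
      ⟨t1, le_rfl, ht1, h1⟩ (le_max_left s1 s2)
  have h4 : pre (jn X (As ev F X (max s1 s2))) t = pre (WZ ev F X) t := by
    have h5 := h2 (max s1 s2) (le_max_right _ _)
    have h6 := congrArg (List.take t) h5
    rwa [take_pre _ _ _ ht, take_pre _ _ _ ht] at h6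
  rw [h4] at h3
  have h5 : jump (WZ ev F X) n = true := by
    rw [jump_eq_true, mem_WE_iff]
    exact ⟨_, t, hts, h3⟩
  rw [h] at h5
  exact Bool.noConfusion h5

/-- the guess `m` is true -/
def Tr (ev : ℕ → List Bool → Prop) (X : ℕ → Bool) (m : ℕ) : Prop :=
  ∀ s0, ∃ s ≥ s0, ev m (pre X s)

/-- the set coded for the sake of the guess `m` -/
def Vm (F : ℕ → ℕ → List Bool → Prop) (X : ℕ → Bool) (m : ℕ) : Set ℕ :=
  {y | ∃ s, F m y (pre X s)}

theorem ev_not_of_not_Tr {m : ℕ} (h : ¬ Tr ev X m) : ∀ᶠ s in atTop, ¬ ev m (pre X s) := by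
  unfold Tr at h
  push Not at h
  exact eventually_atTop.2 h

theorem new_finite {S : Set ℕ} (hS : S.Finite) :
    ∀ᶠ s in atTop, ∀ z ∈ S, z ∈ As ev F X (s + 1) → z ∈ As ev F X s := by
  refine (eventually_all_finite hS).2 fun z _ => ?_
  by_cases h : ∃ s', z ∈ As ev F X s'
  · obtain ⟨s', hs'⟩ := h
    exact eventually_atTop.2 ⟨s', fun s hs _ => As_mono hs hs'⟩
  · exact Eventually.of_forall fun s h' => absurd ⟨_, h'⟩ h

/-- the diagonalization requirement of the odd column `p` acts at stage `s` -/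
def Act (ev : ℕ → List Bool → Prop) (F : ℕ → ℕ → List Bool → Prop) (X : ℕ → Bool) (p s : ℕ) :
    Prop :=
  ∃ z < s, z.unpair.1 = p ∧ p % 2 = 1 ∧ en (p / 2) z (pre X s) ∧
    (∀ w ∈ As ev F X s, ¬ en (p / 2) w (pre X s)) ∧ ∀ n < p, ok (pre X s) (As ev F X s) n z

theorem ev_not_Act (p : ℕ) : ∀ᶠ s in atTop, ¬ Act ev F X p s := by
  by_cases h : ∃ s, Act ev F X p s
  · obtain ⟨s1, z, hz, h1, h2, h3, h4, h5⟩ := h
    refine eventually_atTop.2 ⟨s1 + 1, fun s hs => ?_⟩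
    rintro ⟨z', _, _, _, _, h6, _⟩
    have h7 : z ∈ As ev F X (s1 + 1) := by
      refine mem_As_succ.2 (Or.inr ⟨hz, Or.inr (Or.inr ?_)⟩)
      rw [h1]
      exact ⟨h2, h3, h4, h5⟩
    refine h6 z (As_mono hs h7) ?_
    rw [en_pre] at h3 ⊢
    exact En_mono (by omega) h3
  · exact Eventually.of_forall fun s h' => absurd ⟨s, h'⟩ h

/-- If the guesses `m` with `2 * m < N` are false, the first `N` lowness requirements are
eventually respected. -/
theorem ev_resp {N : ℕ} (h : ∀ m, 2 * m < N → ¬ Tr ev X m ∧ (Vm F X m).Finite) :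
    ∀ᶠ s in atTop, ∀ n < N, Resp ev F X n s := by
  have a1 : ∀ᶠ s in atTop, ∀ m ∈ {m : ℕ | 2 * m < N}, ¬ ev m (pre X s) := by
    refine (eventually_all_finite ?_).2 fun m hm => ev_not_of_not_Tr (h m hm).1
    exact (Set.finite_lt_nat N).subset fun m hm => by
      simp only [Set.mem_ofPred_eq] at hm ⊢
      omega
  have a2 : ∀ᶠ s in atTop, ∀ m ∈ {m : ℕ | 2 * m < N},
      ∀ z ∈ (fun y => Nat.pair (2 * m) y) '' (Vm F X m),
        z ∈ As ev F X (s + 1) → z ∈ As ev F X s := by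
    refine (eventually_all_finite ?_).2 fun m hm => new_finite ((h m hm).2.image _)
    exact (Set.finite_lt_nat N).subset fun m hm => by
      simp only [Set.mem_ofPred_eq] at hm ⊢
      omega
  have a3 : ∀ᶠ s in atTop, ∀ p ∈ {p : ℕ | p < N}, ¬ Act ev F X p s :=
    (eventually_all_finite (Set.finite_lt_nat N)).2 fun p _ => ev_not_Act p
  filter_upwards [a1, a2, a3] with s b1 b2 b3 n hn z hz hz'
  rcases mem_As_succ.1 hz with hh | ⟨hzs, hg⟩
  · exact absurd hh hz'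
  rcases hg with ⟨g1, g2, g3⟩ | ⟨m, hm, hm2, g2, g3⟩ | ⟨g1, g2, g3, g4⟩
  · by_cases hp : z.unpair.1 < N
    · exfalso
      refine hz' (b2 (z.unpair.1 / 2) ?_ z ⟨z.unpair.2, ⟨s, g2⟩, ?_⟩ hz)
      · show 2 * (z.unpair.1 / 2) < N
        omega
      · have : 2 * (z.unpair.1 / 2) = z.unpair.1 := by omega
        simp only [this]
        exact Nat.pair_unpair z
    · exact g3 n (by omega)
  · by_cases hp : 2 * m < N
    · exact absurd g2 (b1 m hp)
    · exact g3 n (by omega)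
  · by_cases hp : z.unpair.1 < N
    · exact absurd ⟨z, hzs, rfl, g1, g2, g3, g4⟩ (b3 _ hp)
    · exact g4 n (by omega)

theorem ev_bdd {N : ℕ} (h : ∀ m, 2 * m < N → ¬ Tr ev X m ∧ (Vm F X m).Finite) :
    ∃ s0 b, ∀ s ≥ s0, ∀ z ≥ b, ∀ n < N, ok (pre X s) (As ev F X s) n z := by
  obtain ⟨s1, h1⟩ := eventually_atTop.1 (ev_resp h)
  have h2 : ∀ n ∈ {n : ℕ | n < N}, ∀ᶠ c in atTop, ∀ s ≥ c, ∀ z ≥ c,
      ok (pre X s) (As ev F X s) n z := by
    intro n hn
    obtain ⟨s0, b, h3⟩ := bdd_of_resp (n := n) ⟨s1, fun s hs => h1 s hs n hn⟩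
    exact eventually_atTop.2 ⟨max s0 b, fun c hc s hs z hz => h3 s (by omega) z (by omega)⟩
  obtain ⟨c, hc⟩ := eventually_atTop.1 ((eventually_all_finite (Set.finite_lt_nat N)).2 h2)
  exact ⟨c, c, fun s hs z hz n hn => hc c le_rfl n hn s hs z hz⟩

end Pool.Agent.Helper88.GL
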