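import Pool.Agent.Helper88.GL.Glue

set_option autoImplicit false

namespace Pool.Agent.Helper88.GL

open Encodable Pool.Agent.Helper227 Pool.Agent.H548R2.Post
open Nat.Partrec (Code)

theorem join_le {X Y Z : ℕ → Bool} (h1 : TLe X Z) (h2 : TLe Y Z) : TLe (join X Y) Z := by
  rw [tLe_iff_SI] at h1 h2 ⊢
  have hm : PrimrecPred fun x : ℕ × Bool => x.1 % 2 = 0 :=
    Primrec.eq.comp (Primrec.nat_mod.comp Primrec.fst (Primrec.const 2)) (Primrec.const 0)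
  have hc : Primrec fun x : ℕ × Bool => (x.1 / 2, x.2) :=
    Primrec.pair (Primrec.nat_div.comp Primrec.fst (Primrec.const 2)) Primrec.snd
  refine (SI.or (SI.and (SI.of_prim hm) (h1.comp hc))
    (SI.and (SI.of_prim hm.not) (h2.comp hc))).of_eq fun x => ?_
  unfold join
  by_cases hx : x.1 % 2 = 0
  · simp [hx]
  · simp [hx]

theorem le_join_right (X Y : ℕ → Bool) : TLe Y (join X Y) := by
  have hf : Computable fun n : ℕ => 2 * n + 1 :=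
    (Primrec.succ.comp (Primrec.nat_mul.comp (Primrec.const 2) Primrec.id)).to_comp
  refine tLe_of_computable hf fun n => ?_
  have h1 : ¬ (2 * n + 1) % 2 = 0 := by omega
  have h2 : (2 * n + 1) / 2 = n := by omega
  simp only [join, if_neg h1, h2]

theorem TLe.tr {X Y Z : ℕ → Bool} (h1 : TLe X Y) (h2 : TLe Y Z) : TLe X Z :=
  TuringReducible.trans h1 h2

/-- `X` and `Y` are Turing equivalent. -/
def TEq (X Y : ℕ → Bool) : Prop := TLe X Y ∧ TLe Y X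

theorem TEq.symm {X Y : ℕ → Bool} (h : TEq X Y) : TEq Y X := ⟨h.2, h.1⟩

theorem TEq.tr {X Y Z : ℕ → Bool} (h1 : TEq X Y) (h2 : TEq Y Z) : TEq X Z :=
  ⟨TLe.tr h1.1 h2.1, TLe.tr h2.2 h1.2⟩

/-- Condition (i) for the index `e` at the set `X`. -/
def Btw (e : ℕ) (X : ℕ → Bool) : Prop :=
  TLe X (chr (WE X e)) ∧ ¬ TLe (chr (WE X e)) X ∧
    TLe (chr (WE X e)) (jump X) ∧ ¬ TLe (jump X) (chr (WE X e))

/-- `P` is a (lightface) `Σ⁰₃` relation between sets and numbers. -/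
def Sg3 (P : (ℕ → Bool) → ℕ → Prop) : Prop :=
  ∃ E : (ℕ × ℕ × ℕ) × List Bool → Prop, REPred E ∧
    ∀ X v, P X v ↔ ∃ k, ∀ a, ∃ s, E ((k, a, v), pre X s)

theorem gluing {P : (ℕ → Bool) → ℕ → Prop} (hP : Sg3 P) (hB : ∀ X v, P X v → Btw v X)
    (hC : ∀ X v Y w, P X v → P Y w → TEq X Y → TEq (chr (WE X v)) (chr (WE Y w))) :
    ∃ e : ℕ, (∀ X, Btw e X) ∧
      (∀ X v Y, P X v → TEq X Y → TEq (chr (WE Y e)) (chr (WE X v))) ∧
      ∀ Y, (¬ ∃ X v, P X v ∧ TEq X Y) → TLe (jump (chr (WE Y e))) (jump Y) := by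
  classical
  obtain ⟨E, hE, hPE⟩ := hP
  obtain ⟨R, hR, eR⟩ := pi2_TT hE
  have hof : Primrec fun m : ℕ => Denumerable.ofNat (ℕ × ℕ × ℕ × ℕ) m := Primrec.ofNat _
  have hR' : UI fun Y (x : ℕ × ℕ) => R Y (Denumerable.ofNat (ℕ × ℕ × ℕ × ℕ) x.1, x.2) :=
    hR.comp (f := fun x : ℕ × ℕ => (Denumerable.ofNat (ℕ × ℕ × ℕ × ℕ) x.1, x.2))
      (Primrec.pair (hof.comp Primrec.fst) Primrec.snd)
  have hU' : UI fun Y (x : ℕ × ℕ) => HX Y (Denumerable.ofNat (ℕ × ℕ × ℕ × ℕ) x.1).1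
      (Denumerable.ofNat (ℕ × ℕ × ℕ × ℕ) x.1).2.2.2 x.2 := by
    refine ui_HX.comp (f := fun x : ℕ × ℕ => ((Denumerable.ofNat (ℕ × ℕ × ℕ × ℕ) x.1).1,
      (Denumerable.ofNat (ℕ × ℕ × ℕ × ℕ) x.1).2.2.2, x.2)) ?_
    exact Primrec.pair (Primrec.fst.comp (hof.comp Primrec.fst))
      (Primrec.pair (Primrec.snd.comp (Primrec.snd.comp (Primrec.snd.comp
        (hof.comp Primrec.fst)))) Primrec.snd)
  obtain ⟨e, he⟩ := exists_guess hR' hU'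
  have key : ∀ (Y : ℕ → Bool) (m : ℕ),
      (∀ c, R Y (Denumerable.ofNat (ℕ × ℕ × ℕ × ℕ) m, c)) ↔
        TT E Y (Denumerable.ofNat (ℕ × ℕ × ℕ × ℕ) m) := fun Y m => (eR Y _).symm
  -- the sets with a true guess
  have h1 : ∀ (Y : ℕ → Bool), (∃ X v, P X v ∧ TEq X Y) →
      ∃ X v, P X v ∧ TEq X Y ∧ TEq (chr (WE Y e)) (chr (WE X v)) := by
    rintro Y ⟨X, v, hXv, hXY⟩
    obtain ⟨k, hk⟩ := (hPE X v).1 hXv
    obtain ⟨i, j, hT⟩ := TT_complete hXY.1 hXY.2 hk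
    have hex : ∃ m, TT E Y (Denumerable.ofNat (ℕ × ℕ × ℕ × ℕ) m) :=
      ⟨encode (i, j, k, v), by rw [Denumerable.ofNat_encode]; exact hT⟩
    have h2 := Nat.find_spec hex
    have h3 := (he Y).2.2 (Nat.find hex) ((key Y _).2 h2)
      fun m' hm' => by rw [key]; exact Nat.find_min hex hm'
    rcases h4 : Denumerable.ofNat (ℕ × ℕ × ℕ × ℕ) (Nat.find hex) with ⟨i', j', k', w⟩
    simp only [h4] at h3
    rw [h4] at h2
    obtain ⟨Z, hZ1, hZ2, hZ3, hZ4⟩ := TT_sound h2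
    have hZw : P Z w := (hPE Z w).2 ⟨k', hZ3⟩
    have h5 : {y | HX Y i' w y} = WE Z w := by
      ext y
      exact hZ4 w y
    rw [h5] at h3
    have h6 : TLe Y (chr (WE Z w)) := TLe.tr hZ2 (hB Z w hZw).1
    refine ⟨Z, w, hZw, ⟨hZ1, hZ2⟩, ?_, ?_⟩
    · exact TLe.tr h3.1 (join_le h6 (TuringReducible.refl _))
    · exact TLe.tr (le_join_right Y _) h3.2
  have h2 : ∀ Y : ℕ → Bool, (¬ ∃ X v, P X v ∧ TEq X Y) → ∀ m,
      ¬ ∀ c, R Y (Denumerable.ofNat (ℕ × ℕ × ℕ × ℕ) m, c) := by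
    intro Y hY m hm
    rw [key] at hm
    rcases h4 : Denumerable.ofNat (ℕ × ℕ × ℕ × ℕ) m with ⟨i', j', k', w⟩
    rw [h4] at hm
    obtain ⟨Z, hZ1, hZ2, hZ3, -⟩ := TT_sound hm
    exact hY ⟨Z, w, (hPE Z w).2 ⟨k', hZ3⟩, hZ1, hZ2⟩
  refine ⟨e, fun Y => ?_, fun X v Y hXv hXY => ?_, fun Y hY => ?_⟩
  · by_cases hY : ∃ X v, P X v ∧ TEq X Y
    · obtain ⟨X, v, hXv, hXY, h3⟩ := h1 Y hY
      obtain ⟨b1, b2, b3, b4⟩ := hB X v hXv
      refine ⟨(he Y).1, fun h => b2 ?_, chr_WE_le_jump Y e, fun h => b4 ?_⟩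
      · exact TLe.tr h3.2 (TLe.tr h hXY.2)
      · exact TLe.tr (TLe.jump hXY.1) (TLe.tr h h3.1)
    · obtain ⟨b1, b2⟩ := (he Y).2.1 (h2 Y hY)
      exact ⟨(he Y).1, b1, chr_WE_le_jump Y e, fun h => not_jump_le _ (TLe.tr b2 h)⟩
  · obtain ⟨Z, w, hZw, hZY, h3⟩ := h1 Y ⟨X, v, hXv, hXY⟩
    exact h3.tr (hC Z w X v hZw hXv (hZY.tr hXY.symm))
  · exact ((he Y).2.1 (h2 Y hY)).2

end Pool.Agent.Helper88.GL
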