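import Pool.Agent.Helper88.GL.Cor
import Pool.Graph.R_seed8.Helper227.Meas

set_option autoImplicit false

/-!
Measure: the theorem of Sacks on cones, relativized, and effective null sets.
-/

namespace Pool.Agent.Helper88.GL

open Encodable Pool.Agent.Helper227 Pool.Agent.H548R2.Post MeasureTheory
open scoped ENNReal
open Nat.Partrec (Code)

def pjn (τ σ : List Bool) (s : ℕ) : List Bool :=
  (List.range s).map fun i => if i % 2 = 0 then τ.getD (i / 2) false else σ.getD (i / 2) false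

theorem pjn_pre {X B : ℕ → Bool} {s t s' : ℕ} (h1 : s ≤ t) (h2 : s ≤ s') :
    pjn (pre X t) (pre B s') s = pre (join X B) s := by
  unfold pjn
  conv_rhs => unfold pre
  refine List.map_congr_left fun i hi => ?_
  have hi' := List.mem_range.1 hi
  unfold join
  rw [pre_getD X t (i / 2) false (by omega), pre_getD B s' (i / 2) false (by omega)]

theorem primrec_pjn : Primrec fun x : (List Bool × List Bool) × ℕ => pjn x.1.1 x.1.2 x.2 := by
  have hd : Primrec fun y : ((List Bool × List Bool) × ℕ) × ℕ => y.2 / 2 :=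
    Primrec.nat_div.comp Primrec.snd (Primrec.const 2)
  have hm : Primrec fun y : ((List Bool × List Bool) × ℕ) × ℕ => y.2 % 2 :=
    Primrec.nat_mod.comp Primrec.snd (Primrec.const 2)
  have h2 : Primrec₂ fun (x : (List Bool × List Bool) × ℕ) (i : ℕ) =>
      if i % 2 = 0 then x.1.1.getD (i / 2) false else x.1.2.getD (i / 2) false :=
    Primrec.ite (Primrec.eq.comp hm (Primrec.const 0))
      ((Primrec.list_getD false).comp (Primrec.fst.comp (Primrec.fst.comp Primrec.fst)) hd)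
      ((Primrec.list_getD false).comp (Primrec.snd.comp (Primrec.fst.comp Primrec.fst)) hd)
  exact Primrec.list_map (Primrec.list_range.comp Primrec.snd) h2

theorem ui_join_iff {α : Type*} [Primcodable α] {q : (ℕ → Bool) → α → Prop}
    {E : List Bool × α → Prop} (eE : ∀ B a, q B a ↔ ∃ s, E (pre B s, a)) (X B : ℕ → Bool)
    (a : α) : q (join X B) a ↔ ∃ s' t, ∃ s : ℕ, (s ≤ (pre B s').length ∧ s ≤ (pre X t).length) ∧
      E (pjn (pre X t) (pre B s') s, a) := by
  rw [eE]
  constructor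
  · rintro ⟨s, hs⟩
    refine ⟨s, s, s, ⟨by simp, by simp⟩, ?_⟩
    rwa [pjn_pre le_rfl le_rfl]
  · rintro ⟨s', t, s, ⟨h1, h2⟩, h3⟩
    rw [length_pre] at h1 h2
    rw [pjn_pre h2 h1] at h3
    exact ⟨s, h3⟩

theorem half_pow (n : ℕ) : (1 / 2 : ℝ≥0∞) ^ n = ((1 : ℕ) : ℝ≥0∞) / ((2 ^ n : ℕ) : ℝ≥0∞) := by
  rw [one_div, ← ENNReal.inv_pow]
  push_cast
  rw [one_div]

/-- The measure of a uniformly c.e. open set exceeding a power of one half is c.e. -/
theorem si_measure_gt {α : Type*} [Primcodable α] {q : (ℕ → Bool) → α → Prop} (hq : UI q)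
    (B : ℕ → Bool) {f : α → ℕ} (hf : Primrec f) :
    SI B fun a => (1 / 2 : ℝ≥0∞) ^ f a < lam {X | q (join X B) a} := by
  obtain ⟨E, hE, mE, eE⟩ := hq
  set P : α × List Bool → List Bool → Prop := fun x τ =>
    ∃ s : ℕ, (s ≤ x.2.length ∧ s ≤ τ.length) ∧ E (pjn τ x.2 s, x.1) with hP
  have hP1 : S1 fun x : (α × List Bool) × List Bool => P x.1 x.2 := by
    refine S1.ex (p := fun (x : (α × List Bool) × List Bool) (s : ℕ) =>
      (s ≤ x.1.2.length ∧ s ≤ x.2.length) ∧ E (pjn x.2 x.1.2 s, x.1.1))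
      (S1.and (S1.of_prim (PrimrecPred.and ?_ ?_)) ?_)
    · exact Primrec.nat_le.comp Primrec.snd (Primrec.list_length.comp
        (Primrec.snd.comp (Primrec.fst.comp Primrec.fst)))
    · exact Primrec.nat_le.comp Primrec.snd (Primrec.list_length.comp
        (Primrec.snd.comp Primrec.fst))
    · refine S1.comp (f := fun x : ((α × List Bool) × List Bool) × ℕ =>
        (pjn x.1.2 x.1.1.2 x.2, x.1.1.1)) hE ?_
      exact Primrec.pair (primrec_pjn.comp (Primrec.pair (Primrec.pair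
        (Primrec.snd.comp Primrec.fst) (Primrec.snd.comp (Primrec.fst.comp Primrec.fst)))
        Primrec.snd)) (Primrec.fst.comp (Primrec.fst.comp Primrec.fst))
  have h1 := s1_measure_gt (a := fun _ : α × List Bool => 1) (b := fun x => 2 ^ f x.1) hP1
    (Primrec.const 1) (Helper227.primrec_pow.comp (Primrec.const 2) (hf.comp Primrec.fst))
    (fun x => by positivity)
  refine ⟨fun x => ((1 : ℕ) : ℝ≥0∞) / ((2 ^ f x.2 : ℕ) : ℝ≥0∞) <
    lam {X | ∃ t, P (x.2, x.1) (pre X t)}, ?_, ?_, fun a => ?_⟩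
  · exact S1.comp (f := fun x : List Bool × α => (x.2, x.1)) h1
      (Primrec.pair Primrec.snd Primrec.fst)
  · rintro σ τ a ⟨ρ, rfl⟩ h2
    refine lt_of_lt_of_le h2 (measure_mono ?_)
    rintro X ⟨t, s, ⟨h3, h4⟩, h5⟩
    refine ⟨t, s, ⟨?_, h4⟩, ?_⟩
    · simp only [List.length_append] at h3 ⊢
      omega
    · have e1 : pjn (pre X t) (σ ++ ρ) s = pjn (pre X t) σ s := by
        unfold pjn
        refine List.map_congr_left fun i hi => ?_
        have hi' := List.mem_range.1 hi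
        by_cases h6 : i % 2 = 0
        · rw [if_pos h6, if_pos h6]
        · rw [if_neg h6, if_neg h6]
          simp only at h3
          have h7 : i / 2 < σ.length := by omega
          simp only [List.getD, List.getElem?_append_left h7]
      simp only [e1]
      exact h5
  · have h2 : {X | q (join X B) a} = ⋃ s', {X | ∃ t, P (a, pre B s') (pre X t)} := by
      ext X
      simp only [Set.mem_ofPred_eq, Set.mem_iUnion]
      exact ui_join_iff eE X B a
    have h3 : Monotone fun s' => {X : ℕ → Bool | ∃ t, P (a, pre B s') (pre X t)} := by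
      intro s s' hs X hX
      obtain ⟨t, u, ⟨h4, h5⟩, h6⟩ := hX
      simp only [length_pre] at h4 h5
      refine ⟨t, u, ⟨by simp only [length_pre]; omega, by simp only [length_pre]; omega⟩, ?_⟩
      simp only at h6 ⊢
      rw [pjn_pre h5 h4] at h6
      rwa [pjn_pre h5 (by omega)]
    show (1 / 2 : ℝ≥0∞) ^ f a < lam {X | q (join X B) a} ↔
      ∃ s, ((1 : ℕ) : ℝ≥0∞) / ((2 ^ f a : ℕ) : ℝ≥0∞) < lam {X | ∃ t, P (a, pre B s) (pre X t)}
    rw [h2, h3.measure_iUnion, half_pow, lt_iSup_iff]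

/-- The open sets given by uniformly c.e. predicates. -/
theorem open_of_ui {α : Type*} [Primcodable α] {q : (ℕ → Bool) → α → Prop} (hq : UI q)
    (B : ℕ → Bool) (a : α) : ∃ P : List Bool → Prop,
      {X | q (join X B) a} = {X | ∃ t, P (pre X t)} := by
  obtain ⟨E, hE, mE, eE⟩ := hq
  refine ⟨fun τ => ∃ s', ∃ s : ℕ, (s ≤ (pre B s').length ∧ s ≤ τ.length) ∧
    E (pjn τ (pre B s') s, a), ?_⟩
  ext X
  simp only [Set.mem_ofPred_eq]
  rw [ui_join_iff eE X B a, exists_comm]

/-- The value of the `e`-th functional at `i` is `b`: of the two numbers coding `(i, b)` and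
`(i, !b)` the first is enumerated before the second. -/
def fbv (e i : ℕ) (b : Bool) (Z : ℕ → Bool) : Prop :=
  ∃ s, En s e (encode (i, b)) Z ∧ ¬ En s e (encode (i, !b)) Z

theorem ui_fbv : UI fun Z (x : ℕ × ℕ × Bool) => fbv x.1 x.2.1 x.2.2 Z := by
  unfold fbv
  have h1 : UI fun Z (x : (ℕ × ℕ × Bool) × ℕ) =>
      en x.1.1 (encode (x.1.2.1, x.1.2.2)) (pre Z x.2) ∧
      ¬ en x.1.1 (encode (x.1.2.1, !x.1.2.2)) (pre Z x.2) := by
    refine UI.of_dec (p := fun y : List Bool × (ℕ × ℕ × Bool) =>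
      en y.2.1 (encode (y.2.2.1, y.2.2.2)) y.1 ∧ ¬ en y.2.1 (encode (y.2.2.1, !y.2.2.2)) y.1) ?_
    have k1 : Primrec fun y : List Bool × (ℕ × ℕ × Bool) => y.2.1 :=
      Primrec.fst.comp Primrec.snd
    have k2 : Primrec fun y : List Bool × (ℕ × ℕ × Bool) => y.2.2.1 :=
      Primrec.fst.comp (Primrec.snd.comp Primrec.snd)
    have k3 : Primrec fun y : List Bool × (ℕ × ℕ × Bool) => y.2.2.2 :=
      Primrec.snd.comp (Primrec.snd.comp Primrec.snd)
    refine PrimrecPred.and ?_ (PrimrecPred.not ?_)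
    · exact pp_en.comp (f := fun y : List Bool × (ℕ × ℕ × Bool) =>
        ((y.2.1, encode (y.2.2.1, y.2.2.2)), y.1))
        (Primrec.pair (Primrec.pair k1 (Primrec.encode.comp (Primrec.pair k2 k3))) Primrec.fst)
    · exact pp_en.comp (f := fun y : List Bool × (ℕ × ℕ × Bool) =>
        ((y.2.1, encode (y.2.2.1, !y.2.2.2)), y.1))
        (Primrec.pair (Primrec.pair k1 (Primrec.encode.comp (Primrec.pair k2
          (Primrec.not.comp k3)))) Primrec.fst)
  refine (UI.ex (p := fun Z (x : ℕ × ℕ × Bool) (s : ℕ) =>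
    en x.1 (encode (x.2.1, x.2.2)) (pre Z s) ∧ ¬ en x.1 (encode (x.2.1, !x.2.2)) (pre Z s))
    h1).of_eq fun Z x => ?_
  simp only [en_pre]

theorem fbv_unique {e i : ℕ} {b b' : Bool} {Z : ℕ → Bool} (h : fbv e i b Z)
    (h' : fbv e i b' Z) : b = b' := by
  obtain ⟨s, h1, h2⟩ := h
  obtain ⟨s', h3, h4⟩ := h'
  by_contra hne
  have e1 : b' = !b := by cases b <;> cases b' <;> simp_all
  subst e1
  rw [Bool.not_not] at h4
  rcases le_total s s' with h | h
  · exact h4 (En_mono h h1)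
  · exact h2 (En_mono h h3)

theorem fbv_of_graph {e : ℕ} {D Z : ℕ → Bool}
    (h : ∀ (n : ℕ) (b : Bool), encode (n, b) ∈ WE Z e ↔ D n = b) (i : ℕ) :
    fbv e i (D i) Z := by
  obtain ⟨s, hs⟩ := (mem_WE_iff Z e _).1 ((h i (D i)).2 rfl)
  refine ⟨s, hs, fun h1 => ?_⟩
  have h2 := (h i (!D i)).1 ((mem_WE_iff Z e _).2 ⟨s, h1⟩)
  cases h3 : D i <;> rw [h3] at h2 <;> exact Bool.noConfusion h2

end Pool.Agent.Helper88.GL
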