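import Pool.Agent.Helper88.GL.Rel

set_option autoImplicit false

namespace Pool.Agent.Helper88.GL

open Encodable Pool.Agent.Helper227 Pool.Agent.H548R2.Post MeasureTheory
open scoped ENNReal
open Nat.Partrec (Code)

theorem join_ev (X Y : ℕ → Bool) (k : ℕ) : join X Y (2 * k) = X k := by
  unfold join
  rw [if_pos (by omega)]
  congr 1
  omega

theorem join_od (X Y : ℕ → Bool) (k : ℕ) : join X Y (2 * k + 1) = Y k := by
  unfold join
  rw [if_neg (by omega)]
  congr 1
  omega

/-- An open set is the disjoint union of the cylinders of its minimal strings. -/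
theorem half_bound {P : List Bool → Prop} {E : Set (ℕ → Bool)}
    (hE : E ⊆ {X | ∃ t, P (pre X t)})
    (h : ∀ σ : List Bool, lam (E ∩ cyl σ) ≤ (1 / 2) * lam (cyl σ)) :
    lam E ≤ (1 / 2) * lam {X | ∃ t, P (pre X t)} := by
  classical
  set M : Set (List Bool) := {σ | P σ ∧ ∀ t < σ.length, ¬ P (σ.take t)} with hM
  have h1 : {X : ℕ → Bool | ∃ t, P (pre X t)} = ⋃ σ ∈ M, cyl σ := by
    ext X
    simp only [Set.mem_ofPred_eq, Set.mem_iUnion, exists_prop]
    constructor
    · intro hX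
      refine ⟨pre X (Nat.find hX), ⟨Nat.find_spec hX, fun t ht => ?_⟩, ?_⟩
      · rw [length_pre] at ht
        rw [take_pre X _ t ht.le]
        exact Nat.find_min hX ht
      · rw [mem_cyl_iff, length_pre]
    · rintro ⟨σ, ⟨h2, _⟩, h3⟩
      rw [mem_cyl_iff] at h3
      exact ⟨σ.length, by rwa [h3]⟩
  have hc : M.Countable := Set.to_countable _
  have hd : M.PairwiseDisjoint fun σ => cyl σ := by
    have key : ∀ σ ∈ M, ∀ τ ∈ M, ∀ X, X ∈ cyl σ → X ∈ cyl τ → ¬ σ.length < τ.length := by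
      intro σ hσ τ hτ X h2 h3 hlt
      rw [mem_cyl_iff] at h2 h3
      refine hτ.2 σ.length hlt ?_
      have h4 : τ.take σ.length = σ := by
        rw [← h3, take_pre X _ _ hlt.le, h2]
      rw [h4]
      exact hσ.1
    intro σ hσ τ hτ hne
    refine Set.disjoint_left.2 fun X h2 h3 => hne ?_
    have h4 := key σ hσ τ hτ X h2 h3
    have h5 := key τ hτ σ hσ X h3 h2
    rw [mem_cyl_iff] at h2 h3
    have h6 : σ.length = τ.length := by omega
    rw [← h2, ← h3, h6]
  have h2 : E = ⋃ σ ∈ M, E ∩ cyl σ := by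
    have : E = E ∩ ⋃ σ ∈ M, cyl σ := by
      rw [← h1]
      exact (Set.inter_eq_left.2 hE).symm
    rw [Set.inter_iUnion₂] at this
    exact this
  calc lam E = lam (⋃ σ ∈ M, E ∩ cyl σ) := by rw [← h2]
    _ ≤ ∑' σ : M, lam (E ∩ cyl (σ : List Bool)) := measure_biUnion_le lam hc _
    _ ≤ ∑' σ : M, (1 / 2) * lam (cyl (σ : List Bool)) := ENNReal.tsum_le_tsum fun σ => h _
    _ = (1 / 2) * ∑' σ : M, lam (cyl (σ : List Bool)) := ENNReal.tsum_mul_left
    _ = (1 / 2) * lam (⋃ σ ∈ M, cyl σ) := by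
      rw [measure_biUnion hc hd fun σ _ => measurableSet_cyl σ]
    _ = (1 / 2) * lam {X | ∃ t, P (pre X t)} := by rw [h1]

theorem measurable_of_open {U : Set (ℕ → Bool)} (h : ∃ P : List Bool → Prop,
    U = {X | ∃ t, P (pre X t)}) : MeasurableSet U := by
  obtain ⟨P, rfl⟩ := h
  exact measurableSet_open fun _ => P

/-- Lebesgue density for a decreasing intersection of open sets. -/
theorem density {U : ℕ → Set (ℕ → Bool)} (hU : ∀ n, ∃ P : List Bool → Prop,
    U n = {X | ∃ t, P (pre X t)}) (ha : Antitone U) (h0 : lam (⋂ n, U n) ≠ 0) :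
    ∃ σ : List Bool, (1 / 2) ^ (σ.length + 1) < lam ((⋂ n, U n) ∩ cyl σ) := by
  by_contra hcon
  push Not at hcon
  have h1 : ∀ n, lam (⋂ n, U n) ≤ (1 / 2) * lam (U n) := by
    intro n
    obtain ⟨P, hP⟩ := hU n
    rw [hP]
    refine half_bound ?_ fun σ => ?_
    · rw [← hP]
      exact Set.iInter_subset _ n
    · refine (hcon σ).trans (le_of_eq ?_)
      rw [lam_cyl, pow_succ, mul_comm]
  have h2 : Filter.Tendsto (fun n => lam (U n)) Filter.atTop (nhds (lam (⋂ n, U n))) :=
    tendsto_measure_iInter_atTop (fun n => (measurable_of_open (hU n)).nullMeasurableSet) ha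
      ⟨0, measure_ne_top _ _⟩
  have h3 : Filter.Tendsto (fun n => (1 / 2 : ℝ≥0∞) * lam (U n)) Filter.atTop
      (nhds ((1 / 2) * lam (⋂ n, U n))) :=
    ENNReal.Tendsto.const_mul h2 (Or.inr (by norm_num))
  have h4 : lam (⋂ n, U n) ≤ (1 / 2) * lam (⋂ n, U n) := ge_of_tendsto' h3 h1
  have h5 : (1 / 2) * lam (⋂ n, U n) < lam (⋂ n, U n) := by
    rw [one_div, mul_comm, ← div_eq_mul_inv]
    exact ENNReal.half_lt_self h0 (measure_ne_top _ _)
  exact absurd h4 (not_le.2 h5)

theorem half_add (k : ℕ) : (1 / 2 : ℝ≥0∞) ^ (k + 1) + (1 / 2) ^ (k + 1) = (1 / 2) ^ k := by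
  rw [pow_succ, ← mul_add, one_div, ENNReal.inv_two_add_inv_two, mul_one]

def Ue (C D : ℕ → Bool) (e n : ℕ) : Set (ℕ → Bool) :=
  {X | ∀ i < n, fbv e i (D i) (join X C)}

theorem Ue_open (C D : ℕ → Bool) (e n : ℕ) : ∃ P : List Bool → Prop,
    Ue C D e n = {X | ∃ t, P (pre X t)} := by
  have hq : UI fun Z (L : List Bool) => ∀ i < L.length, fbv e i (L.getD i false) Z := by
    refine UI.all_lt (p := fun Z (L : List Bool) (i : ℕ) => fbv e i (L.getD i false) Z)
      (f := fun L : List Bool => L.length) ?_ Primrec.list_length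
    exact ui_fbv.comp (f := fun x : List Bool × ℕ => (e, x.2, x.1.getD x.2 false))
      (Primrec.pair (Primrec.const e) (Primrec.pair Primrec.snd
        ((Primrec.list_getD false).comp Primrec.fst Primrec.snd)))
  obtain ⟨P, hP⟩ := open_of_ui hq C (pre D n)
  refine ⟨P, ?_⟩
  rw [← hP]
  ext X
  simp only [Ue, Set.mem_ofPred_eq, length_pre]
  refine forall_congr' fun i => forall_congr' fun hi => ?_
  rw [pre_getD D n i false hi]

theorem Ue_anti (C D : ℕ → Bool) (e : ℕ) : Antitone (Ue C D e) := by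
  intro m n h X hX i hi
  exact hX i (by omega)

/-- The theorem of Sacks: the cone above a set not computable in `C` is null relative to `C`. -/
theorem sacks {C D : ℕ → Bool} (h : ¬ TLe D C) (e : ℕ) : lam (⋂ n, Ue C D e n) = 0 := by
  by_contra h0
  obtain ⟨σ, hσ⟩ := density (Ue_open C D e) (Ue_anti C D e) h0
  refine h ?_
  have hq : UI fun Z (x : ℕ × Bool) =>
      (∀ j < σ.length, Z (2 * j) = σ.getD j false) ∧ fbv e x.1 x.2 Z := by
    refine UI.and ?_ ?_
    · refine UI.all_lt (p := fun Z (_ : ℕ × Bool) (j : ℕ) => Z (2 * j) = σ.getD j false)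
        (f := fun _ : ℕ × Bool => σ.length) ?_ (Primrec.const _)
      exact UI.query.comp (f := fun x : (ℕ × Bool) × ℕ => (2 * x.2, σ.getD x.2 false))
        (Primrec.pair (Primrec.nat_mul.comp (Primrec.const 2) Primrec.snd)
          ((Primrec.list_getD false).comp (Primrec.const σ) Primrec.snd))
    · exact ui_fbv.comp (f := fun x : ℕ × Bool => (e, x.1, x.2))
        (Primrec.pair (Primrec.const e) (Primrec.pair Primrec.fst Primrec.snd))
  have hcy : ∀ X : ℕ → Bool, (∀ j < σ.length, join X C (2 * j) = σ.getD j false) ↔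
      X ∈ cyl σ := by
    intro X
    rw [cyl_eq]
    simp only [join_ev, Set.mem_ofPred_eq, Finset.mem_range]
  have h1 := si_measure_gt hq C (f := fun _ : ℕ × Bool => σ.length + 1) (Primrec.const _)
  rw [tLe_iff_SI]
  refine h1.of_eq fun x => ?_
  obtain ⟨i, b⟩ := x
  simp only
  have hV : ∀ b, {X : ℕ → Bool | (∀ j < σ.length, join X C (2 * j) = σ.getD j false) ∧
      fbv e i b (join X C)} = cyl σ ∩ {X | fbv e i b (join X C)} := by
    intro b
    ext X
    simp only [Set.mem_ofPred_eq, Set.mem_inter_iff, hcy]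
  rw [hV]
  have hlt : (1 / 2 : ℝ≥0∞) ^ (σ.length + 1) < lam (cyl σ ∩ {X | fbv e i (D i) (join X C)}) := by
    refine lt_of_lt_of_le hσ (measure_mono ?_)
    rintro X ⟨h2, h3⟩
    refine ⟨h3, ?_⟩
    have h4 := Set.mem_iInter.1 h2 (i + 1)
    exact h4 i (Nat.lt_succ_self i)
  constructor
  · intro h2
    by_contra hne
    have hm : MeasurableSet (cyl σ ∩ {X | fbv e i (D i) (join X C)}) := by
      refine (measurableSet_cyl σ).inter (measurable_of_open ?_)
      exact open_of_ui (q := fun Z (x : ℕ × ℕ × Bool) => fbv x.1 x.2.1 x.2.2 Z) ui_fbv C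
        (e, i, D i)
    have hdis : Disjoint (cyl σ ∩ {X | fbv e i b (join X C)})
        (cyl σ ∩ {X | fbv e i (D i) (join X C)}) := by
      rw [Set.disjoint_left]
      rintro X ⟨_, h3⟩ ⟨_, h4⟩
      exact hne (fbv_unique h4 h3)
    have h3 : lam (cyl σ ∩ {X | fbv e i b (join X C)}) +
        lam (cyl σ ∩ {X | fbv e i (D i) (join X C)}) ≤ (1 / 2) ^ σ.length := by
      rw [← measure_union hdis hm, ← lam_cyl]
      refine measure_mono ?_
      rintro X (h4 | h4)
      · exact h4.1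
      · exact h4.1
    have h4 := ENNReal.add_lt_add h2 hlt
    rw [half_add] at h4
    exact absurd h3 (not_le.2 h4)
  · rintro rfl
    exact hlt

/-- small measure -/
theorem exists_small {C D : ℕ → Bool} (h : ¬ TLe D C) (e j : ℕ) :
    ∃ n, ¬ (1 / 2 : ℝ≥0∞) ^ j < lam (Ue C D e n) := by
  by_contra hcon
  push Not at hcon
  have h2 : Filter.Tendsto (fun n => lam (Ue C D e n)) Filter.atTop
      (nhds (lam (⋂ n, Ue C D e n))) :=
    tendsto_measure_iInter_atTop (fun n => (measurable_of_open (Ue_open C D e n)).nullMeasurableSet)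
      (Ue_anti C D e) ⟨0, measure_ne_top _ _⟩
  rw [sacks h e] at h2
  have h3 := ge_of_tendsto' h2 fun n => (hcon n).le
  have h4 : (0 : ℝ≥0∞) < (1 / 2) ^ j := by
    refine ENNReal.pow_pos ?_ _
    norm_num
  exact absurd h3 (not_le.2 h4)

end Pool.Agent.Helper88.GL
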